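import Pool.Agent.Lib_MP_79ab39_ag.Defs

/-! The Gaussian lattice and the functions used in the construction. -/

open Complex PeriodPair

namespace MP79ab39

lemma indep_one_I : LinearIndependent ℝ ![(1 : ℂ), Complex.I] := by
  rw [LinearIndependent.pair_iff]
  intro s t h
  have h1 := congrArg Complex.re h
  have h2 := congrArg Complex.im h
  simp at h1 h2
  exact ⟨h1, h2⟩

/-- The Gaussian lattice `ℤ + ℤ i`. -/
noncomputable def Lq : PeriodPair := ⟨1, Complex.I, indep_one_I⟩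

lemma mem_Lq {z : ℂ} : z ∈ Lq.lattice ↔ ∃ a b : ℤ, z = a + b * Complex.I := by
  rw [PeriodPair.mem_lattice]
  constructor
  · rintro ⟨a, b, h⟩
    exact ⟨a, b, by rw [← h]; simp [Lq]⟩
  · rintro ⟨a, b, h⟩
    exact ⟨a, b, by rw [h]; simp [Lq]⟩

/-- The half period `(1+i)/2`. -/
noncomputable def hh : ℂ := (1 + Complex.I) / 2

/-- `e = ℘(1/2)`. -/
noncomputable def ee : ℂ := ℘[Lq] (1 / 2)

lemma exists_sqrt_ee : ∃ c : ℂ, c ^ 2 = ee :=
  ⟨ee ^ ((1 : ℂ) / 2), by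
    rw [← Complex.cpow_nat_mul]
    norm_num⟩

/-- a square root of `e` -/
noncomputable def cc : ℂ := exists_sqrt_ee.choose

lemma cc_sq : cc ^ 2 = ee := exists_sqrt_ee.choose_spec

/-- `X = ℘ / e` -/
noncomputable def Xf (z : ℂ) : ℂ := ℘[Lq] z / ee

/-- `W = ℘' / (2 c ℘)` -/
noncomputable def Wf (z : ℂ) : ℂ := ℘'[Lq] z / (2 * cc * ℘[Lq] z)

/-- `U = W(m z) / W(z)` -/
noncomputable def Uf (m : ℕ) (z : ℂ) : ℂ := Wf (m * z) / Wf z

/-- `R = U (U⁴ - 1) / (2 U⁶ + 1)` -/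
noncomputable def Rf (m : ℕ) (z : ℂ) : ℂ :=
  Uf m z * (Uf m z ^ 4 - 1) / (2 * Uf m z ^ 6 + 1)

/-- the multiplier `N = 2 m (m⁴ - 1)` -/
def NN (m : ℕ) : ℕ := 2 * m * (m ^ 4 - 1)

/-- `V = R(z) W(N z)` -/
noncomputable def Vf (m : ℕ) (z : ℂ) : ℂ := Rf m z * Wf (NN m * z)

end MP79ab39
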