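import Pool.Agent.Lib_MP_79ab39_ag.WBasic

/-!
# MP_79ab39_ag, piece H: the curve lies on the surface; birationality
-/

open Complex PeriodPair Filter Topology

namespace MP79ab39

/-- the coordinate functions of the curve -/
noncomputable def curveFun (m : ℕ) (i : Fin 4) (z : ℂ) : ℂ :=
  if i = 0 then Uf m z else if i = 1 then Xf (NN m * z) else if i = 2 then Wf (NN m * z)
  else Vf m z

/-- a meromorphic function which is not identically zero has countably many zeros -/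
theorem countable_zeros {g : ℂ → ℂ} (hg : Meromorphic g) {z₀ : ℂ}
    (h0 : meromorphicOrderAt g z₀ ≠ ⊤) : {z | g z = 0}.Countable := by
  have hm : MeromorphicOn g Set.univ := fun x _ => hg x
  have h1 : ∀ z, ∀ᶠ w in 𝓝[≠] z, g w ≠ 0 := fun z =>
    (meromorphicOrderAt_ne_top_iff_eventually_ne_zero (hg z)).1
      (hm.meromorphicOrderAt_ne_top_of_isPreconnected (x := z₀) isPreconnected_univ
        (Set.mem_univ _) (Set.mem_univ _) h0)
  have h2 : ∀ z, {w | w ≠ z → g w ≠ 0} ∈ 𝓝 z := by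
    intro z
    have := h1 z
    rw [eventually_nhdsWithin_iff] at this
    exact this
  obtain ⟨s, hs, hcov⟩ := TopologicalSpace.countable_cover_nhds h2
  refine hs.mono fun w hw => ?_
  have hmem : w ∈ ⋃ x ∈ s, {w | w ≠ x → g w ≠ 0} := by rw [hcov]; trivial
  simp only [Set.mem_iUnion] at hmem
  obtain ⟨x, hx, hwx⟩ := hmem
  by_cases h : w = x
  · rw [h]; exact hx
  · exact absurd hw (hwx h)

lemma curveAux_countable_Lq : (Lq.lattice : Set ℂ).Countable := by
  refine (Set.countable_range (fun p : ℤ × ℤ => (p.1 : ℂ) + p.2 * Complex.I)).mono ?_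
  intro z hz
  obtain ⟨a, b, h⟩ := mem_Lq.1 hz
  exact ⟨(a, b), h.symm⟩

lemma curveAux_countable_preimage {a b : ℂ} (ha : a ≠ 0) : {z | a * z + b ∈ Lq.lattice}.Countable := by
  have h := curveAux_countable_Lq.preimage_of_injOn (f := fun z : ℂ => a * z + b) ?_
  · exact h
  · intro x _ y _ hxy
    have : a * x = a * y := add_right_cancel hxy
    exact mul_left_cancel₀ ha this

lemma curveAux_NN_ne_zero {m : ℕ} (hm2 : 2 ≤ m) : NN m ≠ 0 := by
  unfold NN
  have h1 : 2 ^ 4 ≤ m ^ 4 := Nat.pow_le_pow_left hm2 4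
  have h2 : m ^ 4 - 1 ≠ 0 := by omega
  have h3 : 2 * m ≠ 0 := by omega
  exact mul_ne_zero h3 h2

theorem curve_eq1 {m : ℕ} (_hm : Even m) (hm2 : 2 ≤ m) : ∃ D : Set ℂ, D.Countable ∧ ∀ z ∉ D,
    Wf (NN m * z) ^ 2 * Xf (NN m * z) = Xf (NN m * z) ^ 2 - 1 := by
  have hN : (NN m : ℂ) ≠ 0 := Nat.cast_ne_zero.2 (curveAux_NN_ne_zero hm2)
  refine ⟨{z | (NN m : ℂ) * z + 0 ∈ Lq.lattice} ∪ {z | (NN m : ℂ) * z + (-hh) ∈ Lq.lattice},
    (curveAux_countable_preimage hN).union (curveAux_countable_preimage hN), fun z hz => ?_⟩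
  rw [Set.mem_union, not_or] at hz
  refine Wf_sq_mul_Xf (fun h => hz.1 ?_) (fun h => hz.2 ?_)
  · simpa using h
  · simpa [sub_eq_add_neg] using h

lemma curveAux_comp_mul_meromorphic {f : ℂ → ℂ} (hf : Meromorphic f) (a : ℂ) :
    Meromorphic (fun z => f (a * z)) := by
  intro z
  have hg : AnalyticAt ℂ (fun t : ℂ => a * t) z := by fun_prop
  exact MeromorphicAt.comp_analyticAt (f := f) (g := fun t : ℂ => a * t) (hf (a * z)) hg

lemma curveAux_Uf_meromorphic (m : ℕ) : Meromorphic (Uf m) := by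
  intro z
  exact (curveAux_comp_mul_meromorphic Wf_meromorphic (m : ℂ) z).div (Wf_meromorphic z)

lemma curveAux_curve_order_Uf (m : ℕ) (hm : 1 ≤ m) (z : ℂ) :
    meromorphicOrderAt (Uf m) z = meromorphicOrderAt Wf (m * z) - meromorphicOrderAt Wf z := by
  have h1 : meromorphicOrderAt (fun w => Wf (m * w)) z = meromorphicOrderAt Wf (m * z) := by
    have hg : AnalyticAt ℂ (fun t : ℂ => (m : ℂ) * t) z := by fun_prop
    have hd : deriv (fun t : ℂ => (m : ℂ) * t) z ≠ 0 := by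
      rw [deriv_const_mul_id']
      exact Nat.cast_ne_zero.2 (by omega)
    exact meromorphicOrderAt_comp_of_deriv_ne_zero (f := Wf) hg hd
  have h2 : Uf m = (fun w => Wf (m * w)) / Wf := by funext w; rfl
  rw [h2, meromorphicOrderAt_div (curveAux_comp_mul_meromorphic Wf_meromorphic (m : ℂ) z)
    (Wf_meromorphic z), h1]

lemma curveAux_half_mul_mem {m : ℕ} (hm : Even m) : (m : ℂ) * (1 / 2) ∈ Lq.lattice := by
  obtain ⟨k, rfl⟩ := hm
  exact mem_Lq.2 ⟨k, 0, by push_cast; ring⟩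

lemma curveAux_order_Uf_half {m : ℕ} (hm : Even m) (hm2 : 2 ≤ m) :
    meromorphicOrderAt (Uf m) (1 / 2) = ((-2 : ℤ) : WithTop ℤ) := by
  rw [curveAux_curve_order_Uf m (by omega), order_Wf_pole (Or.inl (curveAux_half_mul_mem hm)),
    order_Wf_zero (Or.inl (by simp))]
  rfl

theorem curve_eq2 {m : ℕ} (hm : Even m) (hm2 : 2 ≤ m) : ∃ D : Set ℂ, D.Countable ∧ ∀ z ∉ D,
    Vf m z * (2 * Uf m z ^ 6 + 1) = Uf m z * (Uf m z ^ 4 - 1) * Wf (NN m * z) := by
  have hmer : Meromorphic (fun z => 2 * Uf m z ^ 6 + 1) := by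
    have := curveAux_Uf_meromorphic m
    intro z
    have hz := this z
    fun_prop
  have hne : meromorphicOrderAt (fun z => 2 * Uf m z ^ 6 + 1) (1 / 2) ≠ ⊤ := by
    intro htop
    rw [meromorphicOrderAt_eq_top_iff] at htop
    have h1 : (fun z => Uf m z ^ 6) =ᶠ[𝓝[≠] (1 / 2)] fun _ => (-1 / 2 : ℂ) := by
      filter_upwards [htop] with z hz
      linear_combination hz / 2
    have h2 := meromorphicOrderAt_congr h1
    have h3 : meromorphicOrderAt (fun z => Uf m z ^ 6) (1 / 2) =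
        6 * meromorphicOrderAt (Uf m) (1 / 2) := by
      have := meromorphicOrderAt_pow (curveAux_Uf_meromorphic m (1 / 2)) (n := 6)
      exact_mod_cast this
    classical
    rw [h3, curveAux_order_Uf_half hm hm2, meromorphicOrderAt_const, if_neg (by norm_num)] at h2
    have h4 : (6 : WithTop ℤ) * ((-2 : ℤ) : WithTop ℤ) = ((-12 : ℤ) : WithTop ℤ) := rfl
    rw [h4] at h2
    have h5 : (-12 : ℤ) = 0 := by exact_mod_cast h2
    norm_num at h5
  refine ⟨{z | 2 * Uf m z ^ 6 + 1 = 0}, countable_zeros hmer hne, fun z hz => ?_⟩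
  have hz' : 2 * Uf m z ^ 6 + 1 ≠ 0 := hz
  unfold Vf Rf
  rw [mul_right_comm, div_mul_cancel₀ _ hz']

/-- the values of `Uf` under the translation by `h` -/
lemma curveAux_Uf_add_hh {m : ℕ} (hm : Even m) (z : ℂ) : Uf m (z + hh) = - Uf m z := by
  have h1 : (m : ℂ) * hh ∈ Lq.lattice := by
    obtain ⟨k, rfl⟩ := hm
    have h := Submodule.smul_mem Lq.lattice (k : ℤ) two_hh_mem
    have h' : ((k + k : ℕ) : ℂ) * hh = (k : ℤ) • (2 * hh) := by
      rw [zsmul_eq_mul]; push_cast; ring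
    rw [h']; exact h
  unfold Uf
  rw [mul_add, Wf_periodic h1, Wf_add_hh, div_neg]

lemma curveAux_Uf_periodic (m : ℕ) {l : ℂ} (hl : l ∈ Lq.lattice) (z : ℂ) : Uf m (z + l) = Uf m z := by
  have h1 : (m : ℂ) * l ∈ Lq.lattice := by
    have h := Submodule.smul_mem Lq.lattice (m : ℤ) hl
    have h' : (m : ℂ) * l = (m : ℤ) • l := by
      rw [zsmul_eq_mul]; push_cast; ring
    rw [h']; exact h
  unfold Uf
  rw [mul_add, Wf_periodic h1, Wf_periodic hl]

/-- the three possible orders of `W` -/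
lemma curveAux_order_Wf_cases (z : ℂ) :
    (meromorphicOrderAt Wf z = ((-1 : ℤ) : WithTop ℤ) ∧ (z ∈ Lq.lattice ∨ z - hh ∈ Lq.lattice)) ∨
    (meromorphicOrderAt Wf z = ((1 : ℤ) : WithTop ℤ) ∧
      (z - 1 / 2 ∈ Lq.lattice ∨ z - Complex.I / 2 ∈ Lq.lattice)) ∨
    (meromorphicOrderAt Wf z = ((0 : ℤ) : WithTop ℤ)) := by
  by_cases h : 2 * z ∈ Lq.lattice
  · rcases two_mul_mem.1 h with h | h | h | h
    · exact Or.inl ⟨order_Wf_pole (Or.inl h), Or.inl h⟩
    · exact Or.inl ⟨order_Wf_pole (Or.inr h), Or.inr h⟩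
    · exact Or.inr (Or.inl ⟨order_Wf_zero (Or.inl h), Or.inl h⟩)
    · exact Or.inr (Or.inl ⟨order_Wf_zero (Or.inr h), Or.inr h⟩)
  · exact Or.inr (Or.inr (order_Wf_other h))

/-- where `Uf` has order `-2` -/
lemma curveAux_order_Uf_eq_neg_two {m : ℕ} (hm2 : 2 ≤ m) {z : ℂ}
    (h : meromorphicOrderAt (Uf m) z = ((-2 : ℤ) : WithTop ℤ)) :
    z - 1 / 2 ∈ Lq.lattice ∨ z - Complex.I / 2 ∈ Lq.lattice := by
  rw [curveAux_curve_order_Uf m (by omega)] at h
  rcases curveAux_order_Wf_cases z with ⟨h1, h1'⟩ | ⟨h1, h1'⟩ | h1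
  · exfalso
    rcases curveAux_order_Wf_cases (m * z) with ⟨h2, _⟩ | ⟨h2, _⟩ | h2 <;> rw [h1, h2] at h
    · have : ((-1 : ℤ) - (-1 : ℤ) : ℤ) = -2 := by exact_mod_cast h
      norm_num at this
    · have : ((1 : ℤ) - (-1 : ℤ) : ℤ) = -2 := by exact_mod_cast h
      norm_num at this
    · have : ((0 : ℤ) - (-1 : ℤ) : ℤ) = -2 := by exact_mod_cast h
      norm_num at this
  · exact h1'
  · exfalso
    rcases curveAux_order_Wf_cases (m * z) with ⟨h2, _⟩ | ⟨h2, _⟩ | h2 <;> rw [h1, h2] at h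
    · have : ((-1 : ℤ) - (0 : ℤ) : ℤ) = -2 := by exact_mod_cast h
      norm_num at this
    · have : ((1 : ℤ) - (0 : ℤ) : ℤ) = -2 := by exact_mod_cast h
      norm_num at this
    · have : ((0 : ℤ) - (0 : ℤ) : ℤ) = -2 := by exact_mod_cast h
      norm_num at this

/-- `Uf` has no periods outside the lattice -/
lemma curveAux_Uf_translate_ne {m : ℕ} (hm : Even m) (hm2 : 2 ≤ m) {τ : ℂ} (hτ : τ ∉ Lq.lattice) :
    meromorphicOrderAt (fun w => Uf m (w + τ) - Uf m w) (1 / 2) ≠ ⊤ := by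
  intro htop
  rw [meromorphicOrderAt_eq_top_iff] at htop
  have h0 := curveAux_order_Uf_half hm hm2
  have h1 : (fun w => Uf m (w + τ)) =ᶠ[𝓝[≠] (1 / 2)] fun w => Uf m w := by
    filter_upwards [htop] with z hz
    exact sub_eq_zero.1 hz
  have h2 := meromorphicOrderAt_congr h1
  rw [meromorphicOrderAt_fun_comp_add_const_eq_meromorphicOrderAt] at h2
  have h3 : meromorphicOrderAt (Uf m) (1 / 2 + τ) = ((-2 : ℤ) : WithTop ℤ) := h2.trans h0
  rcases curveAux_order_Uf_eq_neg_two hm2 h3 with h4 | h4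
  · apply hτ
    have : (1 / 2 : ℂ) + τ - 1 / 2 = τ := by ring
    rwa [this] at h4
  · have h5 : τ - hh ∈ Lq.lattice := by
      have e : τ - hh = (1 / 2 + τ - Complex.I / 2) - 1 := by unfold hh; ring
      rw [e]
      exact sub_mem h4 one_mem_Lq
    have h6 : ∀ᶠ w in 𝓝[≠] (1 / 2 : ℂ), Uf m w = 0 := by
      filter_upwards [h1] with w hw
      have e : w + τ = (w + hh) + (τ - hh) := by ring
      rw [e, curveAux_Uf_periodic m h5, curveAux_Uf_add_hh hm] at hw
      exact neg_eq_self.1 hw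
    have h7 := meromorphicOrderAt_eq_top_iff.2 h6
    rw [h0] at h7
    exact absurd h7 (by simp)

theorem curve_birational {m : ℕ} (hm : Even m) (hm2 : 2 ≤ m) :
    ∃ D : Set ℂ, D.Countable ∧ ∀ z ∉ D, ∀ z' ∉ D,
      Uf m z = Uf m z' → Xf (NN m * z) = Xf (NN m * z') → Wf (NN m * z) = Wf (NN m * z') →
      z - z' ∈ Lq.lattice := by
  have hN : (NN m : ℂ) ≠ 0 := Nat.cast_ne_zero.2 (curveAux_NN_ne_zero hm2)
  have h2N : 2 * (NN m : ℂ) ≠ 0 := mul_ne_zero two_ne_zero hN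
  set T : Set ℂ := {τ | (NN m : ℂ) * τ + 0 ∈ Lq.lattice ∧ τ ∉ Lq.lattice} with hT
  have hTc : T.Countable := (curveAux_countable_preimage (b := 0) hN).mono fun τ h => h.1
  have hU : ∀ τ ∈ T, {z | Uf m (z + τ) - Uf m z = 0}.Countable := by
    intro τ hτ
    have hmer : Meromorphic (fun w => Uf m (w + τ) - Uf m w) := by
      intro z
      have h1 : MeromorphicAt (fun w => Uf m (w + τ)) z :=
        MeromorphicAt.comp_analyticAt (f := Uf m) (g := fun w : ℂ => w + τ)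
          (curveAux_Uf_meromorphic m (z + τ)) (by fun_prop)
      exact h1.sub (curveAux_Uf_meromorphic m z)
    exact countable_zeros hmer (curveAux_Uf_translate_ne hm hm2 hτ.2)
  refine ⟨{z | 2 * (NN m : ℂ) * z + 0 ∈ Lq.lattice} ∪
    ⋃ τ ∈ T, {z | Uf m (z + τ) - Uf m z = 0},
    (curveAux_countable_preimage h2N).union (hTc.biUnion hU), fun z hz z' hz' h1 h2 h3 => ?_⟩
  rw [Set.mem_union, not_or] at hz hz'
  have hP : ∀ w : ℂ, ¬ (2 * (NN m : ℂ) * w + 0 ∈ Lq.lattice) →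
      (NN m : ℂ) * w ∉ Lq.lattice ∧ ℘[Lq] (NN m * w) ≠ 0 := by
    intro w hw
    rw [add_zero, mul_assoc, two_mul_mem] at hw
    push Not at hw
    refine ⟨hw.1, fun h => ?_⟩
    rcases P_eq_zero_iff.1 h with h | h
    · exact hw.1 h
    · exact hw.2.1 h
  obtain ⟨hz1, hz2⟩ := hP z hz.1
  obtain ⟨hz1', hz2'⟩ := hP z' hz'.1
  have e1 : ℘[Lq] (NN m * z) = ℘[Lq] (NN m * z') := by
    unfold Xf at h2
    exact (div_left_inj' ee_ne_zero).1 h2
  have e2 : ℘'[Lq] (NN m * z) = ℘'[Lq] (NN m * z') := by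
    unfold Wf at h3
    rw [e1] at h3
    exact (div_left_inj' (mul_ne_zero (mul_ne_zero two_ne_zero cc_ne_zero) hz2')).1 h3
  have e3 := P_injective Lq hz1' hz1 e1.symm e2.symm
  by_contra hcon
  apply hz.2
  have hτ : z' - z ∈ T := by
    refine ⟨?_, fun h => hcon ?_⟩
    · rw [add_zero, mul_sub]; exact e3
    · have := neg_mem h
      rwa [neg_sub] at this
  refine Set.mem_biUnion hτ ?_
  change Uf m (z + (z' - z)) - Uf m z = 0
  rw [add_sub_cancel, h1, sub_self]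

end MP79ab39
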