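import Pool.Agent.Lib_MP_79ab39_ag.WClass

/-! Orders of `U = W(mz)/W(z)` and of `U⁴ - 1`. -/

open Complex PeriodPair Filter Topology

namespace MP79ab39



lemma order_Uf (m : ℕ) (hm : 1 ≤ m) (z : ℂ) :
    meromorphicOrderAt (Uf m) z = meromorphicOrderAt Wf (m * z) - meromorphicOrderAt Wf z := by
  have hm0 : (m : ℂ) ≠ 0 := by
    have : m ≠ 0 := by omega
    exact_mod_cast this
  have hg : AnalyticAt ℂ (fun w : ℂ => (m : ℂ) * w) z := by fun_prop
  have hg' : deriv (fun w : ℂ => (m : ℂ) * w) z ≠ 0 := by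
    rw [deriv_const_mul _ differentiableAt_id]
    simpa using hm0
  have h1 := meromorphicOrderAt_comp_of_deriv_ne_zero (f := Wf) hg hg'
  have h2 : MeromorphicAt (Wf ∘ fun w : ℂ => (m : ℂ) * w) z :=
    (meromorphicAt_comp_iff_of_deriv_ne_zero hg hg').mpr (Wf_meromorphic _)
  have h3 : Uf m = (Wf ∘ fun w : ℂ => (m : ℂ) * w) / Wf := by
    funext w; rfl
  rw [h3, meromorphicOrderAt_div h2 (Wf_meromorphic z), h1]

lemma unit_cases {ε : ℂ} (h : ε ^ 4 = 1) :
    ε = 1 ∨ ε = -1 ∨ ε = Complex.I ∨ ε = -Complex.I := by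
  have h1 : (ε - 1) * (ε + 1) * ((ε - Complex.I) * (ε + Complex.I)) = 0 := by
    have : (ε - Complex.I) * (ε + Complex.I) = ε ^ 2 + 1 := by
      linear_combination -Complex.I_sq
    rw [this]; linear_combination h
  rcases mul_eq_zero.mp h1 with h2 | h2
  · rcases mul_eq_zero.mp h2 with h3 | h3
    · exact Or.inl (sub_eq_zero.mp h3)
    · exact Or.inr (Or.inl (eq_neg_of_add_eq_zero_left h3))
  · rcases mul_eq_zero.mp h2 with h3 | h3
    · exact Or.inr (Or.inr (Or.inl (sub_eq_zero.mp h3)))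
    · exact Or.inr (Or.inr (Or.inr (eq_neg_of_add_eq_zero_left h3)))

lemma unit_mul_mem {ε : ℂ} (h : ε ^ 4 = 1) {z : ℂ} :
    ε * z ∈ Lq.lattice ↔ z ∈ Lq.lattice := by
  rcases unit_cases h with rfl | rfl | rfl | rfl
  · simp
  · simp
  · exact mul_I_mem
  · rw [neg_mul, neg_mem_iff]; exact mul_I_mem

lemma Wf_mul_unit {ε : ℂ} (h : ε ^ 4 = 1) (z : ℂ) : Wf (ε * z) = ε⁻¹ * Wf z := by
  rcases unit_cases h with rfl | rfl | rfl | rfl
  · simp
  · rw [neg_one_mul, Wf_neg]; norm_num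
  · rw [Wf_mul_I, Complex.inv_I]
  · rw [neg_mul, Wf_neg, Wf_mul_I, inv_neg, Complex.inv_I]; ring

lemma nat_mul_mem (n : ℕ) {w : ℂ} (hw : w ∈ Lq.lattice) : (n : ℂ) * w ∈ Lq.lattice := by
  have := nsmul_mem hw n
  rwa [nsmul_eq_mul] at this

lemma NN_cast {m : ℕ} (hm : 1 ≤ m) : (NN m : ℂ) = 2 * m * ((m : ℂ) ^ 4 - 1) := by
  unfold NN
  rw [Nat.cast_mul, Nat.cast_sub (Nat.one_le_pow _ _ hm)]
  push_cast
  ring

/-- the simple zeros of `U⁴ - 1` are torsion points -/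
lemma order_U4 {m : ℕ} (hm : Even m) (hm2 : 2 ≤ m) {z : ℂ} (hz : 2 * z ∉ Lq.lattice)
    (hmz : 2 * (m * z) ∉ Lq.lattice) (hU : Uf m z ^ 4 = 1) :
    meromorphicOrderAt (fun w => Uf m w ^ 4 - 1) z = 1 ∧ NN m * z ∈ Lq.lattice := by
  have hm1 : 1 ≤ m := by omega
  have z1 : z ∉ Lq.lattice := fun h => hz (two_mul_mem.mpr (Or.inl h))
  have z2 : z - hh ∉ Lq.lattice := fun h => hz (two_mul_mem.mpr (Or.inr (Or.inl h)))
  have m1 : (m : ℂ) * z ∉ Lq.lattice := fun h => hmz (two_mul_mem.mpr (Or.inl h))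
  have m2 : (m : ℂ) * z - hh ∉ Lq.lattice := fun h => hmz (two_mul_mem.mpr (Or.inr (Or.inl h)))
  have hWz : Wf z ≠ 0 := fun h => hz (Wf_eq_zero_iff.mp h)
  have anaW := Wf_analyticAt z1 z2
  have anaWm := Wf_analyticAt m1 m2
  have hm0 : (m : ℂ) ≠ 0 := by
    have : m ≠ 0 := by omega
    exact_mod_cast this
  -- the unit
  obtain ⟨ε, hε⟩ : ∃ ε : ℂ, ε = (Uf m z)⁻¹ := ⟨_, rfl⟩
  have hU0 : Uf m z ≠ 0 := by
    intro h; rw [h] at hU; norm_num at hU
  have hε4 : ε ^ 4 = 1 := by rw [hε, inv_pow, hU, inv_one]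
  have hε0 : ε ≠ 0 := by rw [hε]; exact inv_ne_zero hU0
  have hUε : Uf m z = ε⁻¹ := by rw [hε, inv_inv]
  have hW : Wf (m * z) = Wf (ε * z) := by
    rw [Wf_mul_unit hε4, ← hUε, Uf, div_mul_cancel₀ _ hWz]
  have hεz : 2 * (ε * z) ∉ Lq.lattice := by
    intro h
    have e : 2 * (ε * z) = ε * (2 * z) := by ring
    rw [e, unit_mul_mem hε4] at h
    exact hz h
  have hcases := Wf_eq_iff hmz hεz hW
  -- derivative at z
  have hW'z : deriv Wf z ≠ 0 := by
    apply deriv_Wf_ne_zero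
    intro h
    obtain ⟨k, hk⟩ := hm
    apply hmz
    have := nat_mul_mem k h
    have e : 2 * ((m : ℂ) * z) = (k : ℂ) * (4 * z) := by
      rw [hk]; push_cast; ring
    rw [e]; exact this
  have hεz1 : ε * z ∉ Lq.lattice := fun h => z1 ((unit_mul_mem hε4).mp h)
  have hεz2 : ε * z - hh ∉ Lq.lattice := fun h => hεz (two_mul_mem.mpr (Or.inr (Or.inl h)))
  have hderivε : deriv Wf (ε * z) = ε⁻¹ ^ 2 * deriv Wf z := by
    have ha : HasDerivAt (fun w => Wf (ε * w)) (deriv Wf (ε * z) * ε) z := by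
      have hb : HasDerivAt Wf (deriv Wf (ε * z)) (ε * z) :=
        (Wf_analyticAt hεz1 hεz2).differentiableAt.hasDerivAt
      have hc : HasDerivAt (fun w : ℂ => ε * w) ε z := by
        simpa using (hasDerivAt_id z).const_mul ε
      exact hb.comp z hc
    have hd : HasDerivAt (fun w => Wf (ε * w)) (ε⁻¹ * deriv Wf z) z := by
      have he : (fun w => Wf (ε * w)) = fun w => ε⁻¹ * Wf w := by
        funext w; exact Wf_mul_unit hε4 w
      rw [he]
      exact anaW.differentiableAt.hasDerivAt.const_mul _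
    have hf := ha.unique hd
    calc deriv Wf (ε * z) = (deriv Wf (ε * z) * ε) * ε⁻¹ := by
          rw [mul_assoc, mul_inv_cancel₀ hε0, mul_one]
      _ = (ε⁻¹ * deriv Wf z) * ε⁻¹ := by rw [hf]
      _ = _ := by ring
  -- periodicity of the derivative
  have hper : ∀ (l w : ℂ), l ∈ Lq.lattice → deriv Wf (w + l) = deriv Wf w := by
    intro l w hl
    have he : (fun t => Wf (t + l)) = Wf := by
      funext t; exact Wf_periodic hl t
    calc deriv Wf (w + l) = deriv (fun t => Wf (t + l)) w := (deriv_comp_add_const _ _ _).symm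
      _ = deriv Wf w := by rw [he]
  have hrefl : ∀ w : ℂ, deriv Wf (hh - w) = - deriv Wf w := by
    intro w
    have he : (fun t => Wf (hh - t)) = Wf := by
      funext t
      have h1 := Wf_add_hh (-t)
      rw [Wf_neg, neg_neg] at h1
      rw [← h1]; congr 1; ring
    have h2 : deriv (fun t => Wf (hh - t)) w = -deriv Wf (hh - w) := deriv_comp_const_sub _ _ _
    rw [he] at h2
    rw [h2, neg_neg]
  -- norm of units
  have hnε : ‖ε‖ = 1 := by
    have : ‖ε‖ ^ 4 = 1 := by rw [← norm_pow, hε4, norm_one]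
    exact (pow_eq_one_iff_of_nonneg (norm_nonneg _) (by norm_num)).mp this
  have hmε1 : (m : ℂ) - ε ≠ 0 := by
    intro h
    have h1 : (m : ℂ) = ε := sub_eq_zero.mp h
    have h2 : ‖(m : ℂ)‖ = 1 := by rw [h1, hnε]
    rw [Complex.norm_natCast] at h2
    have : m = 1 := by exact_mod_cast h2
    omega
  have hmε2 : (m : ℂ) + ε ≠ 0 := by
    intro h
    have h1 : (m : ℂ) = -ε := eq_neg_of_add_eq_zero_left h
    have h2 : ‖(m : ℂ)‖ = 1 := by rw [h1, norm_neg, hnε]
    rw [Complex.norm_natCast] at h2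
    have : m = 1 := by exact_mod_cast h2
    omega
  have hderivm : ∃ κ : ℂ, deriv Wf (m * z) = κ * deriv Wf z ∧ κ * m - ε⁻¹ ≠ 0 := by
    rcases hcases with h | h
    · refine ⟨ε⁻¹ ^ 2, ?_, ?_⟩
      · have h1 := hper _ (ε * z) h
        have e : ε * z + ((m : ℂ) * z - ε * z) = m * z := by ring
        rw [e] at h1
        rw [h1, hderivε]
      · have e : ε⁻¹ ^ 2 * (m : ℂ) - ε⁻¹ = ε⁻¹ ^ 2 * (m - ε) := by
          field_simp
        rw [e]
        exact mul_ne_zero (pow_ne_zero _ (inv_ne_zero hε0)) hmε1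
    · refine ⟨-(ε⁻¹ ^ 2), ?_, ?_⟩
      · have h1 := hper _ (hh - ε * z) h
        have e : hh - ε * z + ((m : ℂ) * z + ε * z - hh) = m * z := by ring
        rw [e] at h1
        rw [h1, hrefl, hderivε]; ring
      · have e : -(ε⁻¹ ^ 2) * (m : ℂ) - ε⁻¹ = -(ε⁻¹ ^ 2 * (m + ε)) := by
          field_simp
          ring
        rw [e]
        exact neg_ne_zero.mpr (mul_ne_zero (pow_ne_zero _ (inv_ne_zero hε0)) hmε2)
  constructor
  · -- the order
    have anaU : AnalyticAt ℂ (Uf m) z := by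
      unfold Uf
      refine AnalyticAt.div ?_ anaW hWz
      exact anaWm.comp (f := fun w : ℂ => (m : ℂ) * w) (by fun_prop)
    have hd1 : HasDerivAt (fun w => Wf (m * w)) (deriv Wf (m * z) * m) z := by
      have hb : HasDerivAt Wf (deriv Wf (m * z)) (m * z) := anaWm.differentiableAt.hasDerivAt
      have hc : HasDerivAt (fun w : ℂ => (m : ℂ) * w) m z := by
        simpa using (hasDerivAt_id z).const_mul (m : ℂ)
      exact hb.comp z hc
    have hd2 : HasDerivAt (Uf m) ((deriv Wf (m * z) * m * Wf z - Wf (m * z) * deriv Wf z) /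
        Wf z ^ 2) z := hd1.div anaW.differentiableAt.hasDerivAt hWz
    obtain ⟨κ, hκ1, hκ2⟩ := hderivm
    have hd3 : (deriv Wf (m * z) * m * Wf z - Wf (m * z) * deriv Wf z) / Wf z ^ 2 ≠ 0 := by
      have e : Wf (m * z) = ε⁻¹ * Wf z := by rw [hW, Wf_mul_unit hε4]
      rw [hκ1, e]
      have e2 : κ * deriv Wf z * m * Wf z - ε⁻¹ * Wf z * deriv Wf z =
          (κ * m - ε⁻¹) * (deriv Wf z * Wf z) := by ring
      rw [e2]
      exact div_ne_zero (mul_ne_zero hκ2 (mul_ne_zero hW'z hWz)) (pow_ne_zero _ hWz)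
    have anaU4 : AnalyticAt ℂ (fun w => Uf m w ^ 4) z := anaU.pow 4
    have hd4 : deriv (fun w => Uf m w ^ 4) z ≠ 0 := by
      have := (hd2.pow 4).deriv
      have e3 : (fun w => Uf m w ^ 4) = (Uf m) ^ 4 := by funext w; rfl
      rw [e3, this]
      refine mul_ne_zero (mul_ne_zero (by norm_num) (pow_ne_zero _ hU0)) hd3
    have h5 := anaU4.analyticOrderAt_sub_eq_one_of_deriv_ne_zero hd4
    have h6 : (fun w => Uf m w ^ 4 - Uf m z ^ 4) = fun w => Uf m w ^ 4 - 1 := by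
      rw [hU]
    rw [h6] at h5
    have anaF : AnalyticAt ℂ (fun w => Uf m w ^ 4 - 1) z := anaU4.sub analyticAt_const
    rw [anaF.meromorphicOrderAt_eq, h5]
    rfl
  · -- torsion
    have hfac : (NN m : ℂ) * z = (m : ℂ) * ((m : ℂ) * (m * (2 * (((m : ℂ) - ε) * (m + ε) * z))) +
        ε * (ε * (2 * (((m : ℂ) - ε) * (m + ε) * z)))) := by
      rw [NN_cast hm1]
      linear_combination (2 * (m : ℂ) * z) * hε4
    have hcl : ∀ w ∈ Lq.lattice, (m : ℂ) * ((m : ℂ) * (m * w) + ε * (ε * w)) ∈ Lq.lattice := by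
      intro w hw
      refine nat_mul_mem m (add_mem (nat_mul_mem m (nat_mul_mem m hw)) ?_)
      exact (unit_mul_mem hε4).mpr ((unit_mul_mem hε4).mpr hw)
    rw [hfac]
    apply hcl
    rcases hcases with h | h
    · have e : 2 * (((m : ℂ) - ε) * (m + ε) * z) =
          ((2 : ℕ) : ℂ) * ((m : ℂ) * (m * z - ε * z) + ε * (m * z - ε * z)) := by
        push_cast; ring
      rw [e]
      exact nat_mul_mem 2 (add_mem (nat_mul_mem m h) ((unit_mul_mem hε4).mpr h))
    · have h2 : 2 * ((m : ℂ) * z + ε * z) ∈ Lq.lattice := by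
        have ha := nat_mul_mem 2 h
        have hb : (2 : ℂ) * hh ∈ Lq.lattice := by
          rw [mem_Lq]
          exact ⟨1, 1, by rw [hh]; push_cast; ring⟩
        have hc := add_mem ha hb
        have e : ((2 : ℕ) : ℂ) * ((m : ℂ) * z + ε * z - hh) + 2 * hh =
            2 * ((m : ℂ) * z + ε * z) := by push_cast; ring
        rwa [e] at hc
      have e : 2 * (((m : ℂ) - ε) * (m + ε) * z) =
          (m : ℂ) * (2 * ((m : ℂ) * z + ε * z)) - ε * (2 * ((m : ℂ) * z + ε * z)) := by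
        ring
      rw [e]
      exact sub_mem (nat_mul_mem m h2) ((unit_mul_mem hε4).mpr h2)

end MP79ab39
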