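import Pool.Agent.Lib_MP_79ab39_ag.Basic

/-! Symmetries of the Gaussian lattice. -/

open Complex PeriodPair

namespace MP79ab39

lemma mul_I_mem {z : ℂ} : Complex.I * z ∈ Lq.lattice ↔ z ∈ Lq.lattice := by
  rw [mem_Lq, mem_Lq]
  constructor
  · rintro ⟨a, b, h⟩
    refine ⟨b, -a, ?_⟩
    have : z = -(Complex.I * (Complex.I * z)) := by
      rw [← mul_assoc, Complex.I_mul_I]
      ring
    rw [this, h]
    push_cast
    linear_combination (-(b : ℂ)) * Complex.I_mul_I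
  · rintro ⟨a, b, h⟩
    refine ⟨-b, a, ?_⟩
    rw [h]
    push_cast
    linear_combination (b : ℂ) * Complex.I_mul_I

/-- multiplication by `i` on the Gaussian lattice -/
noncomputable def mulI : Lq.lattice ≃ Lq.lattice where
  toFun l := ⟨Complex.I * l.1, mul_I_mem.2 l.2⟩
  invFun l := ⟨-(Complex.I * l.1), neg_mem (mul_I_mem.2 l.2)⟩
  left_inv l := by
    apply Subtype.ext
    show -(Complex.I * (Complex.I * l.1)) = l.1
    rw [← mul_assoc, Complex.I_mul_I]
    ring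
  right_inv l := by
    apply Subtype.ext
    show Complex.I * (-(Complex.I * l.1)) = l.1
    rw [mul_neg, ← mul_assoc, Complex.I_mul_I]
    ring

lemma P_mul_I (z : ℂ) : ℘[Lq] (Complex.I * z) = - ℘[Lq] z := by
  unfold PeriodPair.weierstrassP
  rw [← mulI.tsum_eq, ← tsum_neg]
  congr with l
  show 1 / (Complex.I * z - Complex.I * l.1) ^ 2 - 1 / (Complex.I * l.1) ^ 2 = _
  rw [← mul_sub, mul_pow, mul_pow, Complex.I_sq]
  simp only [neg_mul, one_mul, div_neg]
  ring

lemma dP_mul_I (z : ℂ) : ℘'[Lq] (Complex.I * z) = Complex.I * ℘'[Lq] z := by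
  unfold PeriodPair.derivWeierstrassP
  rw [← mulI.tsum_eq, mul_neg, ← tsum_mul_left]
  congr 2 with l
  show 2 / (Complex.I * z - Complex.I * l.1) ^ 3 = _
  have h3 : Complex.I ^ 3 = - Complex.I := by
    rw [pow_succ, Complex.I_sq]
    ring
  rw [← mul_sub, mul_pow, h3, div_mul_eq_div_div, div_neg, Complex.div_I]
  ring

lemma g3_Lq : Lq.g₃ = 0 := by
  have h : Lq.G 6 = - Lq.G 6 := by
    unfold PeriodPair.G
    conv_lhs => rw [← mulI.tsum_eq]
    rw [← tsum_neg]
    congr with l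
    show ((Complex.I * l.1) ^ 6)⁻¹ = _
    have h6 : Complex.I ^ 6 = -1 := by
      have : Complex.I ^ 6 = (Complex.I ^ 2) ^ 3 := by ring
      rw [this, Complex.I_sq]
      norm_num
    rw [mul_pow, h6, neg_mul, one_mul, inv_neg]
  unfold PeriodPair.g₃
  rw [self_eq_neg.1 h, mul_zero]

/-- real and imaginary parts of a lattice point -/
lemma mem_Lq' {z : ℂ} : z ∈ Lq.lattice ↔ ∃ a b : ℤ, z.re = a ∧ z.im = b := by
  rw [mem_Lq]
  constructor
  · rintro ⟨a, b, h⟩
    exact ⟨a, b, by rw [h]; simp, by rw [h]; simp⟩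
  · rintro ⟨a, b, h1, h2⟩
    exact ⟨a, b, by apply Complex.ext <;> simp [h1, h2]⟩

/-- the classes of order two -/
lemma two_mul_mem {z : ℂ} : 2 * z ∈ Lq.lattice ↔
    z ∈ Lq.lattice ∨ z - hh ∈ Lq.lattice ∨ z - 1 / 2 ∈ Lq.lattice ∨
      z - Complex.I / 2 ∈ Lq.lattice := by
  constructor
  · intro h
    obtain ⟨a, b, ha, hb⟩ := mem_Lq'.1 h
    have ha' : z.re = (a : ℝ) / 2 := by
      simp at ha
      linarith
    have hb' : z.im = (b : ℝ) / 2 := by
      simp at hb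
      linarith
    rcases Int.even_or_odd' a with ⟨c, hc | hc⟩ <;> rcases Int.even_or_odd' b with ⟨d, hd | hd⟩
    · left
      exact mem_Lq'.2 ⟨c, d, by rw [ha', hc]; push_cast; ring, by rw [hb', hd]; push_cast; ring⟩
    · right; right; right
      exact mem_Lq'.2 ⟨c, d, by simp [ha', hc],
        by simp [hb', hd]; ring⟩
    · right; right; left
      exact mem_Lq'.2 ⟨c, d, by simp [ha', hc]; ring,
        by simp [hb', hd]⟩
    · right; left
      exact mem_Lq'.2 ⟨c, d, by simp [ha', hc, hh]; ring,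
        by simp [hb', hd, hh]; ring⟩
  · have two_mem : ∀ {w : ℂ}, w ∈ Lq.lattice → 2 * w ∈ Lq.lattice := by
      intro w hw
      rw [two_mul]
      exact add_mem hw hw
    rintro (h | h | h | h)
    · exact two_mem h
    · have : 2 * z = 2 * (z - hh) + 2 * hh := by ring
      rw [this]
      exact add_mem (two_mem h) (mem_Lq.2 ⟨1, 1, by simp [hh]; ring⟩)
    · have : 2 * z = 2 * (z - 1 / 2) + 1 := by ring
      rw [this]
      exact add_mem (two_mem h) (mem_Lq.2 ⟨1, 0, by simp⟩)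
    · have : 2 * z = 2 * (z - Complex.I / 2) + Complex.I := by ring
      rw [this]
      exact add_mem (two_mem h) (mem_Lq.2 ⟨0, 1, by simp⟩)

/-- one half is not an integer -/
lemma half_ne (a : ℤ) : (1 / 2 : ℝ) ≠ a := by
  intro h
  have h2 : (1 : ℝ) = ((2 * a : ℤ) : ℝ) := by
    push_cast
    linarith
  have h3 : (1 : ℤ) = 2 * a := by exact_mod_cast h2
  omega

lemma neg_half_ne (a : ℤ) : (-(1 / 2) : ℝ) ≠ a := by
  intro h
  apply half_ne (-a)
  push_cast
  linarith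

lemma hh_not_mem : hh ∉ Lq.lattice := by
  intro h
  obtain ⟨a, b, ha, hb⟩ := mem_Lq'.1 h
  apply half_ne a
  rw [← ha]
  simp [hh]

lemma half_not_mem : (1 / 2 : ℂ) ∉ Lq.lattice := by
  intro h
  obtain ⟨a, b, ha, hb⟩ := mem_Lq'.1 h
  apply half_ne a
  rw [← ha]
  simp

lemma Ihalf_not_mem : (Complex.I / 2 : ℂ) ∉ Lq.lattice := by
  intro h
  obtain ⟨a, b, ha, hb⟩ := mem_Lq'.1 h
  apply half_ne b
  rw [← hb]
  simp

lemma half_sub_hh_not_mem : (1 / 2 - hh : ℂ) ∉ Lq.lattice := by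
  intro h
  obtain ⟨a, b, ha, hb⟩ := mem_Lq'.1 h
  apply neg_half_ne b
  rw [← hb]
  simp [hh]

lemma Ihalf_sub_hh_not_mem : (Complex.I / 2 - hh : ℂ) ∉ Lq.lattice := by
  intro h
  obtain ⟨a, b, ha, hb⟩ := mem_Lq'.1 h
  apply neg_half_ne a
  rw [← ha]
  simp [hh]

lemma half_sub_Ihalf_not_mem : (1 / 2 - Complex.I / 2 : ℂ) ∉ Lq.lattice := by
  intro h
  obtain ⟨a, b, ha, hb⟩ := mem_Lq'.1 h
  apply half_ne a
  rw [← ha]
  simp

end MP79ab39
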