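import Pool.Agent.Lib_MP_79ab39_ag.OdeUnique

/-!
# MP_79ab39_ag, piece B2: the second order equation of `℘` and injectivity of `(℘, ℘')`
-/

open Complex PeriodPair Filter Topology

namespace MP79ab39

/-- `℘'` does not vanish identically near any point -/
lemma order_derivP_ne_top (L : PeriodPair) (z : ℂ) : meromorphicOrderAt ℘'[L] z ≠ ⊤ := by
  have hm : MeromorphicOn ℘'[L] Set.univ := fun x _ => L.meromorphic_derivWeierstrassP x
  refine hm.meromorphicOrderAt_ne_top_of_isPreconnected (x := 0) isPreconnected_univ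
    (Set.mem_univ _) (Set.mem_univ _) ?_
  rw [order_derivP L (zero_mem _)]
  decide

theorem deriv_derivP (L : PeriodPair) {z : ℂ} (hz : z ∉ L.lattice) :
    deriv ℘'[L] z = 6 * ℘[L] z ^ 2 - L.g₂ / 2 := by
  have hopen : IsOpen ((L.lattice : Set ℂ)ᶜ) := L.isClosed_lattice.isOpen_compl
  set q : ℂ → ℂ := fun t => deriv ℘'[L] t - (6 * ℘[L] t ^ 2 - L.g₂ / 2) with hq
  have hqm : Meromorphic q := by
    have h1 : Meromorphic (deriv ℘'[L]) := fun x => (L.meromorphic_derivWeierstrassP x).deriv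
    have h2 : Meromorphic (fun t => 6 * ℘[L] t ^ 2 - L.g₂ / 2) := by fun_prop
    intro x
    exact (h1 x).sub (h2 x)
  have hprod : ∀ t, t ∉ L.lattice → ℘'[L] t * q t = 0 := by
    intro t ht
    have hP : HasDerivAt ℘[L] (℘'[L] t) t := by
      have h := (L.analyticOnNhd_weierstrassP t ht).differentiableAt.hasDerivAt
      rwa [L.deriv_weierstrassP] at h
    have hP' : HasDerivAt ℘'[L] (deriv ℘'[L] t) t :=
      (L.analyticOnNhd_derivWeierstrassP t ht).differentiableAt.hasDerivAt
    have h1 : HasDerivAt (fun s => ℘'[L] s ^ 2) (2 * ℘'[L] t * deriv ℘'[L] t) t := by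
      have h := hP'.fun_pow 2
      simpa using h
    have h2 : HasDerivAt (fun s => 4 * ℘[L] s ^ 3 - L.g₂ * ℘[L] s - L.g₃)
        (4 * (3 * ℘[L] t ^ 2 * ℘'[L] t) - L.g₂ * ℘'[L] t) t := by
      have h := (((hP.fun_pow 3).const_mul 4).fun_sub (hP.const_mul L.g₂)).sub_const L.g₃
      simpa using h
    have h3 : (fun s => ℘'[L] s ^ 2) =ᶠ[𝓝 t]
        fun s => 4 * ℘[L] s ^ 3 - L.g₂ * ℘[L] s - L.g₃ := by
      filter_upwards [hopen.mem_nhds ht] with s hs
      exact L.derivWeierstrassP_sq s hs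
    have h4 := h1.unique (h2.congr_of_eventuallyEq h3)
    simp only [hq]
    linear_combination h4 / 2
  have htop : meromorphicOrderAt (℘'[L] * q) z = ⊤ := by
    rw [meromorphicOrderAt_eq_top_iff]
    apply eventually_nhdsWithin_of_eventually_nhds
    filter_upwards [hopen.mem_nhds hz] with s hs
    exact hprod s hs
  rw [meromorphicOrderAt_mul (L.meromorphic_derivWeierstrassP z) (hqm z)] at htop
  have hqtop : meromorphicOrderAt q z = ⊤ := by
    rcases WithTop.add_eq_top.mp htop with h | h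
    · exact absurd h (order_derivP_ne_top L z)
    · exact h
  rw [meromorphicOrderAt_eq_top_iff] at hqtop
  have hqan : AnalyticAt ℂ q z := by
    have h1 := (L.analyticOnNhd_derivWeierstrassP z hz).deriv
    have h2 := L.analyticOnNhd_weierstrassP z hz
    exact h1.sub (by fun_prop)
  have hq0 : q z = 0 := by
    have h1 : Tendsto q (𝓝[≠] z) (𝓝 (q z)) := hqan.continuousAt.tendsto.mono_left nhdsWithin_le_nhds
    have h2 : Tendsto q (𝓝[≠] z) (𝓝 0) := tendsto_const_nhds.congr' (hqtop.mono fun x hx => hx.symm)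
    exact tendsto_nhds_unique h1 h2
  exact sub_eq_zero.mp hq0

theorem P_injective (L : PeriodPair) {z w : ℂ} (hz : z ∉ L.lattice) (hw : w ∉ L.lattice)
    (h0 : ℘[L] z = ℘[L] w) (h1 : ℘'[L] z = ℘'[L] w) : z - w ∈ L.lattice := by
  have hopen : IsOpen ((L.lattice : Set ℂ)ᶜ) := L.isClosed_lattice.isOpen_compl
  have hder : ∀ c : ℂ, deriv (fun t => ℘[L] (c + t)) = fun t => ℘'[L] (c + t) := by
    intro c
    funext t
    rw [deriv_comp_const_add, L.deriv_weierstrassP]
  have hfacts : ∀ c : ℂ, c ∉ L.lattice → AnalyticAt ℂ (fun t => ℘[L] (c + t)) 0 ∧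
      ∀ᶠ t in 𝓝 (0 : ℂ), deriv (deriv (fun t => ℘[L] (c + t))) t =
        6 * (fun t => ℘[L] (c + t)) t ^ 2 - L.g₂ / 2 := by
    intro c hc
    have hc' : c + 0 ∉ L.lattice := by rwa [add_zero]
    refine ⟨?_, ?_⟩
    · have h := L.analyticOnNhd_weierstrassP (c + 0) hc'
      exact h.comp (f := fun t => c + t) (by fun_prop)
    · have hcont : ContinuousAt (fun t : ℂ => c + t) 0 := by fun_prop
      have hev : ∀ᶠ t in 𝓝 (0 : ℂ), c + t ∈ ((L.lattice : Set ℂ)ᶜ) :=
        hcont.eventually_mem (hopen.mem_nhds hc')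
      filter_upwards [hev] with t ht
      rw [hder c, deriv_comp_const_add]
      exact deriv_derivP L ht
  obtain ⟨hfa, hf2⟩ := hfacts z hz
  obtain ⟨hga, hg2⟩ := hfacts w hw
  have heq : ∀ᶠ t in 𝓝 (0 : ℂ), ℘[L] (z + t) = ℘[L] (w + t) := by
    refine ode_unique hfa hga hf2 hg2 ?_ ?_
    · simpa using h0
    · rw [hder z, hder w]
      simpa using h1
  -- the difference of the two translates
  set D : ℂ → ℂ := fun t => ℘[L] (z + t) - ℘[L] (w + t) with hD
  have hmz : ∀ c : ℂ, Meromorphic (fun t => ℘[L] (c + t)) := by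
    intro c t
    have h : MeromorphicAt ℘[L] (c + t) := L.meromorphic_weierstrassP (c + t)
    have hg : AnalyticAt ℂ (fun t : ℂ => c + t) t := by fun_prop
    exact MeromorphicAt.comp_analyticAt (f := ℘[L]) (g := fun t : ℂ => c + t) h hg
  have hDm : Meromorphic D := fun t => (hmz z t).sub (hmz w t)
  have hDtop : meromorphicOrderAt D 0 = ⊤ := by
    rw [meromorphicOrderAt_eq_top_iff]
    apply eventually_nhdsWithin_of_eventually_nhds
    filter_upwards [heq] with t ht
    simp [hD, ht]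
  have hDtop' : meromorphicOrderAt D (-w) = ⊤ := by
    by_contra hne
    have hm : MeromorphicOn D Set.univ := fun x _ => hDm x
    exact (hm.meromorphicOrderAt_ne_top_of_isPreconnected (x := -w) isPreconnected_univ
      (Set.mem_univ _) (Set.mem_univ (0 : ℂ)) hne) hDtop
  rw [meromorphicOrderAt_eq_top_iff] at hDtop'
  by_contra hzw
  have hcong : (fun t => ℘[L] (t + w)) =ᶠ[𝓝[≠] (-w)] (fun t => ℘[L] (z + t)) := by
    filter_upwards [hDtop'] with t ht
    rw [add_comm t w]
    exact (sub_eq_zero.mp ht).symm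
  have ho1 : meromorphicOrderAt (fun t => ℘[L] (t + w)) (-w) = -2 := by
    rw [meromorphicOrderAt_fun_comp_add_const_eq_meromorphicOrderAt]
    exact L.order_weierstrassP _ (by simp)
  have hzw' : z + -w ∉ L.lattice := by rwa [← sub_eq_add_neg]
  have han : AnalyticAt ℂ (fun t => ℘[L] (z + t)) (-w) := by
    have h := L.analyticOnNhd_weierstrassP (z + -w) hzw'
    exact h.comp (f := fun t => z + t) (by fun_prop)
  have ho2 : 0 ≤ meromorphicOrderAt (fun t => ℘[L] (z + t)) (-w) := han.meromorphicOrderAt_nonneg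
  rw [← meromorphicOrderAt_congr hcong, ho1] at ho2
  exact absurd ho2 (by decide)

end MP79ab39
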