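import Pool.Agent.Lib_MP_79ab39_ag.Defs

/-!
# MP_79ab39_ag, piece B1: local uniqueness for `y'' = 6 y² - b`, order of `℘'` at a lattice point
-/

open Complex PeriodPair Filter Topology

namespace MP79ab39

/-- an analytic function with value `0` at `z₀` has order of vanishing different from `0` -/
lemma order_ne_zero_of_eq_zero {d : ℂ → ℂ} {z₀ : ℂ} (hd : AnalyticAt ℂ d z₀) (h0 : d z₀ = 0) :
    meromorphicOrderAt d z₀ ≠ 0 := by
  rw [hd.meromorphicOrderAt_eq]
  intro h
  have h1 : analyticOrderAt d z₀ = 0 := by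
    cases hn : analyticOrderAt d z₀ with
    | top => rw [hn] at h; simp at h
    | coe n =>
      rw [hn] at h
      simp only [ENat.map_natCast] at h
      norm_cast at h ⊢
  rw [hd.analyticOrderAt_eq_zero] at h1
  exact h1 h0

theorem ode_unique {f g : ℂ → ℂ} {z₀ b : ℂ} (hf : AnalyticAt ℂ f z₀) (hg : AnalyticAt ℂ g z₀)
    (hf2 : ∀ᶠ z in 𝓝 z₀, deriv (deriv f) z = 6 * f z ^ 2 - b)
    (hg2 : ∀ᶠ z in 𝓝 z₀, deriv (deriv g) z = 6 * g z ^ 2 - b)
    (h0 : f z₀ = g z₀) (h1 : deriv f z₀ = deriv g z₀) : ∀ᶠ z in 𝓝 z₀, f z = g z := by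
  set d : ℂ → ℂ := fun z => f z - g z with hd
  have hda : AnalyticAt ℂ d z₀ := hf.sub hg
  have hfa := hf.eventually_analyticAt
  have hga := hg.eventually_analyticAt
  have hd1 : ∀ᶠ z in 𝓝 z₀, deriv d z = deriv f z - deriv g z := by
    filter_upwards [hfa, hga] with z hfz hgz
    exact deriv_sub hfz.differentiableAt hgz.differentiableAt
  have hd2 : ∀ᶠ z in 𝓝 z₀, deriv (deriv d) z = (6 * (f z + g z)) * d z := by
    have hd1' := hd1.eventually_nhds
    filter_upwards [hfa, hga, hf2, hg2, hd1'] with z hfz hgz h2 h3 h4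
    have h5 : deriv (deriv d) z = deriv (fun z => deriv f z - deriv g z) z :=
      Filter.EventuallyEq.deriv_eq h4
    rw [h5, deriv_fun_sub hfz.deriv.differentiableAt hgz.deriv.differentiableAt, h2, h3, hd]
    ring
  by_contra hne
  -- the order of vanishing of `d`
  have hdt : meromorphicOrderAt d z₀ ≠ ⊤ := by
    intro ht
    rw [meromorphicOrderAt_eq_top_iff] at ht
    apply hne
    have h6 : ∀ᶠ z in 𝓝 z₀, d z = 0 := by
      rw [eventually_nhdsWithin_iff] at ht
      filter_upwards [ht] with z hz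
      rcases eq_or_ne z z₀ with rfl | hzz
      · simp [hd, h0]
      · exact hz hzz
    filter_upwards [h6] with z hz
    exact sub_eq_zero.mp hz
  obtain ⟨n, hn⟩ := WithTop.ne_top_iff_exists.mp hdt
  have hn' : meromorphicOrderAt d z₀ = (n : WithTop ℤ) := hn.symm
  have hn0 : n ≠ 0 := by
    rintro rfl
    exact order_ne_zero_of_eq_zero hda (by simp [hd, h0]) (by simpa using hn')
  have hn1 : meromorphicOrderAt (deriv d) z₀ = ((n - 1 : ℤ) : WithTop ℤ) :=
    meromorphicOrderAt_deriv_eq_sub_one (by exact_mod_cast hn0) hn'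
  have hn10 : n - 1 ≠ 0 := by
    intro h
    apply order_ne_zero_of_eq_zero hda.deriv (by rw [hd1.self_of_nhds, h1, sub_self])
    rw [hn1, h]
    rfl
  have hn2 : meromorphicOrderAt (deriv (deriv d)) z₀ = ((n - 1 - 1 : ℤ) : WithTop ℤ) :=
    meromorphicOrderAt_deriv_eq_sub_one (by exact_mod_cast hn10) hn1
  have hprod : meromorphicOrderAt (deriv (deriv d)) z₀ =
      meromorphicOrderAt (fun z => 6 * (f z + g z)) z₀ + meromorphicOrderAt d z₀ := by
    have hs : AnalyticAt ℂ (fun z => 6 * (f z + g z)) z₀ := by fun_prop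
    rw [← meromorphicOrderAt_mul hs.meromorphicAt hda.meromorphicAt]
    apply meromorphicOrderAt_congr
    exact (hd2.filter_mono nhdsWithin_le_nhds)
  have hs0 : 0 ≤ meromorphicOrderAt (fun z => 6 * (f z + g z)) z₀ := by
    have hs : AnalyticAt ℂ (fun z => 6 * (f z + g z)) z₀ := by fun_prop
    exact hs.meromorphicOrderAt_nonneg
  rw [hn2, hn'] at hprod
  have h7 : ((n : ℤ) : WithTop ℤ) ≤ ((n - 1 - 1 : ℤ) : WithTop ℤ) := by
    rw [hprod]
    calc ((n : ℤ) : WithTop ℤ) = 0 + n := (zero_add _).symm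
      _ ≤ _ := by gcongr
  have h8 : n ≤ n - 1 - 1 := by exact_mod_cast h7
  omega

theorem order_derivP (L : PeriodPair) {z : ℂ} (hz : z ∈ L.lattice) :
    meromorphicOrderAt ℘'[L] z = -3 := by
  have h := L.order_weierstrassP z hz
  have h2 : meromorphicOrderAt ℘[L] z = ((-2 : ℤ) : WithTop ℤ) := by
    rw [h]; rfl
  have h3 := meromorphicOrderAt_deriv_eq_sub_one (by norm_num) h2
  rw [L.deriv_weierstrassP] at h3
  rw [h3]
  rfl

end MP79ab39
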