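import Pool.Agent.Lib_MP_79ab39_ag.Basic
import Pool.Agent.Lib_MP_79ab39_ag.Lat
import Pool.Agent.Lib_MP_79ab39_ag.OdeUnique
import Pool.Agent.Lib_MP_79ab39_ag.Ode

/-! Values of the Weierstrass function of the Gaussian lattice at the half periods, and the
translation by the half period `h`. -/

open Complex PeriodPair Filter Topology

namespace MP79ab39

/-! ## Values at the half periods, translation by `h` -/

lemma P_add_mem {l : ℂ} (hl : l ∈ Lq.lattice) (z : ℂ) : ℘[Lq] (z + l) = ℘[Lq] z :=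
  Lq.weierstrassP_add_coe z ⟨l, hl⟩

lemma dP_add_mem {l : ℂ} (hl : l ∈ Lq.lattice) (z : ℂ) : ℘'[Lq] (z + l) = ℘'[Lq] z :=
  Lq.derivWeierstrassP_add_coe z ⟨l, hl⟩

lemma P_of_mem {l : ℂ} (hl : l ∈ Lq.lattice) : ℘[Lq] l = 0 := Lq.weierstrassP_coe ⟨l, hl⟩

lemma dP_of_mem {l : ℂ} (hl : l ∈ Lq.lattice) : ℘'[Lq] l = 0 := Lq.derivWeierstrassP_coe ⟨l, hl⟩

lemma P_eq_of_sub_mem {z w : ℂ} (h : z - w ∈ Lq.lattice) : ℘[Lq] z = ℘[Lq] w := by
  have := P_add_mem h w
  rw [← this]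
  congr 1
  ring

lemma dP_eq_of_sub_mem {z w : ℂ} (h : z - w ∈ Lq.lattice) : ℘'[Lq] z = ℘'[Lq] w := by
  have := dP_add_mem h w
  rw [← this]
  congr 1
  ring

lemma one_mem_Lq : (1 : ℂ) ∈ Lq.lattice := mem_Lq.2 ⟨1, 0, by simp⟩

lemma two_hh_mem : 2 * hh ∈ Lq.lattice := mem_Lq.2 ⟨1, 1, by simp [hh]; ring⟩

lemma P_hh : ℘[Lq] hh = 0 := by
  have h1 := P_mul_I hh
  have h2 : ℘[Lq] (Complex.I * hh) = ℘[Lq] hh := by
    apply P_eq_of_sub_mem
    have : Complex.I * hh - hh = -1 := by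
      unfold hh
      linear_combination (1 / 2 : ℂ) * Complex.I_mul_I
    rw [this]
    exact neg_mem one_mem_Lq
  rw [h2] at h1
  exact self_eq_neg.1 h1

lemma dP_half {z : ℂ} (hz : 2 * z ∈ Lq.lattice) : ℘'[Lq] z = 0 := by
  have h1 : ℘'[Lq] z = ℘'[Lq] (-z) := by
    apply dP_eq_of_sub_mem
    have : z - -z = 2 * z := by ring
    rwa [this]
  rw [Lq.derivWeierstrassP_neg] at h1
  exact self_eq_neg.1 h1

lemma P_eq_zero_iff {z : ℂ} : ℘[Lq] z = 0 ↔ z ∈ Lq.lattice ∨ z - hh ∈ Lq.lattice := by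
  constructor
  · intro h
    by_cases hz : z ∈ Lq.lattice
    · exact Or.inl hz
    · right
      have h1 := Lq.derivWeierstrassP_sq z hz
      rw [h, g3_Lq] at h1
      have h2 : ℘'[Lq] z = 0 := by
        apply pow_eq_zero_iff (n := 2) (by norm_num) |>.1
        rw [h1]
        ring
      exact P_injective Lq hz hh_not_mem (by rw [h, P_hh]) (by rw [h2, dP_half two_hh_mem])
  · rintro (h | h)
    · exact P_of_mem h
    · rw [P_eq_of_sub_mem h, P_hh]

lemma ee_ne_zero : ee ≠ 0 := by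
  intro h
  rcases P_eq_zero_iff.1 h with h | h
  · exact half_not_mem h
  · exact half_sub_hh_not_mem h

lemma g2_Lq : Lq.g₂ = 4 * ee ^ 2 := by
  have h1 := Lq.derivWeierstrassP_sq (1 / 2) half_not_mem
  have h2 : ℘'[Lq] (1 / 2) = 0 := by
    apply dP_half
    have : (2 : ℂ) * (1 / 2) = 1 := by norm_num
    rw [this]
    exact one_mem_Lq
  have h3 : ℘[Lq] (1 / 2) = ee := rfl
  rw [h2, h3, g3_Lq] at h1
  have h4 := ee_ne_zero
  apply mul_right_cancel₀ h4
  linear_combination h1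

lemma P_Ihalf : ℘[Lq] (Complex.I / 2) = - ee := by
  have h : Complex.I / 2 = Complex.I * (1 / 2) := by ring
  rw [h, P_mul_I]
  rfl

/-- the differential equation, `℘'² = 4 ℘³ - 4 e² ℘` (true also at the lattice points, with
the values of Lean) -/
lemma dP_sq (z : ℂ) : ℘'[Lq] z ^ 2 = 4 * ℘[Lq] z ^ 3 - 4 * ee ^ 2 * ℘[Lq] z := by
  by_cases hz : z ∈ Lq.lattice
  · rw [P_of_mem hz, dP_of_mem hz]
    ring
  · rw [Lq.derivWeierstrassP_sq z hz, g2_Lq, g3_Lq]
    ring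

lemma dP_eq_zero_iff {z : ℂ} : ℘'[Lq] z = 0 ↔ 2 * z ∈ Lq.lattice := by
  constructor
  · intro h
    by_cases hz : z ∈ Lq.lattice
    · rw [two_mul]
      exact add_mem hz hz
    · have h1 := P_injective Lq (z := z) (w := -z) hz (fun h => hz (by simpa using neg_mem h))
        (by rw [Lq.weierstrassP_neg]) (by rw [Lq.derivWeierstrassP_neg, h, neg_zero])
      have : z - -z = 2 * z := by ring
      rwa [this] at h1
  · exact dP_half

/-- the set where both sides of the translation formula are analytic -/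
def Uset : Set ℂ := {z | z ∉ Lq.lattice ∧ z - hh ∉ Lq.lattice}

lemma countable_lattice : (Lq.lattice : Set ℂ).Countable := by
  have : Countable Lq.lattice := by
    have := Lq.latticeEquivProd.toEquiv.countable_iff
    rw [this]
    infer_instance
  exact Set.to_countable _

lemma Uset_compl : Usetᶜ = (Lq.lattice : Set ℂ) ∪ (fun z => z - hh) ⁻¹' (Lq.lattice : Set ℂ) := by
  ext z
  simp only [Uset, Set.mem_compl_iff, Set.mem_ofPred_eq, Set.mem_union, Set.mem_preimage,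
    SetLike.mem_coe]
  tauto

lemma Uset_compl_countable : Usetᶜ.Countable := by
  rw [Uset_compl]
  apply countable_lattice.union
  exact countable_lattice.preimage (sub_left_injective)

lemma isPreconnected_Uset : IsPreconnected Uset := by
  have h := (Uset_compl_countable).isPathConnected_compl_of_one_lt_rank
    (E := ℂ) (by rw [Complex.rank_real_complex]; exact Nat.one_lt_ofNat)
  rw [compl_compl] at h
  exact h.isConnected.isPreconnected

lemma isOpen_Uset : IsOpen Uset := by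
  have : IsClosed Usetᶜ := by
    rw [Uset_compl]
    apply IsClosed.union Lq.isClosed_lattice
    exact Lq.isClosed_lattice.preimage (continuous_id.sub continuous_const)
  simpa using this.isOpen_compl

lemma add_hh_mem_iff {z : ℂ} : z + hh ∈ Lq.lattice ↔ z - hh ∈ Lq.lattice := by
  have : z + hh = (z - hh) + 2 * hh := by ring
  rw [this]
  exact Submodule.add_mem_iff_left _ two_hh_mem

lemma P_ne_zero_of_Uset {z : ℂ} (hz : z ∈ Uset) : ℘[Lq] z ≠ 0 := by
  rw [Ne, P_eq_zero_iff, not_or]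
  exact hz

lemma analyticAt_P {z : ℂ} (hz : z ∉ Lq.lattice) : AnalyticAt ℂ ℘[Lq] z :=
  Lq.analyticOnNhd_weierstrassP z hz

lemma analyticAt_dP {z : ℂ} (hz : z ∉ Lq.lattice) : AnalyticAt ℂ ℘'[Lq] z :=
  Lq.analyticOnNhd_derivWeierstrassP z hz

lemma hasDerivAt_P {z : ℂ} (hz : z ∉ Lq.lattice) : HasDerivAt ℘[Lq] (℘'[Lq] z) z := by
  have := (analyticAt_P hz).differentiableAt.hasDerivAt
  rwa [Lq.deriv_weierstrassP] at this

lemma hasDerivAt_dP {z : ℂ} (hz : z ∉ Lq.lattice) :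
    HasDerivAt ℘'[Lq] (6 * ℘[Lq] z ^ 2 - 2 * ee ^ 2) z := by
  have := (analyticAt_dP hz).differentiableAt.hasDerivAt
  have e : 6 * ℘[Lq] z ^ 2 - 4 * ee ^ 2 / 2 = 6 * ℘[Lq] z ^ 2 - 2 * ee ^ 2 := by ring
  rwa [deriv_derivP Lq hz, g2_Lq, e] at this

/-- the translate `℘(z + h)` -/
lemma hasDerivAt_shift {z : ℂ} (hz : z ∈ Uset) :
    HasDerivAt (fun z => ℘[Lq] (z + hh)) (℘'[Lq] (z + hh)) z := by
  have h1 : z + hh ∉ Lq.lattice := fun h => hz.2 (add_hh_mem_iff.1 h)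
  exact (hasDerivAt_P h1).comp_add_const z hh

lemma hasDerivAt_quot {z : ℂ} (hz : z ∈ Uset) :
    HasDerivAt (fun z => - ee ^ 2 / ℘[Lq] z) (ee ^ 2 * ℘'[Lq] z / ℘[Lq] z ^ 2) z := by
  have h0 := P_ne_zero_of_Uset hz
  have h := (hasDerivAt_const z (- ee ^ 2)).div (hasDerivAt_P hz.1) h0
  have e : (0 * ℘[Lq] z - (-ee ^ 2) * ℘'[Lq] z) / ℘[Lq] z ^ 2 =
      ee ^ 2 * ℘'[Lq] z / ℘[Lq] z ^ 2 := by ring
  rw [e] at h
  exact h

lemma eventually_Uset {z : ℂ} (hz : z ∈ Uset) : ∀ᶠ w in 𝓝 z, w ∈ Uset :=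
  isOpen_Uset.mem_nhds hz

lemma deriv2_shift {z : ℂ} (hz : z ∈ Uset) :
    deriv (deriv (fun z => ℘[Lq] (z + hh))) z = 6 * ℘[Lq] (z + hh) ^ 2 - 2 * ee ^ 2 := by
  have h1 : z + hh ∉ Lq.lattice := fun h => hz.2 (add_hh_mem_iff.1 h)
  have h2 : deriv (fun z => ℘[Lq] (z + hh)) =ᶠ[𝓝 z] fun z => ℘'[Lq] (z + hh) := by
    filter_upwards [eventually_Uset hz] with w hw
    exact (hasDerivAt_shift hw).deriv
  rw [h2.deriv_eq]
  exact ((hasDerivAt_dP h1).comp_add_const z hh).deriv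

lemma deriv2_quot {z : ℂ} (hz : z ∈ Uset) :
    deriv (deriv (fun z => - ee ^ 2 / ℘[Lq] z)) z = 6 * (- ee ^ 2 / ℘[Lq] z) ^ 2 - 2 * ee ^ 2 := by
  have h0 := P_ne_zero_of_Uset hz
  have h2 : deriv (fun z => - ee ^ 2 / ℘[Lq] z) =ᶠ[𝓝 z]
      fun z => ee ^ 2 * ℘'[Lq] z / ℘[Lq] z ^ 2 := by
    filter_upwards [eventually_Uset hz] with w hw
    exact (hasDerivAt_quot hw).deriv
  rw [h2.deriv_eq]
  have h3 := ((hasDerivAt_dP hz.1).const_mul (ee ^ 2)).div ((hasDerivAt_P hz.1).pow 2)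
    (pow_ne_zero 2 h0)
  have h4 := h3.deriv
  have h5 : deriv (fun z => ee ^ 2 * ℘'[Lq] z / ℘[Lq] z ^ 2) z = _ := h4
  rw [h5]
  simp only [Pi.pow_apply]
  have h6 := dP_sq z
  field_simp
  push_cast
  linear_combination (-2 * ee ^ 2 * ℘[Lq] z) * h6

lemma half_mem_Uset : (1 / 2 : ℂ) ∈ Uset := ⟨half_not_mem, half_sub_hh_not_mem⟩

lemma analyticAt_shift {z : ℂ} (hz : z ∈ Uset) : AnalyticAt ℂ (fun z => ℘[Lq] (z + hh)) z := by
  have h1 : z + hh ∉ Lq.lattice := fun h => hz.2 (add_hh_mem_iff.1 h)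
  exact (analyticAt_P h1).fun_comp (f := fun z => z + hh) (analyticAt_id.add analyticAt_const)

lemma analyticAt_quot {z : ℂ} (hz : z ∈ Uset) : AnalyticAt ℂ (fun z => - ee ^ 2 / ℘[Lq] z) z :=
  analyticAt_const.div (analyticAt_P hz.1) (P_ne_zero_of_Uset hz)

lemma P_add_hh_of_Uset {z : ℂ} (hz : z ∈ Uset) : ℘[Lq] (z + hh) = - ee ^ 2 / ℘[Lq] z := by
  have h1 : (fun z => ℘[Lq] (z + hh)) =ᶠ[𝓝 (1 / 2 : ℂ)] fun z => - ee ^ 2 / ℘[Lq] z := by
    have hm : (1 / 2 + hh) - Complex.I / 2 ∈ Lq.lattice :=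
      mem_Lq.2 ⟨1, 0, by simp [hh]; ring⟩
    have hm1 : 2 * (1 / 2 + hh) ∈ Lq.lattice := mem_Lq.2 ⟨2, 1, by simp [hh]; ring⟩
    have hm2 : 2 * (1 / 2 : ℂ) ∈ Lq.lattice := mem_Lq.2 ⟨1, 0, by simp⟩
    have he : ℘[Lq] (1 / 2) = ee := rfl
    apply ode_unique (b := 2 * ee ^ 2) (analyticAt_shift half_mem_Uset)
      (analyticAt_quot half_mem_Uset)
    · filter_upwards [eventually_Uset half_mem_Uset] with w hw
      exact deriv2_shift hw
    · filter_upwards [eventually_Uset half_mem_Uset] with w hw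
      exact deriv2_quot hw
    · rw [P_eq_of_sub_mem hm, P_Ihalf, he]
      have := ee_ne_zero
      field_simp
    · rw [(hasDerivAt_shift half_mem_Uset).deriv, (hasDerivAt_quot half_mem_Uset).deriv,
        dP_half hm1, dP_half hm2]
      simp
  have h2 : AnalyticOnNhd ℂ (fun z => ℘[Lq] (z + hh)) Uset := fun w hw => analyticAt_shift hw
  have h3 : AnalyticOnNhd ℂ (fun z => - ee ^ 2 / ℘[Lq] z) Uset := fun w hw => analyticAt_quot hw
  exact h2.eqOn_of_preconnected_of_eventuallyEq h3 isPreconnected_Uset half_mem_Uset h1 hz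

/-- translation by `h` (true for every `z`, with the values of Lean at the poles) -/
lemma P_add_hh (z : ℂ) : ℘[Lq] (z + hh) = - ee ^ 2 / ℘[Lq] z := by
  by_cases hz : z ∈ Uset
  · exact P_add_hh_of_Uset hz
  · have h0 : z ∈ Lq.lattice ∨ z - hh ∈ Lq.lattice := by
      simp only [Uset, Set.mem_ofPred_eq] at hz
      tauto
    have h1 : ℘[Lq] z = 0 := P_eq_zero_iff.2 h0
    have h2 : ℘[Lq] (z + hh) = 0 := by
      rw [P_eq_zero_iff, add_hh_mem_iff]
      rcases h0 with h0 | h0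
      · right
        simpa using h0
      · left
        exact h0
    rw [h1, h2, div_zero]

lemma dP_add_hh (z : ℂ) : ℘'[Lq] (z + hh) = ee ^ 2 * ℘'[Lq] z / ℘[Lq] z ^ 2 := by
  by_cases hz : z ∈ Uset
  · rw [← (hasDerivAt_shift hz).deriv, ← (hasDerivAt_quot hz).deriv]
    congr 1
    funext w
    exact P_add_hh w
  · have h0 : z ∈ Lq.lattice ∨ z - hh ∈ Lq.lattice := by
      simp only [Uset, Set.mem_ofPred_eq] at hz
      tauto
    have h1 : ℘[Lq] z = 0 := P_eq_zero_iff.2 h0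
    have h2 : ℘'[Lq] (z + hh) = 0 := by
      apply dP_half
      have h3 : 2 * z ∈ Lq.lattice := by
        rcases h0 with h0 | h0
        · rw [two_mul]
          exact add_mem h0 h0
        · have : 2 * z = (z - hh) + (z - hh) + 2 * hh := by ring
          rw [this]
          exact add_mem (add_mem h0 h0) two_hh_mem
      have : 2 * (z + hh) = 2 * z + 2 * hh := by ring
      rw [this]
      exact add_mem h3 two_hh_mem
    rw [h1, h2]
    simp

end MP79ab39
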