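import Pool.Agent.Lib_MP_79ab39_ag.Lat
import Pool.Agent.Lib_MP_79ab39_ag.Ode
import Pool.Agent.Lib_MP_79ab39_ag.OdeUnique
import Pool.Agent.Lib_MP_79ab39_ag.Half

/-! All basic facts on the function `W`. -/

open Complex PeriodPair Filter Topology

namespace MP79ab39

lemma cc_ne_zero : cc ≠ 0 := by
  intro h
  apply ee_ne_zero
  rw [← cc_sq, h]; simp

lemma Wf_meromorphic : Meromorphic Wf := by
  intro x
  have h1 := Lq.meromorphic_weierstrassP x
  have h2 := Lq.meromorphic_derivWeierstrassP x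
  unfold Wf
  fun_prop

lemma Xf_meromorphic : Meromorphic Xf := by
  intro x
  have h1 := Lq.meromorphic_weierstrassP x
  unfold Xf
  fun_prop

lemma Wf_periodic {l : ℂ} (hl : l ∈ Lq.lattice) (z : ℂ) : Wf (z + l) = Wf z := by
  unfold Wf
  have h1 := Lq.weierstrassP_add_coe z ⟨l, hl⟩
  have h2 := Lq.derivWeierstrassP_add_coe z ⟨l, hl⟩
  simp only at h1 h2
  rw [h1, h2]

lemma Xf_periodic {l : ℂ} (hl : l ∈ Lq.lattice) (z : ℂ) : Xf (z + l) = Xf z := by
  unfold Xf
  have h1 := Lq.weierstrassP_add_coe z ⟨l, hl⟩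
  simp only at h1
  rw [h1]

lemma Wf_neg (z : ℂ) : Wf (-z) = - Wf z := by
  unfold Wf
  rw [weierstrassP_neg, derivWeierstrassP_neg, neg_div]

lemma Wf_mul_I (z : ℂ) : Wf (Complex.I * z) = - Complex.I * Wf z := by
  unfold Wf
  rw [P_mul_I, dP_mul_I, mul_neg, div_neg]
  ring

lemma Wf_add_hh (z : ℂ) : Wf (z + hh) = - Wf z := by
  unfold Wf
  rw [P_add_hh, dP_add_hh]
  have hc := cc_ne_zero
  have he := ee_ne_zero
  by_cases h : ℘[Lq] z = 0
  · simp [h]
  · field_simp

/-- `W² X = X² - 1` off the zeros and poles of `℘` -/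
lemma Wf_sq_mul_Xf {z : ℂ} (hz : z ∉ Lq.lattice) (hz' : z - hh ∉ Lq.lattice) :
    Wf z ^ 2 * Xf z = Xf z ^ 2 - 1 := by
  have hP : ℘[Lq] z ≠ 0 := by
    intro h
    rcases P_eq_zero_iff.mp h with h1 | h1
    · exact hz h1
    · exact hz' h1
  have hc := cc_ne_zero
  have he := ee_ne_zero
  unfold Wf Xf
  have h := dP_sq z
  have hcs := cc_sq
  rw [div_pow, h, mul_pow, mul_pow, hcs]
  field_simp
  ring

lemma Wf_analyticAt {z : ℂ} (hz : z ∉ Lq.lattice) (hz' : z - hh ∉ Lq.lattice) :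
    AnalyticAt ℂ Wf z := by
  have hP : ℘[Lq] z ≠ 0 := by
    intro h
    rcases P_eq_zero_iff.mp h with h1 | h1
    · exact hz h1
    · exact hz' h1
  have h1 := Lq.analyticOnNhd_weierstrassP z hz
  have h2 := Lq.analyticOnNhd_derivWeierstrassP z hz
  have hc := cc_ne_zero
  unfold Wf
  refine h2.div (analyticAt_const.mul h1) ?_
  exact mul_ne_zero (mul_ne_zero two_ne_zero hc) hP

lemma Xf_analyticAt {z : ℂ} (hz : z ∉ Lq.lattice) : AnalyticAt ℂ Xf z := by
  have h1 := Lq.analyticOnNhd_weierstrassP z hz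
  unfold Xf
  exact h1.div analyticAt_const ee_ne_zero

/-- `W z = 0` (with the values of Lean) exactly at the points of order two -/
lemma Wf_eq_zero_iff {z : ℂ} : Wf z = 0 ↔ 2 * z ∈ Lq.lattice := by
  have hc := cc_ne_zero
  unfold Wf
  rw [div_eq_zero_iff, dP_eq_zero_iff]
  constructor
  · rintro (h | h)
    · exact h
    · have hP : ℘[Lq] z = 0 := by
        rcases mul_eq_zero.mp h with h1 | h1
        · exact absurd h1 (mul_ne_zero two_ne_zero hc)
        · exact h1
      rw [two_mul_mem]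
      rcases P_eq_zero_iff.mp hP with h1 | h1
      · exact Or.inl h1
      · exact Or.inr (Or.inl h1)
  · exact Or.inl

/-- `W' = c (X + 1/X)` -/
lemma deriv_Wf {z : ℂ} (hz : z ∉ Lq.lattice) (hz' : z - hh ∉ Lq.lattice) :
    deriv Wf z = cc * (Xf z + 1 / Xf z) := by
  have hP : ℘[Lq] z ≠ 0 := by
    intro h
    rcases P_eq_zero_iff.mp h with h1 | h1
    · exact hz h1
    · exact hz' h1
  have hc := cc_ne_zero
  have he := ee_ne_zero
  have h1 : HasDerivAt ℘[Lq] (℘'[Lq] z) z := by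
    have := (Lq.analyticOnNhd_weierstrassP z hz).differentiableAt.hasDerivAt
    rwa [deriv_weierstrassP] at this
  have h2 : HasDerivAt ℘'[Lq] (6 * ℘[Lq] z ^ 2 - Lq.g₂ / 2) z := by
    have := (Lq.analyticOnNhd_derivWeierstrassP z hz).differentiableAt.hasDerivAt
    rwa [deriv_derivP Lq hz] at this
  have h3 := h2.div (h1.const_mul (2 * cc)) (mul_ne_zero (mul_ne_zero two_ne_zero hc) hP)
  have h4 : deriv Wf z = ((6 * ℘[Lq] z ^ 2 - Lq.g₂ / 2) * (2 * cc * ℘[Lq] z) -
      ℘'[Lq] z * (2 * cc * ℘'[Lq] z)) / (2 * cc * ℘[Lq] z) ^ 2 := h3.deriv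
  have hsq := dP_sq z
  rw [h4, g2_Lq]
  have e1 : ℘'[Lq] z * (2 * cc * ℘'[Lq] z) = 2 * cc * ℘'[Lq] z ^ 2 := by ring
  rw [e1, hsq]
  unfold Xf
  rw [← cc_sq]
  field_simp
  ring

lemma Wf_order_shift (z : ℂ) : meromorphicOrderAt Wf z = meromorphicOrderAt Wf (z - hh) := by
  have h1 : Wf = -(Wf ∘ fun w => w - hh) := by
    funext w
    have := Wf_add_hh (w - hh)
    rw [sub_add_cancel] at this
    simpa using this
  have hg : AnalyticAt ℂ (fun w : ℂ => w - hh) z := by fun_prop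
  have hg' : deriv (fun w : ℂ => w - hh) z ≠ 0 := by simp
  have h2 := meromorphicOrderAt_comp_of_deriv_ne_zero (f := Wf) hg hg'
  calc meromorphicOrderAt Wf z = meromorphicOrderAt (-(Wf ∘ fun w => w - hh)) z := by rw [← h1]
    _ = meromorphicOrderAt (Wf ∘ fun w => w - hh) z := by rw [← meromorphicOrderAt_neg]
    _ = meromorphicOrderAt Wf (z - hh) := h2

lemma order_Wf_pole {z : ℂ} (hz : z ∈ Lq.lattice ∨ z - hh ∈ Lq.lattice) :
    meromorphicOrderAt Wf z = -1 := by
  have key : ∀ w ∈ Lq.lattice, meromorphicOrderAt Wf w = -1 := by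
    intro w hw
    have hc := cc_ne_zero
    have h1 : meromorphicOrderAt ℘[Lq] w ≠ 0 := by
      rw [Lq.order_weierstrassP w hw]; decide
    have h2 : meromorphicOrderAt ℘[Lq] w ≠ ⊤ := by
      rw [Lq.order_weierstrassP w hw]; decide
    have h3 := meromorphicOrderAt_logDeriv_eq_neg_one (Lq.meromorphic_weierstrassP w) h1 h2
    have h4 : Wf = (fun _ => (2 * cc)⁻¹) * logDeriv ℘[Lq] := by
      funext t
      simp only [Pi.mul_apply, logDeriv, Pi.div_apply, deriv_weierstrassP]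
      unfold Wf
      rw [div_mul_eq_div_div, div_eq_mul_inv (℘'[Lq] t) (2 * cc)]
      ring
    have hm : MeromorphicAt (logDeriv ℘[Lq]) w := by
      have ha := Lq.meromorphic_weierstrassP w
      have hb := Lq.meromorphic_derivWeierstrassP w
      have : logDeriv ℘[Lq] = ℘'[Lq] / ℘[Lq] := by
        rw [logDeriv, deriv_weierstrassP]
      rw [this]
      exact hb.div ha
    classical
    rw [h4, meromorphicOrderAt_mul (by fun_prop) hm, h3, meromorphicOrderAt_const,
      if_neg (inv_ne_zero (mul_ne_zero two_ne_zero hc)), zero_add]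
  rcases hz with h | h
  · exact key z h
  · rw [Wf_order_shift]; exact key _ h

lemma P_half_class {z : ℂ} (hz : z - 1 / 2 ∈ Lq.lattice ∨ z - Complex.I / 2 ∈ Lq.lattice) :
    z ∉ Lq.lattice ∧ z - hh ∉ Lq.lattice ∧ (Xf z = 1 ∨ Xf z = -1) := by
  have he := ee_ne_zero
  rcases hz with h | h
  · refine ⟨fun h1 => half_not_mem ?_, fun h1 => half_sub_hh_not_mem ?_, Or.inl ?_⟩
    · have := sub_mem h1 h
      simpa using this
    · have := sub_mem h1 h
      have e : z - hh - (z - 1 / 2) = 1 / 2 - hh := by ring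
      rwa [e] at this
    · have := Xf_periodic h (1 / 2)
      have e : 1 / 2 + (z - 1 / 2) = z := by ring
      rw [e] at this
      rw [this, Xf, ← ee, div_self he]
  · refine ⟨fun h1 => Ihalf_not_mem ?_, fun h1 => Ihalf_sub_hh_not_mem ?_, Or.inr ?_⟩
    · have := sub_mem h1 h
      simpa using this
    · have := sub_mem h1 h
      have e : z - hh - (z - Complex.I / 2) = Complex.I / 2 - hh := by ring
      rwa [e] at this
    · have := Xf_periodic h (Complex.I / 2)
      have e : Complex.I / 2 + (z - Complex.I / 2) = z := by ring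
      rw [e] at this
      rw [this, Xf, P_Ihalf, neg_div, div_self he]

lemma order_Wf_zero {z : ℂ} (hz : z - 1 / 2 ∈ Lq.lattice ∨ z - Complex.I / 2 ∈ Lq.lattice) :
    meromorphicOrderAt Wf z = 1 := by
  obtain ⟨h1, h2, h3⟩ := P_half_class hz
  have hana := Wf_analyticAt h1 h2
  have h0 : Wf z = 0 := by
    rw [Wf_eq_zero_iff, two_mul_mem]
    rcases hz with h | h
    · exact Or.inr (Or.inr (Or.inl h))
    · exact Or.inr (Or.inr (Or.inr h))
  have hd : deriv Wf z ≠ 0 := by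
    rw [deriv_Wf h1 h2]
    refine mul_ne_zero cc_ne_zero ?_
    rcases h3 with h | h <;> rw [h] <;> norm_num
  have h5 := hana.analyticOrderAt_sub_eq_one_of_deriv_ne_zero hd
  rw [hana.meromorphicOrderAt_eq]
  have h6 : (fun w => Wf w - Wf z) = Wf := by
    funext w; rw [h0, sub_zero]
  rw [h6] at h5
  rw [h5]
  rfl

lemma order_Wf_other {z : ℂ} (hz : 2 * z ∉ Lq.lattice) : meromorphicOrderAt Wf z = 0 := by
  have h1 : z ∉ Lq.lattice := fun h => hz (two_mul_mem.mpr (Or.inl h))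
  have h2 : z - hh ∉ Lq.lattice := fun h => hz (two_mul_mem.mpr (Or.inr (Or.inl h)))
  have hana := Wf_analyticAt h1 h2
  have h0 : Wf z ≠ 0 := fun h => hz (Wf_eq_zero_iff.mp h)
  rw [hana.meromorphicOrderAt_eq, hana.analyticOrderAt_eq_zero.mpr h0]
  rfl

end MP79ab39
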