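import Pool.Agent.Lib_MP_79ab39_ag.Half
import Pool.Agent.Lib_MP_79ab39_ag.WBasic

/-! When the function `W` takes the same value twice; its derivative; the limit of `W(mz)²/W(z)²`
at the poles. -/

open Complex PeriodPair Filter Topology

namespace MP79ab39

/-! ## when does `W` take the same value twice -/

lemma not_mem_of_two {a : ℂ} (ha : 2 * a ∉ Lq.lattice) : a ∉ Lq.lattice ∧ a - hh ∉ Lq.lattice := by
  constructor
  · intro h
    exact ha (two_mul_mem.2 (Or.inl h))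
  · intro h
    exact ha (two_mul_mem.2 (Or.inr (Or.inl h)))

lemma Xf_ne_zero {a : ℂ} (ha : 2 * a ∉ Lq.lattice) : Xf a ≠ 0 := by
  unfold Xf
  apply div_ne_zero _ ee_ne_zero
  rw [Ne, P_eq_zero_iff, not_or]
  exact not_mem_of_two ha

lemma dP_eq_Wf {a : ℂ} (ha : 2 * a ∉ Lq.lattice) :
    ℘'[Lq] a = 2 * cc * (Wf a * ℘[Lq] a) := by
  have h0 : ℘[Lq] a ≠ 0 := by
    rw [Ne, P_eq_zero_iff, not_or]
    exact not_mem_of_two ha
  have h1 := cc_ne_zero
  unfold Wf
  field_simp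

lemma Wf_eq_aux {a b : ℂ} (ha : 2 * a ∉ Lq.lattice) (hb : 2 * b ∉ Lq.lattice)
    (hab : Wf a = Wf b) (hP : ℘[Lq] a = ℘[Lq] b) : a - b ∈ Lq.lattice := by
  apply P_injective Lq (not_mem_of_two ha).1 (not_mem_of_two hb).1 hP
  rw [dP_eq_Wf ha, dP_eq_Wf hb, hab, hP]

lemma Wf_eq_iff {a b : ℂ} (ha : 2 * a ∉ Lq.lattice) (hb : 2 * b ∉ Lq.lattice)
    (hab : Wf a = Wf b) : a - b ∈ Lq.lattice ∨ a + b - hh ∈ Lq.lattice := by
  have h1 := Wf_sq_mul_Xf (not_mem_of_two ha).1 (not_mem_of_two ha).2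
  have h2 := Wf_sq_mul_Xf (not_mem_of_two hb).1 (not_mem_of_two hb).2
  rw [hab] at h1
  have h3 : (Xf a - Xf b) * (Xf a * Xf b + 1) = 0 := by
    linear_combination Xf a * h2 - Xf b * h1
  have he := ee_ne_zero
  rcases mul_eq_zero.1 h3 with h | h
  · left
    apply Wf_eq_aux ha hb hab
    have h4 : Xf a = Xf b := sub_eq_zero.1 h
    unfold Xf at h4
    exact (div_left_inj' he).1 h4
  · right
    have hPa : ℘[Lq] a ≠ 0 := by
      rw [Ne, P_eq_zero_iff, not_or]
      exact not_mem_of_two ha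
    have h4 : ℘[Lq] a * ℘[Lq] b = - ee ^ 2 := by
      unfold Xf at h
      field_simp at h
      linear_combination h
    have h5 : ℘[Lq] (a + hh) = ℘[Lq] b := by
      rw [P_add_hh, div_eq_iff hPa, ← h4]
      ring
    have h6 : ℘[Lq] (hh - a) = ℘[Lq] b := by
      rw [← h5, ← Lq.weierstrassP_neg (a + hh)]
      apply P_eq_of_sub_mem
      have : hh - a - -(a + hh) = 2 * hh := by ring
      rw [this]
      exact two_hh_mem
    have h7 : Wf (hh - a) = Wf b := by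
      have : hh - a = -(a + hh) + 2 * hh := by ring
      rw [this, Wf_periodic two_hh_mem, Wf_neg, Wf_add_hh, neg_neg, hab]
    have h8 : 2 * (hh - a) ∉ Lq.lattice := by
      intro h
      apply ha
      have : 2 * a = 2 * hh - 2 * (hh - a) := by ring
      rw [this]
      exact sub_mem two_hh_mem h
    have h9 := Wf_eq_aux h8 hb h7 h6
    have : a + b - hh = -(hh - a - b) := by ring
    rw [this]
    exact neg_mem h9

lemma deriv_Wf_ne_zero {z : ℂ} (hz : 4 * z ∉ Lq.lattice) : deriv Wf z ≠ 0 := by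
  have hz2 : 2 * z ∉ Lq.lattice := by
    intro h
    apply hz
    have : 4 * z = 2 * z + 2 * z := by ring
    rw [this]
    exact add_mem h h
  have hX := Xf_ne_zero hz2
  have he := ee_ne_zero
  obtain ⟨h1, h2⟩ := not_mem_of_two hz2
  rw [deriv_Wf h1 h2]
  intro h
  have h3 : Xf z + 1 / Xf z = 0 := by
    rcases mul_eq_zero.1 h with h | h
    · exact absurd h cc_ne_zero
    · exact h
  have h4 : Xf z ^ 2 = -1 := by
    field_simp at h3
    linear_combination h3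
  have hP : ℘[Lq] z ≠ 0 := by
    rw [Ne, P_eq_zero_iff, not_or]
    exact ⟨h1, h2⟩
  have h5 : ℘[Lq] z ^ 2 = - ee ^ 2 := by
    unfold Xf at h4
    field_simp at h4
    linear_combination h4
  have h6 : ℘[Lq] (z + hh) = ℘[Lq] z := by
    rw [P_add_hh, div_eq_iff hP, ← h5]
    ring
  have h7 : z + hh ∉ Lq.lattice := fun h => h2 (add_hh_mem_iff.1 h)
  have h8 : ℘'[Lq] (z + hh) ^ 2 = ℘'[Lq] z ^ 2 := by
    rw [dP_sq, dP_sq, h6]
  rcases sq_eq_sq_iff_eq_or_eq_neg.1 h8 with h9 | h9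
  · have := P_injective Lq h7 h1 h6 h9
    rw [add_sub_cancel_left] at this
    exact hh_not_mem this
  · have h10 := P_injective Lq (z := z + hh) (w := -z) h7 (fun h => h1 (by simpa using neg_mem h))
      (by rw [h6, Lq.weierstrassP_neg]) (by rw [h9, Lq.derivWeierstrassP_neg])
    apply hz
    have : 4 * z = ((z + hh - -z) + (z + hh - -z)) - 2 * hh := by ring
    rw [this]
    exact sub_mem (add_mem h10 h10) two_hh_mem

/-- `t² ℘(t) → 1` -/
lemma tendsto_sq_mul_P : Tendsto (fun t => t ^ 2 * ℘[Lq] t) (𝓝[≠] (0 : ℂ)) (𝓝 1) := by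
  have h1 : ContinuousAt (fun z : ℂ => z ^ 2 * PeriodPair.weierstrassPExcept Lq 0 z + 1) 0 := by
    have : AnalyticAt ℂ (PeriodPair.weierstrassPExcept Lq 0) 0 := Lq.analyticAt_weierstrassPExcept 0
    have h2 := this.continuousAt
    fun_prop
  have h2 : Tendsto (fun z : ℂ => z ^ 2 * PeriodPair.weierstrassPExcept Lq 0 z + 1) (𝓝[≠] (0 : ℂ)) (𝓝 1) := by
    have := h1.tendsto.mono_left (nhdsWithin_le_nhds (s := {0}ᶜ))
    simpa using this
  refine h2.congr' ?_
  filter_upwards [self_mem_nhdsWithin] with t ht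
  have h3 := Lq.ite_eq_one_sub_sq_mul_weierstrassP 0 (zero_mem _) t
  rw [if_neg (show ¬ t = 0 from ht)] at h3
  simp only [sub_zero] at h3
  rw [h3]
  simp

/-- `t² W(t)² → 1/e` -/
lemma tendsto_sq_mul_W : Tendsto (fun t => t ^ 2 * Wf t ^ 2) (𝓝[≠] (0 : ℂ)) (𝓝 (1 / ee)) := by
  have he := ee_ne_zero
  have h1 := tendsto_sq_mul_P
  have h2 : Tendsto (fun t : ℂ => t ^ 4) (𝓝[≠] (0 : ℂ)) (𝓝 0) := by
    have : Continuous (fun t : ℂ => t ^ 4) := by fun_prop
    have h3 := (this.tendsto 0).mono_left (nhdsWithin_le_nhds (s := {0}ᶜ))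
    simpa using h3
  have h3 : Tendsto (fun t : ℂ => (t ^ 2 * ℘[Lq] t) / ee - ee * t ^ 4 / (t ^ 2 * ℘[Lq] t))
      (𝓝[≠] (0 : ℂ)) (𝓝 (1 / ee - ee * 0 / 1)) :=
    (h1.div_const ee).sub ((h2.const_mul ee).div h1 one_ne_zero)
  have h4 : (1 / ee - ee * 0 / 1) = 1 / ee := by simp
  rw [h4] at h3
  refine h3.congr' ?_
  have h5 : ∀ᶠ t in 𝓝[≠] (0 : ℂ), t ^ 2 * ℘[Lq] t ≠ 0 := h1.eventually_ne one_ne_zero
  filter_upwards [self_mem_nhdsWithin, h5] with t ht h6
  have ht' : t ≠ 0 := ht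
  have hP : ℘[Lq] t ≠ 0 := right_ne_zero_of_mul h6
  have hc := cc_ne_zero
  have h7 := dP_sq t
  have h8 : Wf t ^ 2 = (℘[Lq] t ^ 2 - ee ^ 2) / (ee * ℘[Lq] t) := by
    unfold Wf
    rw [div_pow, mul_pow, mul_pow, cc_sq, h7]
    field_simp
    ring
  rw [h8]
  field_simp

/-- near `0`, `W(mt)²/W(t)² → 1/m²` -/
lemma tendsto_sq_zero {m : ℕ} (hm2 : 1 ≤ m) :
    Tendsto (fun w => Uf m w ^ 2) (𝓝[≠] (0 : ℂ)) (𝓝 (1 / (m : ℂ) ^ 2)) := by
  have he := ee_ne_zero
  have hm0 : (m : ℂ) ≠ 0 := by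
    have : m ≠ 0 := by omega
    exact_mod_cast this
  have h1 := tendsto_sq_mul_W
  have h2 : Tendsto (fun t : ℂ => (m : ℂ) * t) (𝓝[≠] (0 : ℂ)) (𝓝[≠] (0 : ℂ)) := by
    apply tendsto_nhdsWithin_of_tendsto_nhds_of_eventually_within
    · have : Continuous (fun t : ℂ => (m : ℂ) * t) := by fun_prop
      have h3 := (this.tendsto 0).mono_left (nhdsWithin_le_nhds (s := {0}ᶜ))
      simpa using h3
    · filter_upwards [self_mem_nhdsWithin] with t ht
      exact mul_ne_zero hm0 ht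
  have h3 := h1.comp h2
  have h4 := (h3.div h1 (one_div_ne_zero he)).div_const ((m : ℂ) ^ 2)
  have h5 : 1 / ee / (1 / ee) / (m : ℂ) ^ 2 = 1 / (m : ℂ) ^ 2 := by
    rw [div_self (one_div_ne_zero he)]
  rw [h5] at h4
  refine h4.congr' ?_
  filter_upwards [self_mem_nhdsWithin] with t ht
  have ht' : t ≠ 0 := ht
  simp only [Pi.div_apply, Function.comp_apply]
  unfold Uf
  rw [div_pow, mul_pow]
  field_simp

/-- near a pole, `W(mz)²/W(z)² → 1/m²` -/
lemma tendsto_sq {m : ℕ} (hm : Even m) (hm2 : 2 ≤ m) {z : ℂ}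
    (hz : z ∈ Lq.lattice ∨ z - hh ∈ Lq.lattice) :
    Tendsto (fun w => Uf m w ^ 2) (𝓝[≠] z) (𝓝 (1 / (m : ℂ) ^ 2)) := by
  have smul_mem : ∀ (n : ℕ) {w : ℂ}, w ∈ Lq.lattice → (n : ℂ) * w ∈ Lq.lattice := by
    intro n w hw
    rw [← nsmul_eq_mul]
    exact nsmul_mem hw n
  have hmz : (m : ℂ) * z ∈ Lq.lattice := by
    rcases hz with h | h
    · exact smul_mem m h
    · obtain ⟨k, hk⟩ := hm
      have : (m : ℂ) * z = (m : ℂ) * (z - hh) + (k : ℂ) * (2 * hh) := by
        rw [hk]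
        push_cast
        ring
      rw [this]
      exact add_mem (smul_mem m h) (smul_mem k two_hh_mem)
  have hU : ∀ w : ℂ, Uf m w ^ 2 = Uf m (w - z) ^ 2 := by
    intro w
    unfold Uf
    have h1 : Wf (m * w) = Wf (m * (w - z)) := by
      have : (m : ℂ) * w = m * (w - z) + m * z := by ring
      rw [this, Wf_periodic hmz]
    have h2 : Wf w ^ 2 = Wf (w - z) ^ 2 := by
      rcases hz with h | h
      · have : w = (w - z) + z := by ring
        conv_lhs => rw [this, Wf_periodic h]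
      · have : w = (w - z) + hh + (z - hh) := by ring
        conv_lhs => rw [this, Wf_periodic h, Wf_add_hh]
        ring
    rw [div_pow, div_pow, h1, h2]
  have h1 : Tendsto (fun w : ℂ => w - z) (𝓝[≠] z) (𝓝[≠] (0 : ℂ)) := by
    apply tendsto_nhdsWithin_of_tendsto_nhds_of_eventually_within
    · have : Continuous (fun w : ℂ => w - z) := by fun_prop
      have h3 := (this.tendsto z).mono_left (nhdsWithin_le_nhds (s := {z}ᶜ))
      simpa using h3
    · filter_upwards [self_mem_nhdsWithin] with t ht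
      exact sub_ne_zero.2 ht
  have h2 := (tendsto_sq_zero (m := m) (by omega)).comp h1
  refine h2.congr fun w => ?_
  exact (hU w).symm

end MP79ab39
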