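import Pool.Agent.Lib_MP_79ab39_ag.Lat
import Pool.Agent.Lib_MP_79ab39_ag.WBasic
import Pool.Agent.Lib_MP_79ab39_ag.WClass
import Pool.Agent.Lib_MP_79ab39_ag.OrderU

/-! The order of `R = U (U⁴-1)/(2U⁶+1)` at every point. -/

open Complex PeriodPair Filter Topology

namespace MP79ab39

namespace RBound

lemma smul_mem (n : ℕ) {z : ℂ} (hz : z ∈ Lq.lattice) : (n : ℂ) * z ∈ Lq.lattice := by
  rw [← nsmul_eq_mul]
  exact Lq.lattice.nsmul_mem hz n

lemma Uf_meromorphic (m : ℕ) : Meromorphic (Uf m) := by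
  intro z
  have h1 : MeromorphicAt (fun w : ℂ => Wf (m * w)) z := by
    rcases Nat.eq_zero_or_pos m with h | h
    · subst h
      simp only [Nat.cast_zero, zero_mul]
      exact MeromorphicAt.const (Wf 0) z
    · have := (Wf_meromorphic ((m : ℂ) * z))
      exact this.comp_analyticAt (by fun_prop)
  exact h1.div (Wf_meromorphic z)

/-- order of a sum of a meromorphic function and a non-zero constant at a pole -/
lemma order_add_const {f : ℂ → ℂ} {z c : ℂ} (h : meromorphicOrderAt f z < 0) :
    meromorphicOrderAt (fun w => f w + c) z = meromorphicOrderAt f z := by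
  have h1 : meromorphicOrderAt f z < meromorphicOrderAt (fun _ : ℂ => c) z := by
    refine lt_of_lt_of_le h ?_
    exact AnalyticAt.meromorphicOrderAt_nonneg analyticAt_const
  exact meromorphicOrderAt_add_eq_left_of_lt (MeromorphicAt.const c z) h1

lemma order_of_tendsto {f : ℂ → ℂ} {z c : ℂ} (hf : MeromorphicAt f z)
    (h : Tendsto f (𝓝[≠] z) (𝓝 c)) (hc : c ≠ 0) : meromorphicOrderAt f z = 0 :=
  (tendsto_ne_zero_iff_meromorphicOrderAt_eq_zero hf).1 ⟨c, hc, h⟩

lemma order_Rf_eq (m : ℕ) (z : ℂ) :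
    meromorphicOrderAt (Rf m) z = meromorphicOrderAt (Uf m) z +
      meromorphicOrderAt (fun w => Uf m w ^ 4 - 1) z -
      meromorphicOrderAt (fun w => 2 * Uf m w ^ 6 + 1) z := by
  have hU := Uf_meromorphic m z
  have h4 : MeromorphicAt (fun w => Uf m w ^ 4 - 1) z := by fun_prop
  have h6 : MeromorphicAt (fun w => 2 * Uf m w ^ 6 + 1) z := by fun_prop
  have e : Rf m = ((Uf m) * (fun w => Uf m w ^ 4 - 1)) / (fun w => 2 * Uf m w ^ 6 + 1) := by
    funext w
    simp [Rf]
  rw [e, meromorphicOrderAt_div (hU.mul h4) h6, meromorphicOrderAt_mul hU h4]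

lemma order_U4_pole {m : ℕ} {z : ℂ} {k : ℤ} (hk : k < 0)
    (h : meromorphicOrderAt (Uf m) z = k) :
    meromorphicOrderAt (fun w => Uf m w ^ 4 - 1) z = ((4 * k : ℤ) : WithTop ℤ) := by
  have hU := Uf_meromorphic m z
  have h1 : meromorphicOrderAt (fun w => Uf m w ^ 4) z = ((4 * k : ℤ) : WithTop ℤ) := by
    rw [fun_meromorphicOrderAt_pow hU, h]
    norm_cast
  have e : (fun w => Uf m w ^ 4 - 1) = fun w => Uf m w ^ 4 + (-1) := by
    funext w; ring
  rw [e, order_add_const, h1]
  rw [h1]
  have : 4 * k < 0 := by omega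
  exact_mod_cast this

lemma order_U6_pole {m : ℕ} {z : ℂ} {k : ℤ} (hk : k < 0)
    (h : meromorphicOrderAt (Uf m) z = k) :
    meromorphicOrderAt (fun w => 2 * Uf m w ^ 6 + 1) z = ((6 * k : ℤ) : WithTop ℤ) := by
  have hU := Uf_meromorphic m z
  have h1 : meromorphicOrderAt (fun w => 2 * Uf m w ^ 6) z = ((6 * k : ℤ) : WithTop ℤ) := by
    have e : (fun w => 2 * Uf m w ^ 6) = (fun _ => (2 : ℂ)) * (fun w => Uf m w ^ 6) := rfl
    rw [e, meromorphicOrderAt_mul_of_ne_zero analyticAt_const (by norm_num),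
      fun_meromorphicOrderAt_pow hU, h]
    norm_cast
  rw [order_add_const, h1]
  rw [h1]
  have : 6 * k < 0 := by omega
  exact_mod_cast this

/-- `ord (2U⁶+1)` is never infinite -/
lemma order_U6_ne_top {m : ℕ} (hm : Even m) (hm2 : 2 ≤ m) (z : ℂ) :
    meromorphicOrderAt (fun w => 2 * Uf m w ^ 6 + 1) z ≠ ⊤ := by
  have hM : MeromorphicOn (fun w => 2 * Uf m w ^ 6 + 1) Set.univ := by
    intro w _
    have hU := Uf_meromorphic m w
    fun_prop
  refine hM.meromorphicOrderAt_ne_top_of_isPreconnected (x := 1 / 2) isPreconnected_univ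
    (Set.mem_univ _) (Set.mem_univ _) ?_
  obtain ⟨k, hk⟩ := hm
  have h1 : meromorphicOrderAt (Uf m) (1 / 2 : ℂ) = ((-2 : ℤ) : WithTop ℤ) := by
    rw [order_Uf m (by omega), order_Wf_pole, order_Wf_zero (z := 1 / 2)]
    · rfl
    · left; simp
    · left
      have : (m : ℂ) * (1 / 2) = (k : ℂ) * 1 := by
        rw [hk]; push_cast; ring
      rw [this]
      apply smul_mem
      rw [mem_Lq]
      exact ⟨1, 0, by simp⟩
  rw [order_U6_pole (by norm_num) h1]
  exact WithTop.coe_ne_top

end RBound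

open RBound

theorem order_Rf {m : ℕ} (hm : Even m) (hm2 : 2 ≤ m) (z : ℂ) :
    ∃ k : ℤ, meromorphicOrderAt (Rf m) z = k ∧
      (k ≤ 0 ∨ (NN m * z ∈ Lq.lattice ∧
        (k = 1 ∨ (k = 2 ∧ (z - 1 / 2 ∈ Lq.lattice ∨ z - Complex.I / 2 ∈ Lq.lattice))))) := by
  have hU := Uf_meromorphic m z
  have h4 : MeromorphicAt (fun w => Uf m w ^ 4 - 1) z := by fun_prop
  have h6 : MeromorphicAt (fun w => 2 * Uf m w ^ 6 + 1) z := by fun_prop
  have hNN : (NN m : ℂ) = (m ^ 4 - 1 : ℕ) * (2 * m) := by
    rw [NN]; push_cast; ring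
  by_cases hz : 2 * z ∈ Lq.lattice
  · have hmz : (m : ℂ) * z ∈ Lq.lattice := by
      obtain ⟨k, hk⟩ := hm
      have : (m : ℂ) * z = (k : ℂ) * (2 * z) := by
        rw [hk]; push_cast; ring
      rw [this]
      exact smul_mem k hz
    have hNz : (NN m : ℂ) * z ∈ Lq.lattice := by
      have : (NN m : ℂ) * z = (((m ^ 4 - 1) * 2 : ℕ) : ℂ) * (m * z) := by
        rw [hNN]; push_cast; ring
      rw [this]
      exact smul_mem _ hmz
    have hpole : (z ∈ Lq.lattice ∨ z - hh ∈ Lq.lattice) →
        meromorphicOrderAt (Rf m) z = ((0 : ℤ) : WithTop ℤ) := by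
      intro h
      have hm0 : (m : ℂ) ≠ 0 := by
        have : m ≠ 0 := by omega
        exact_mod_cast this
      have ht := tendsto_sq hm hm2 h
      have h1 : meromorphicOrderAt (Uf m) z = 0 := by
        rw [order_Uf m (by omega), order_Wf_pole (Or.inl hmz), order_Wf_pole h]
        rfl
      have h2 : meromorphicOrderAt (fun w => Uf m w ^ 4 - 1) z = 0 := by
        refine order_of_tendsto h4 (c := (1 / (m : ℂ) ^ 2) ^ 2 - 1) ?_ ?_
        · have := (ht.pow 2).sub_const 1
          refine this.congr ?_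
          intro w; ring
        · intro h0
          have h5 : ((m : ℂ) ^ 4) = 1 := by
            field_simp at h0
            linear_combination -h0
          have h6 : m ^ 4 = 1 := by exact_mod_cast h5
          have h7 : 2 ^ 4 ≤ m ^ 4 := Nat.pow_le_pow_left hm2 4
          omega
      have h3 : meromorphicOrderAt (fun w => 2 * Uf m w ^ 6 + 1) z = 0 := by
        refine order_of_tendsto h6 (c := 2 * (1 / (m : ℂ) ^ 2) ^ 3 + 1) ?_ ?_
        · have := ((ht.pow 3).const_mul 2).add_const 1
          refine this.congr ?_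
          intro w; ring
        · intro h0
          have h5 : (2 : ℂ) + (m : ℂ) ^ 6 = 0 := by
            field_simp at h0
            linear_combination h0
          have h6 : 2 + m ^ 6 = 0 := by exact_mod_cast h5
          omega
      rw [order_Rf_eq, h1, h2, h3]
      rfl
    rcases two_mul_mem.1 hz with h | h | h
    · exact ⟨0, hpole (Or.inl h), Or.inl le_rfl⟩
    · exact ⟨0, hpole (Or.inr h), Or.inl le_rfl⟩
    · -- a zero
      have h1 : meromorphicOrderAt (Uf m) z = ((-2 : ℤ) : WithTop ℤ) := by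
        rw [order_Uf m (by omega), order_Wf_pole (Or.inl hmz), order_Wf_zero h]
        rfl
      refine ⟨2, ?_, Or.inr ⟨hNz, Or.inr ⟨rfl, h⟩⟩⟩
      rw [order_Rf_eq, order_U6_pole (by norm_num) h1, order_U4_pole (by norm_num) h1, h1]
      rfl
  · by_cases hmz : 2 * (m * z) ∈ Lq.lattice
    · have hNz : (NN m : ℂ) * z ∈ Lq.lattice := by
        have : (NN m : ℂ) * z = ((m ^ 4 - 1 : ℕ) : ℂ) * (2 * (m * z)) := by
          rw [hNN]; ring
        rw [this]
        exact smul_mem _ hmz
      refine ⟨1, ?_, Or.inr ⟨hNz, Or.inl rfl⟩⟩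
      have hpole : ((m : ℂ) * z ∈ Lq.lattice ∨ (m : ℂ) * z - hh ∈ Lq.lattice) →
          meromorphicOrderAt (Rf m) z = ((1 : ℤ) : WithTop ℤ) := by
        intro h
        have h1 : meromorphicOrderAt (Uf m) z = ((-1 : ℤ) : WithTop ℤ) := by
          rw [order_Uf m (by omega), order_Wf_pole h, order_Wf_other hz]
          rfl
        rw [order_Rf_eq, order_U6_pole (by norm_num) h1, order_U4_pole (by norm_num) h1, h1]
        rfl
      rcases two_mul_mem.1 hmz with h | h | h
      · exact hpole (Or.inl h)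
      · exact hpole (Or.inr h)
      · have h1 : meromorphicOrderAt (Uf m) z = 1 := by
          rw [order_Uf m (by omega), order_Wf_zero h, order_Wf_other hz]
          rfl
        have ht : Tendsto (Uf m) (𝓝[≠] z) (𝓝 0) :=
          tendsto_zero_of_meromorphicOrderAt_pos (by rw [h1]; exact zero_lt_one)
        have h2 : meromorphicOrderAt (fun w => Uf m w ^ 4 - 1) z = 0 := by
          refine order_of_tendsto h4 (c := 0 ^ 4 - 1) ((ht.pow 4).sub_const 1) (by norm_num)
        have h3 : meromorphicOrderAt (fun w => 2 * Uf m w ^ 6 + 1) z = 0 := by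
          refine order_of_tendsto h6 (c := 2 * 0 ^ 6 + 1)
            (((ht.pow 6).const_mul 2).add_const 1) (by norm_num)
        rw [order_Rf_eq, h1, h2, h3]
        rfl
    · -- the general case: `U` is analytic and not zero at `z`
      have h2L : ∀ {w : ℂ}, 2 * w ∉ Lq.lattice → w ∉ Lq.lattice ∧ w - hh ∉ Lq.lattice :=
        fun hw => ⟨fun h => hw (two_mul_mem.2 (Or.inl h)),
          fun h => hw (two_mul_mem.2 (Or.inr (Or.inl h)))⟩
      have hU1 : AnalyticAt ℂ (Uf m) z := by
        have a1 : AnalyticAt ℂ (fun w : ℂ => Wf (m * w)) z :=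
          (Wf_analyticAt (h2L hmz).1 (h2L hmz).2).fun_comp (g := Wf) (f := fun w : ℂ => m * w)
            (by fun_prop)
        exact a1.div (Wf_analyticAt (h2L hz).1 (h2L hz).2) (fun h => hz (Wf_eq_zero_iff.1 h))
      have hU0 : meromorphicOrderAt (Uf m) z = 0 := by
        rw [order_Uf m (by omega), order_Wf_other hmz, order_Wf_other hz]
        rfl
      have hn6 : 0 ≤ meromorphicOrderAt (fun w => 2 * Uf m w ^ 6 + 1) z :=
        AnalyticAt.meromorphicOrderAt_nonneg (by fun_prop)
      have ht : Tendsto (Uf m) (𝓝[≠] z) (𝓝 (Uf m z)) :=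
        hU1.continuousAt.tendsto.mono_left nhdsWithin_le_nhds
      by_cases hUz : Uf m z ^ 4 = 1
      · obtain ⟨h41, hNz⟩ := order_U4 hm hm2 hz hmz hUz
        refine ⟨1, ?_, Or.inr ⟨hNz, Or.inl rfl⟩⟩
        have h3 : meromorphicOrderAt (fun w => 2 * Uf m w ^ 6 + 1) z = 0 := by
          refine order_of_tendsto h6 (c := 2 * (Uf m z) ^ 6 + 1)
            (((ht.pow 6).const_mul 2).add_const 1) ?_
          have e : (Uf m z ^ 2 - 1) * (Uf m z ^ 2 + 1) = 0 := by linear_combination hUz
          have e6 : Uf m z ^ 6 = Uf m z ^ 2 := by linear_combination (Uf m z ^ 2) * hUz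
          rw [e6]
          rcases mul_eq_zero.1 e with h | h
          · intro h0
            have : (3 : ℂ) = 0 := by linear_combination h0 - 2 * h
            norm_num at this
          · intro h0
            have : (-1 : ℂ) = 0 := by linear_combination h0 - 2 * h
            norm_num at this
        rw [order_Rf_eq, hU0, h41, h3]
        rfl
      · have h40 : meromorphicOrderAt (fun w => Uf m w ^ 4 - 1) z = 0 := by
          refine order_of_tendsto h4 (c := (Uf m z) ^ 4 - 1) ((ht.pow 4).sub_const 1) ?_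
          exact fun h => hUz (by linear_combination h)
        have hne := order_U6_ne_top hm hm2 z
        obtain ⟨k, hk⟩ := WithTop.ne_top_iff_exists.1 hne
        rw [← hk] at hn6
        have hk0 : 0 ≤ k := by exact_mod_cast hn6
        refine ⟨-k, ?_, Or.inl (by omega)⟩
        rw [order_Rf_eq, hU0, h40, ← hk]
        simp only [zero_add]
        rw [zero_sub]
        rfl

end MP79ab39
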