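import Pool.Agent.Lib_MP_79ab39_ag.Lat
import Pool.Agent.Lib_MP_79ab39_ag.WBasic
import Pool.Agent.Lib_MP_79ab39_ag.OrderU
import Pool.Agent.Lib_MP_79ab39_ag.RBound

/-!
# MP_79ab39_ag, piece G: the degrees
-/

open Complex PeriodPair Filter Topology

namespace MP79ab39

/-! ## finite sums over the parallelogram -/

lemma degree_eq_sum {L : PeriodPair} {f : ℂ → ℂ} (T : Finset ℂ)
    (hT : ∀ z ∈ parallelogram L, zeroMult f z ≠ 0 → z ∈ T) (hT' : ∀ z ∈ T, z ∈ parallelogram L) :
    degree L f = ∑ z ∈ T, zeroMult f z := by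
  unfold degree
  apply finsum_mem_eq_sum_of_inter_support_eq
  ext z
  simp only [Set.mem_inter_iff, Function.mem_support, Finset.mem_coe]
  constructor
  · rintro ⟨h1, h2⟩
    exact ⟨hT z h1 h2, h2⟩
  · rintro ⟨h1, h2⟩
    exact ⟨hT' z h1, h2⟩

lemma mem_para {z : ℂ} : z ∈ parallelogram Lq ↔
    ∃ a b : ℝ, 0 ≤ a ∧ a < 1 ∧ 0 ≤ b ∧ b < 1 ∧ z = a + b * Complex.I := by
  simp [parallelogram, Lq]

/-- two points of the parallelogram which are congruent are equal -/
lemma para_unique {z w : ℂ} (hz : z ∈ parallelogram Lq) (hw : w ∈ parallelogram Lq)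
    (h : z - w ∈ Lq.lattice) : z = w := by
  obtain ⟨a, b, ha0, ha1, hb0, hb1, rfl⟩ := mem_para.mp hz
  obtain ⟨c, d, hc0, hc1, hd0, hd1, rfl⟩ := mem_para.mp hw
  obtain ⟨p, q, hpq⟩ := mem_Lq.mp h
  have h1 := congrArg Complex.re hpq
  have h2 := congrArg Complex.im hpq
  simp at h1 h2
  have hp : p = 0 := by
    have h3 : (-1 : ℝ) < p := by linarith
    have h4 : (p : ℝ) < 1 := by linarith
    have h3' : -1 < p := by exact_mod_cast h3
    have h4' : p < 1 := by exact_mod_cast h4
    omega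
  have hq : q = 0 := by
    have h3 : (-1 : ℝ) < q := by linarith
    have h4 : (q : ℝ) < 1 := by linarith
    have h3' : -1 < q := by exact_mod_cast h3
    have h4' : q < 1 := by exact_mod_cast h4
    omega
  subst hp; subst hq
  simp at h1 h2
  have e1 : a = c := by linarith
  have e2 : b = d := by linarith
  rw [e1, e2]

/-- torsion points in the parallelogram -/
lemma finite_torsion {n : ℕ} (hn : 0 < n) :
    {z : ℂ | z ∈ parallelogram Lq ∧ (n : ℂ) * z ∈ Lq.lattice}.Finite := by
  have hn' : (n : ℂ) ≠ 0 := by exact_mod_cast hn.ne'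
  have hnr : (0 : ℝ) < n := by exact_mod_cast hn
  apply ((Finset.range n ×ˢ Finset.range n).image
    (fun p : ℕ × ℕ => ((p.1 : ℂ) + p.2 * Complex.I) / n)).finite_toSet.subset
  rintro z ⟨hz, hnz⟩
  obtain ⟨a, b, ha0, ha1, hb0, hb1, rfl⟩ := mem_para.mp hz
  obtain ⟨p, q, hpq⟩ := mem_Lq.mp hnz
  have h1 := congrArg Complex.re hpq
  have h2 := congrArg Complex.im hpq
  simp at h1 h2
  have hp0 : 0 ≤ p := by
    have : (0 : ℝ) ≤ p := by rw [← h1]; positivity
    exact_mod_cast this
  have hq0 : 0 ≤ q := by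
    have : (0 : ℝ) ≤ q := by rw [← h2]; positivity
    exact_mod_cast this
  have hpn : p < n := by
    have : (p : ℝ) < n := by rw [← h1]; nlinarith
    exact_mod_cast this
  have hqn : q < n := by
    have : (q : ℝ) < n := by rw [← h2]; nlinarith
    exact_mod_cast this
  simp only [Finset.coe_image, Finset.coe_product, Finset.coe_range, Set.mem_image,
    Set.mem_prod, Set.mem_Iio, Prod.exists]
  refine ⟨p.toNat, q.toNat, ⟨by omega, by omega⟩, ?_⟩
  rw [div_eq_iff hn']
  have hpc : ((p.toNat : ℕ) : ℂ) = (p : ℂ) := by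
    have : ((p.toNat : ℕ) : ℤ) = p := Int.toNat_of_nonneg hp0
    exact_mod_cast congrArg (Int.cast : ℤ → ℂ) this
  have hqc : ((q.toNat : ℕ) : ℂ) = (q : ℂ) := by
    have : ((q.toNat : ℕ) : ℤ) = q := Int.toNat_of_nonneg hq0
    exact_mod_cast congrArg (Int.cast : ℤ → ℂ) this
  rw [hpc, hqc, ← hpq]
  ring

/-! ## orders -/

lemma order_Wf_comp {c : ℂ} (hc : c ≠ 0) (z : ℂ) :
    meromorphicOrderAt (fun w => Wf (c * w)) z = meromorphicOrderAt Wf (c * z) := by
  have h := meromorphicOrderAt_comp_of_deriv_ne_zero (f := Wf) (g := fun w : ℂ => c * w) (x := z)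
    (by fun_prop) (by simpa using hc)
  exact h

lemma two_mul_nsmul {n : ℕ} {z : ℂ} (h : 2 * z ∈ Lq.lattice) : 2 * ((n : ℂ) * z) ∈ Lq.lattice := by
  have h1 : 2 * ((n : ℂ) * z) = (n : ℕ) • (2 * z) := by
    rw [nsmul_eq_mul]; ring
  rw [h1]
  exact nsmul_mem h n

/-- zeros of `U` are `2m`-torsion points -/
lemma zeroMult_Uf {m : ℕ} (hm2 : 2 ≤ m) {z : ℂ} (hz : zeroMult (Uf m) z ≠ 0) :
    ((2 * m : ℕ) : ℂ) * z ∈ Lq.lattice := by
  by_contra h
  have h1 : 2 * ((m : ℂ) * z) ∉ Lq.lattice := by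
    intro h2; apply h
    have : ((2 * m : ℕ) : ℂ) * z = 2 * ((m : ℂ) * z) := by push_cast; ring
    rw [this]; exact h2
  have h2 : 2 * z ∉ Lq.lattice := fun h3 => h1 (two_mul_nsmul h3)
  apply hz
  unfold zeroMult
  rw [order_Uf m (by omega), order_Wf_other h1, order_Wf_other h2]
  simp

theorem degree_Uf_ge {m : ℕ} (hm : Even m) (hm2 : 2 ≤ m) : m ≤ degree Lq (Uf m) := by
  have hm0 : (m : ℝ) ≠ 0 := by positivity
  have hmc : (m : ℂ) ≠ 0 := by exact_mod_cast (by omega : m ≠ 0)
  have hfin := finite_torsion (n := 2 * m) (by omega)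
  rw [degree_eq_sum hfin.toFinset
    (fun z hz hne => by
      rw [Set.Finite.mem_toFinset]
      exact ⟨hz, zeroMult_Uf hm2 hne⟩)
    (fun z hz => by
      rw [Set.Finite.mem_toFinset] at hz
      exact hz.1)]
  -- the points `z_j`
  set p : ℕ → ℂ := fun j => (((2 * j + 1 : ℕ) : ℝ) / (2 * m) : ℝ) with hp
  have hpc : ∀ j, p j = ((2 * j + 1 : ℕ) : ℂ) / (2 * m) := by
    intro j; simp [hp]
  have hinj : Function.Injective p := by
    intro i j hij
    rw [hpc, hpc, div_left_inj' (by simpa using hmc)] at hij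
    have : 2 * i + 1 = 2 * j + 1 := by exact_mod_cast hij
    omega
  have hmp : ∀ j, (m : ℂ) * p j - 1 / 2 ∈ Lq.lattice := by
    intro j
    rw [mem_Lq]
    refine ⟨j, 0, ?_⟩
    rw [hpc]; push_cast; field_simp; ring
  have h2p : ∀ j, 2 * p j ∉ Lq.lattice := by
    intro j h
    obtain ⟨a, b, hab⟩ := mem_Lq.mp h
    obtain ⟨k, hk⟩ := hm
    have h1 : (2 * p j) * m = ((2 * j + 1 : ℕ) : ℂ) := by
      rw [hpc]; field_simp
    rw [hab] at h1
    have h2 := congrArg Complex.re h1
    simp at h2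
    have h3 : a * m = 2 * j + 1 := by exact_mod_cast h2
    rw [hk] at h3
    push_cast at h3
    have h4 : a * (k + k : ℤ) = 2 * (a * k) := by ring
    omega
  have hpara : ∀ j < m, p j ∈ parallelogram Lq := by
    intro j hj
    rw [mem_para]
    refine ⟨((2 * j + 1 : ℕ) : ℝ) / (2 * m), 0, by positivity, ?_, le_refl _, zero_lt_one, ?_⟩
    · rw [div_lt_one (by positivity)]
      have : 2 * j + 1 < 2 * m := by omega
      exact_mod_cast this
    · simp [hp]
  have hone : ∀ j, zeroMult (Uf m) (p j) = 1 := by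
    intro j
    unfold zeroMult
    rw [order_Uf m (by omega), order_Wf_zero (Or.inl (hmp j)), order_Wf_other (h2p j)]
    simp
  have hsub : (Finset.range m).image p ⊆ hfin.toFinset := by
    intro z hz
    rw [Finset.mem_image] at hz
    obtain ⟨j, hj, rfl⟩ := hz
    rw [Set.Finite.mem_toFinset]
    refine ⟨hpara j (Finset.mem_range.mp hj), ?_⟩
    apply zeroMult_Uf hm2
    rw [hone j]; exact one_ne_zero
  calc m = ∑ z ∈ (Finset.range m).image p, 1 := by
        rw [Finset.sum_const, smul_eq_mul, mul_one, Finset.card_image_of_injective _ hinj,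
          Finset.card_range]
    _ = ∑ z ∈ (Finset.range m).image p, zeroMult (Uf m) z := by
        apply Finset.sum_congr rfl
        intro z hz
        rw [Finset.mem_image] at hz
        obtain ⟨j, hj, rfl⟩ := hz
        exact (hone j).symm
    _ ≤ _ := Finset.sum_le_sum_of_subset hsub

lemma NN_pos {m : ℕ} (hm2 : 2 ≤ m) : 0 < NN m := by
  unfold NN
  have h1 : 1 < m ^ 4 := Nat.one_lt_pow (by norm_num) (by omega)
  have h2 : 0 < m ^ 4 - 1 := by omega
  positivity

lemma half_mem_para : (1 / 2 : ℂ) ∈ parallelogram Lq := by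
  rw [mem_para]
  exact ⟨1 / 2, 0, by norm_num, by norm_num, by norm_num, by norm_num, by simp⟩

lemma Ihalf_mem_para : (Complex.I / 2 : ℂ) ∈ parallelogram Lq := by
  rw [mem_para]
  exact ⟨0, 1 / 2, by norm_num, by norm_num, by norm_num, by norm_num, by push_cast; ring⟩

lemma zeroMult_le_of_le {f g : ℂ → ℂ} {z : ℂ} (h : meromorphicOrderAt f z ≤ meromorphicOrderAt g z)
    (hg : meromorphicOrderAt g z ≠ ⊤) : zeroMult f z ≤ zeroMult g z := by
  unfold zeroMult
  exact Int.toNat_le_toNat (WithTop.untop₀_le_untop₀ hg h)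

open Classical in
lemma zeroMult_Vf_le {m : ℕ} (hm : Even m) (hm2 : 2 ≤ m) {z : ℂ} (hz : z ∈ parallelogram Lq) :
    zeroMult (Vf m) z ≤ zeroMult (fun w => Wf (NN m * w)) z +
      ((if z = 1 / 2 then 1 else 0) + (if z = Complex.I / 2 then 1 else 0)) := by
  have hN := NN_pos hm2
  have hNc : (NN m : ℂ) ≠ 0 := by exact_mod_cast hN.ne'
  obtain ⟨k, hk, hcase⟩ := order_Rf hm hm2 z
  have hRm : MeromorphicAt (Rf m) z := by
    by_cases hk0 : meromorphicOrderAt (Rf m) z = 0
    · by_contra hn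
      exact hn (by
        have hU : MeromorphicAt (Uf m) z := by
          have h1 : MeromorphicAt (fun w : ℂ => Wf ((m : ℂ) * w)) z := by
            have h := Wf_meromorphic ((m : ℂ) * z)
            have hg : AnalyticAt ℂ (fun t : ℂ => (m : ℂ) * t) z := by fun_prop
            exact MeromorphicAt.comp_analyticAt (f := Wf) (g := fun t : ℂ => (m : ℂ) * t) h hg
          exact h1.div (Wf_meromorphic z)
        unfold Rf
        fun_prop)
    · exact meromorphicAt_of_meromorphicOrderAt_ne_zero hk0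
  have hWm : MeromorphicAt (fun w => Wf (NN m * w)) z := by
    have h := Wf_meromorphic ((NN m : ℂ) * z)
    have hg : AnalyticAt ℂ (fun t : ℂ => (NN m : ℂ) * t) z := by fun_prop
    exact MeromorphicAt.comp_analyticAt (f := Wf) (g := fun t : ℂ => (NN m : ℂ) * t) h hg
  have hV : meromorphicOrderAt (Vf m) z =
      (k : WithTop ℤ) + meromorphicOrderAt (fun w => Wf (NN m * w)) z := by
    rw [← hk]
    exact meromorphicOrderAt_mul hRm hWm
  have hWtop : meromorphicOrderAt (fun w => Wf (NN m * w)) z ≠ ⊤ := by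
    rw [order_Wf_comp hNc]
    by_cases h2 : 2 * ((NN m : ℂ) * z) ∈ Lq.lattice
    · rcases two_mul_mem.mp h2 with h | h | h | h
      · rw [order_Wf_pole (Or.inl h)]; decide
      · rw [order_Wf_pole (Or.inr h)]; decide
      · rw [order_Wf_zero (Or.inl h)]; decide
      · rw [order_Wf_zero (Or.inr h)]; decide
    · rw [order_Wf_other h2]; decide
  rcases hcase with hk0 | ⟨hNz, hk1⟩
  · have : zeroMult (Vf m) z ≤ zeroMult (fun w => Wf (NN m * w)) z := by
      apply zeroMult_le_of_le _ hWtop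
      rw [hV]
      have hk0' : (k : WithTop ℤ) ≤ 0 := by exact_mod_cast hk0
      calc (k : WithTop ℤ) + meromorphicOrderAt (fun w => Wf (NN m * w)) z
          ≤ 0 + meromorphicOrderAt (fun w => Wf (NN m * w)) z := by gcongr
        _ = _ := zero_add _
    omega
  · have hW1 : meromorphicOrderAt (fun w => Wf (NN m * w)) z = -1 := by
      rw [order_Wf_comp hNc]
      exact order_Wf_pole (Or.inl hNz)
    have hzV : zeroMult (Vf m) z = (k - 1).toNat := by
      unfold zeroMult
      rw [hV, hW1]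
      have : (k : WithTop ℤ) + -1 = ((k - 1 : ℤ) : WithTop ℤ) := by
        rw [sub_eq_add_neg]; push_cast; rfl
      rw [this, WithTop.untop₀_coe]
    rw [hzV]
    rcases hk1 with rfl | ⟨rfl, h | h⟩
    · simp
    · have : z = 1 / 2 := para_unique hz half_mem_para h
      rw [if_pos this]
      have : ((2 : ℤ) - 1).toNat = 1 := by norm_num
      omega
    · have : z = Complex.I / 2 := para_unique hz Ihalf_mem_para h
      rw [if_pos this]
      have : ((2 : ℤ) - 1).toNat = 1 := by norm_num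
      omega

/-- zeros of `W (N z)` are `2N`-torsion points -/
lemma zeroMult_WN {m : ℕ} (hm2 : 2 ≤ m) {z : ℂ} (hz : zeroMult (fun w => Wf (NN m * w)) z ≠ 0) :
    ((2 * NN m : ℕ) : ℂ) * z ∈ Lq.lattice := by
  by_contra h
  have hN := NN_pos hm2
  have hNc : (NN m : ℂ) ≠ 0 := by exact_mod_cast hN.ne'
  have h1 : 2 * ((NN m : ℂ) * z) ∉ Lq.lattice := by
    intro h2; apply h
    have : ((2 * NN m : ℕ) : ℂ) * z = 2 * ((NN m : ℂ) * z) := by push_cast; ring
    rw [this]; exact h2
  apply hz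
  unfold zeroMult
  rw [order_Wf_comp hNc, order_Wf_other h1]
  simp

theorem degree_Vf_le {m : ℕ} (hm : Even m) (hm2 : 2 ≤ m) :
    degree Lq (Vf m) ≤ degree Lq (fun z => Wf (NN m * z)) + 2 := by
  classical
  have hN := NN_pos hm2
  have hfin := finite_torsion (n := 2 * NN m) (by omega)
  set T : Finset ℂ := hfin.toFinset ∪ {1 / 2, Complex.I / 2} with hT
  have hTp : ∀ z ∈ T, z ∈ parallelogram Lq := by
    intro z hz
    rw [hT, Finset.mem_union, Set.Finite.mem_toFinset, Finset.mem_insert,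
      Finset.mem_singleton] at hz
    rcases hz with hz | rfl | rfl
    · exact hz.1
    · exact half_mem_para
    · exact Ihalf_mem_para
  have hTW : ∀ z ∈ parallelogram Lq, zeroMult (fun w => Wf (NN m * w)) z ≠ 0 → z ∈ T := by
    intro z hz hne
    rw [hT, Finset.mem_union, Set.Finite.mem_toFinset]
    exact Or.inl ⟨hz, zeroMult_WN hm2 hne⟩
  have hTV : ∀ z ∈ parallelogram Lq, zeroMult (Vf m) z ≠ 0 → z ∈ T := by
    intro z hz hne
    have h1 := zeroMult_Vf_le hm hm2 hz
    by_cases hW : zeroMult (fun w => Wf (NN m * w)) z ≠ 0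
    · exact hTW z hz hW
    · push Not at hW
      rw [hT, Finset.mem_union, Finset.mem_insert, Finset.mem_singleton]
      right
      by_contra h2
      push Not at h2
      rw [hW, if_neg h2.1, if_neg h2.2] at h1
      omega
  rw [degree_eq_sum T hTV hTp, degree_eq_sum T hTW hTp]
  calc ∑ z ∈ T, zeroMult (Vf m) z ≤ ∑ z ∈ T, (zeroMult (fun w => Wf (NN m * w)) z +
      ((if z = 1 / 2 then 1 else 0) + (if z = Complex.I / 2 then 1 else 0))) :=
        Finset.sum_le_sum (fun z hz => zeroMult_Vf_le hm hm2 (hTp z hz))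
    _ = ∑ z ∈ T, zeroMult (fun w => Wf (NN m * w)) z +
        (∑ z ∈ T, (if z = 1 / 2 then 1 else 0) + ∑ z ∈ T, (if z = Complex.I / 2 then 1 else 0)) := by
        rw [Finset.sum_add_distrib, Finset.sum_add_distrib]
    _ ≤ ∑ z ∈ T, zeroMult (fun w => Wf (NN m * w)) z + 2 := by
        have h1 : ∑ z ∈ T, (if z = 1 / 2 then 1 else 0) ≤ 1 := by
          rw [Finset.sum_ite_eq']; split_ifs <;> norm_num
        have h2 : ∑ z ∈ T, (if z = Complex.I / 2 then 1 else 0) ≤ 1 := by
          rw [Finset.sum_ite_eq']; split_ifs <;> norm_num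
        omega

end MP79ab39
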