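import Pool.Agent.Lib_MP_79ab39_ag.Ode

/-!
# MP_79ab39_ag: the orders of an elliptic function sum to zero

For an arbitrary lattice.  The product of the `(℘ - ℘ a) ^ (ord_a f)` over the points `a` of the
period parallelogram outside the lattice has the same orders as `f z * f (- z)` outside the
lattice; Liouville's theorem finishes the proof.
-/

open Complex PeriodPair Filter Topology

namespace MP79ab39

/-! ## the parallelogram -/

theorem exists_rep (L : PeriodPair) (z : ℂ) : ∃ a ∈ parallelogram L, z - a ∈ L.lattice := by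
  have hz : z = (L.basis.repr z 0 : ℝ) * L.ω₁ + (L.basis.repr z 1 : ℝ) * L.ω₂ := by
    have h := L.basis.sum_repr z
    rw [Fin.sum_univ_two, L.basis_zero, L.basis_one, Complex.real_smul, Complex.real_smul] at h
    exact h.symm
  set x : ℝ := L.basis.repr z 0
  set y : ℝ := L.basis.repr z 1
  refine ⟨(Int.fract x : ℝ) * L.ω₁ + (Int.fract y : ℝ) * L.ω₂,
    ⟨Int.fract x, Int.fract y, Int.fract_nonneg _, Int.fract_lt_one _, Int.fract_nonneg _,
      Int.fract_lt_one _, rfl⟩, ?_⟩
  rw [mem_lattice]
  refine ⟨⌊x⌋, ⌊y⌋, ?_⟩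
  have hx : (x : ℂ) = (⌊x⌋ : ℂ) + (Int.fract x : ℝ) := by
    have := Int.floor_add_fract x
    exact_mod_cast congrArg (fun t : ℝ => (t : ℂ)) this.symm
  have hy : (y : ℂ) = (⌊y⌋ : ℂ) + (Int.fract y : ℝ) := by
    have := Int.floor_add_fract y
    exact_mod_cast congrArg (fun t : ℝ => (t : ℂ)) this.symm
  rw [hz, hx, hy]
  ring

theorem rep_unique (L : PeriodPair) {z w : ℂ} (hz : z ∈ parallelogram L)
    (hw : w ∈ parallelogram L) (h : z - w ∈ L.lattice) : z = w := by
  obtain ⟨a, b, ha0, ha1, hb0, hb1, rfl⟩ := hz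
  obtain ⟨c, d, hc0, hc1, hd0, hd1, rfl⟩ := hw
  obtain ⟨p, q, hpq⟩ := mem_lattice.mp h
  have hind := LinearIndependent.pair_iff.mp L.indep ((p : ℝ) - (a - c)) ((q : ℝ) - (b - d)) (by
    rw [Complex.real_smul, Complex.real_smul]
    push_cast
    linear_combination hpq)
  have h1 : (p : ℝ) = a - c := by linarith [hind.1]
  have h2 : (q : ℝ) = b - d := by linarith [hind.2]
  have hp : p = 0 := by
    have h3 : (-1 : ℝ) < p := by linarith
    have h4 : (p : ℝ) < 1 := by linarith
    have h3' : -1 < p := by exact_mod_cast h3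
    have h4' : p < 1 := by exact_mod_cast h4
    omega
  have hq : q = 0 := by
    have h3 : (-1 : ℝ) < q := by linarith
    have h4 : (q : ℝ) < 1 := by linarith
    have h3' : -1 < q := by exact_mod_cast h3
    have h4' : q < 1 := by exact_mod_cast h4
    omega
  rw [hp] at h1
  rw [hq] at h2
  simp at h1 h2
  have e1 : a = c := by linarith
  have e2 : b = d := by linarith
  rw [e1, e2]

lemma zero_mem_para (L : PeriodPair) : (0 : ℂ) ∈ parallelogram L :=
  ⟨0, 0, le_refl _, one_pos, le_refl _, one_pos, by simp⟩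

/-- A meromorphic function has finitely many zeros and poles in the parallelogram. -/
theorem finite_ord (L : PeriodPair) {f : ℂ → ℂ} (hf : Meromorphic f) :
    {z : ℂ | z ∈ parallelogram L ∧ (meromorphicOrderAt f z).untop₀ ≠ 0}.Finite := by
  set R : ℝ := ‖L.ω₁‖ + ‖L.ω₂‖ with hR
  have hfm : MeromorphicOn f (Metric.closedBall 0 R) := fun x _ => hf x
  have hfin := (MeromorphicOn.divisor f (Metric.closedBall (0 : ℂ) R)).finiteSupport
    (isCompact_closedBall _ _)
  refine hfin.subset ?_
  rintro z ⟨hz, hne⟩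
  have hzR : z ∈ Metric.closedBall (0 : ℂ) R := by
    obtain ⟨a, b, ha0, ha1, hb0, hb1, rfl⟩ := hz
    rw [mem_closedBall_zero_iff]
    calc ‖(a : ℂ) * L.ω₁ + b * L.ω₂‖ ≤ ‖(a : ℂ) * L.ω₁‖ + ‖(b : ℂ) * L.ω₂‖ := norm_add_le _ _
      _ = a * ‖L.ω₁‖ + b * ‖L.ω₂‖ := by
          rw [norm_mul, norm_mul, Complex.norm_real, Complex.norm_real, Real.norm_of_nonneg ha0,
            Real.norm_of_nonneg hb0]
      _ ≤ 1 * ‖L.ω₁‖ + 1 * ‖L.ω₂‖ := by gcongr
      _ = R := by rw [hR]; ring
  rw [Function.mem_support, MeromorphicOn.divisor_apply hfm hzR]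
  exact hne

/-! ## Liouville -/

theorem elliptic_liouville (L : PeriodPair) {g : ℂ → ℂ} (hg : Meromorphic g)
    (hper : ∀ ω ∈ L.lattice, ∀ z, g (z + ω) = g z) (h0 : ∀ z, 0 ≤ meromorphicOrderAt g z)
    {z₀ : ℂ} (h1 : 0 < meromorphicOrderAt g z₀) : meromorphicOrderAt g z₀ = ⊤ := by
  have hgm : MeromorphicOn g Set.univ := fun x _ => hg x
  set G : ℂ → ℂ := toMeromorphicNFOn g Set.univ with hG
  have hNF : MeromorphicNFOn G Set.univ := meromorphicNFOn_toMeromorphicNFOn _ _
  have hord : ∀ z, meromorphicOrderAt G z = meromorphicOrderAt g z := fun z =>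
    meromorphicOrderAt_toMeromorphicNFOn hgm (Set.mem_univ z)
  have han : ∀ z, AnalyticAt ℂ G z := by
    intro z
    rw [← (hNF (Set.mem_univ z)).meromorphicOrderAt_nonneg_iff_analyticAt, hord]
    exact h0 z
  have heq : ∀ z, G =ᶠ[𝓝[≠] z] g := fun z =>
    MeromorphicOn.toMeromorphicNFOn_eq_self_on_nhdsNE hgm (Set.mem_univ z)
  -- periodicity
  have hGper : ∀ ω ∈ L.lattice, ∀ z, G (z + ω) = G z := by
    intro ω hω z
    have hshift : Tendsto (fun t : ℂ => t + ω) (𝓝[≠] z) (𝓝[≠] (z + ω)) := by
      apply tendsto_nhdsWithin_of_tendsto_nhds_of_eventually_within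
      · exact ((continuous_add_const ω).tendsto z).mono_left nhdsWithin_le_nhds
      · filter_upwards [self_mem_nhdsWithin] with t ht
        simp only [Set.mem_compl_iff, Set.mem_singleton_iff] at ht ⊢
        exact fun h => ht (add_right_cancel h)
    have h2 : (fun t => G (t + ω)) =ᶠ[𝓝[≠] z] G := by
      have h3 := hshift.eventually (heq (z + ω))
      filter_upwards [h3, heq z] with t ht1 ht2
      rw [ht1, ht2, hper ω hω t]
    have h4 : Tendsto (fun t => G (t + ω)) (𝓝[≠] z) (𝓝 (G (z + ω))) := by
      have hc : ContinuousAt (fun t => G (t + ω)) z := by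
        have hc1 : ContinuousAt G (z + ω) := (han (z + ω)).continuousAt
        exact hc1.comp (f := fun t : ℂ => t + ω) (by fun_prop)
      exact hc.tendsto.mono_left nhdsWithin_le_nhds
    have h5 : Tendsto G (𝓝[≠] z) (𝓝 (G z)) :=
      (han z).continuousAt.tendsto.mono_left nhdsWithin_le_nhds
    exact tendsto_nhds_unique (h4.congr' h2) h5
  have hdiff : Differentiable ℂ G := fun z => (han z).differentiableAt
  have hconst : ∀ z, G z = G z₀ := fun z =>
    hdiff.apply_eq_apply_of_bounded
      (IsZLattice.isCompact_range_of_periodic L.lattice G hdiff.continuous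
        (fun z w hw => hGper w hw z)).isBounded z z₀
  have hz0 : G z₀ = 0 := by
    by_contra hne
    have := (hNF (Set.mem_univ z₀)).meromorphicOrderAt_eq_zero_iff.mpr hne
    rw [hord] at this
    rw [this] at h1
    exact lt_irrefl _ h1
  rw [← hord, meromorphicOrderAt_eq_top_iff]
  exact Filter.Eventually.of_forall (fun z => by rw [hconst z, hz0])

/-! ## the functions `℘ - ℘ a` -/

lemma derivP_zero_iff (L : PeriodPair) {z : ℂ} (hz : z ∉ L.lattice) :
    ℘'[L] z = 0 ↔ 2 * z ∈ L.lattice := by
  have hneg : -z ∉ L.lattice := fun h => hz (by simpa using L.lattice.neg_mem h)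
  constructor
  · intro h
    have h1 := P_injective L hz hneg (L.weierstrassP_neg z).symm (by
      rw [L.derivWeierstrassP_neg, h, neg_zero])
    have h2 : z - -z = 2 * z := by ring
    rwa [h2] at h1
  · intro h
    have h1 : ℘'[L] z = ℘'[L] (-z) := by
      have h2 := L.derivWeierstrassP_add_coe (-z) ⟨2 * z, h⟩
      rw [← h2]
      congr 1
      simp only
      ring
    rw [L.derivWeierstrassP_neg] at h1
    have h3 : (2 : ℂ) * ℘'[L] z = 0 := by linear_combination h1
    simpa using h3

lemma P_eq_iff (L : PeriodPair) {z a : ℂ} (hz : z ∉ L.lattice) (ha : a ∉ L.lattice) :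
    ℘[L] z = ℘[L] a ↔ z - a ∈ L.lattice ∨ z + a ∈ L.lattice := by
  constructor
  · intro h
    have h1 := L.derivWeierstrassP_sq z hz
    have h2 := L.derivWeierstrassP_sq a ha
    have h3 : ℘'[L] z ^ 2 = ℘'[L] a ^ 2 := by rw [h1, h2, h]
    rcases sq_eq_sq_iff_eq_or_eq_neg.mp h3 with h4 | h4
    · exact Or.inl (P_injective L hz ha h h4)
    · right
      have hneg : -a ∉ L.lattice := fun h => ha (by simpa using L.lattice.neg_mem h)
      have h5 := P_injective L hz hneg (by rw [h, L.weierstrassP_neg])
        (by rw [h4, L.derivWeierstrassP_neg])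
      rwa [sub_neg_eq_add] at h5
  · rintro (h | h)
    · have h1 := L.weierstrassP_add_coe a ⟨z - a, h⟩
      rw [← h1]
      congr 1
      simp only
      ring
    · have h1 := L.weierstrassP_add_coe (-a) ⟨z + a, h⟩
      rw [L.weierstrassP_neg] at h1
      rw [← h1]
      congr 1
      simp only
      ring

/-- `℘ - c` is not locally constant at a point outside the lattice -/
lemma order_P_sub_ne_top (L : PeriodPair) (c z : ℂ) :
    meromorphicOrderAt (fun w => ℘[L] w - c) z ≠ ⊤ := by
  have hm : MeromorphicOn (fun w => ℘[L] w - c) Set.univ := fun x _ => by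
    have := L.meromorphic_weierstrassP x
    fun_prop
  refine hm.meromorphicOrderAt_ne_top_of_isPreconnected (x := 0) isPreconnected_univ
    (Set.mem_univ _) (Set.mem_univ _) ?_
  intro h
  rw [meromorphicOrderAt_eq_top_iff] at h
  have h1 : ℘[L] =ᶠ[𝓝[≠] 0] fun _ => c := by
    filter_upwards [h] with w hw
    exact sub_eq_zero.mp hw
  have h2 := L.order_weierstrassP 0 (zero_mem _)
  rw [meromorphicOrderAt_congr h1] at h2
  have h3 : (0 : WithTop ℤ) ≤ meromorphicOrderAt (fun _ : ℂ => c) (0 : ℂ) :=
    (analyticAt_const).meromorphicOrderAt_nonneg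
  rw [h2] at h3
  exact absurd h3 (by decide)

lemma second_deriv_ne (L : PeriodPair) {z : ℂ} (hz : z ∉ L.lattice) (h : ℘'[L] z = 0) :
    deriv ℘'[L] z ≠ 0 := by
  intro h2
  have hopen : IsOpen ((L.lattice : Set ℂ)ᶜ) := L.isClosed_lattice.isOpen_compl
  have hev : ∀ᶠ t in 𝓝 z, ℘[L] t = (fun _ => ℘[L] z) t := by
    refine ode_unique (b := L.g₂ / 2) (L.analyticOnNhd_weierstrassP z hz) analyticAt_const
      ?_ ?_ rfl ?_
    · filter_upwards [hopen.mem_nhds hz] with t ht
      rw [L.deriv_weierstrassP]
      exact deriv_derivP L ht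
    · apply Filter.Eventually.of_forall
      intro t
      have h3 := deriv_derivP L hz
      rw [h2] at h3
      simp only [deriv_const']
      linear_combination h3
    · rw [L.deriv_weierstrassP, h]
      simp
  apply order_P_sub_ne_top L (℘[L] z) z
  rw [meromorphicOrderAt_eq_top_iff]
  apply eventually_nhdsWithin_of_eventually_nhds
  filter_upwards [hev] with t ht
  rw [ht]
  simp

/-- an analytic function with a zero and nonzero derivative has order `1` -/
lemma order_eq_one {g : ℂ → ℂ} {z : ℂ} (hg : AnalyticAt ℂ g z) (h0 : g z = 0)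
    (h1 : deriv g z ≠ 0) : meromorphicOrderAt g z = 1 := by
  have h := hg.analyticOrderAt_sub_eq_one_of_deriv_ne_zero h1
  simp only [h0, sub_zero] at h
  rw [hg.meromorphicOrderAt_eq, h]
  rfl

open Classical in
/-- the divisor of `℘ - ℘ a` -/
theorem order_P_sub (L : PeriodPair) {a z : ℂ} (ha : a ∉ L.lattice) :
    meromorphicOrderAt (fun w => ℘[L] w - ℘[L] a) z =
      (((if z ∈ L.lattice then -2 else
        (if z - a ∈ L.lattice then 1 else 0) + (if z + a ∈ L.lattice then 1 else 0)) : ℤ) :
          WithTop ℤ) := by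
  by_cases hz : z ∈ L.lattice
  · rw [if_pos hz]
    have h1 := L.order_weierstrassP z hz
    have h2 : meromorphicOrderAt (fun w => ℘[L] w + (fun _ => -℘[L] a) w) z =
        meromorphicOrderAt ℘[L] z := by
      apply meromorphicOrderAt_add_eq_left_of_lt analyticAt_const.meromorphicAt
      rw [h1]
      have h3 : (0 : WithTop ℤ) ≤ meromorphicOrderAt (fun _ : ℂ => -℘[L] a) z :=
        (analyticAt_const).meromorphicOrderAt_nonneg
      exact lt_of_lt_of_le (by decide) h3
    have h4 : (fun w => ℘[L] w - ℘[L] a) = (fun w => ℘[L] w + (fun _ => -℘[L] a) w) := by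
      funext w; simp [sub_eq_add_neg]
    rw [h4, h2, h1]
    rfl
  · rw [if_neg hz]
    have han : AnalyticAt ℂ (fun w => ℘[L] w - ℘[L] a) z := by
      have := L.analyticOnNhd_weierstrassP z hz
      fun_prop
    have hder : deriv (fun w => ℘[L] w - ℘[L] a) = ℘'[L] := by
      funext w
      rw [deriv_sub_const, L.deriv_weierstrassP]
    by_cases hval : ℘[L] z = ℘[L] a
    · have hcase := (P_eq_iff L hz ha).mp hval
      by_cases h2z : 2 * z ∈ L.lattice
      · -- double zero
        have hboth : z - a ∈ L.lattice ∧ z + a ∈ L.lattice := by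
          rcases hcase with h | h
          · refine ⟨h, ?_⟩
            have : z + a = 2 * z - (z - a) := by ring
            rw [this]; exact L.lattice.sub_mem h2z h
          · refine ⟨?_, h⟩
            have : z - a = 2 * z - (z + a) := by ring
            rw [this]; exact L.lattice.sub_mem h2z h
        rw [if_pos hboth.1, if_pos hboth.2]
        have hd0 := (derivP_zero_iff L hz).mpr h2z
        have hd1 := second_deriv_ne L hz hd0
        have ho1 : meromorphicOrderAt ℘'[L] z = 1 :=
          order_eq_one (L.analyticOnNhd_derivWeierstrassP z hz) hd0 hd1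
        obtain ⟨n, hn⟩ := WithTop.ne_top_iff_exists.mp (order_P_sub_ne_top L (℘[L] a) z)
        have hn0 : n ≠ 0 := by
          rintro rfl
          exact order_ne_zero_of_eq_zero han (by simp [hval]) (by simpa using hn.symm)
        have h5 := meromorphicOrderAt_deriv_eq_sub_one (by exact_mod_cast hn0) hn.symm
        rw [hder, ho1] at h5
        have h6 : (1 : ℤ) = n - 1 := by exact_mod_cast h5
        have h7 : n = 2 := by omega
        rw [← hn, h7]
        rfl
      · have hd0 : ℘'[L] z ≠ 0 := fun h => h2z ((derivP_zero_iff L hz).mp h)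
        have ho1 : meromorphicOrderAt (fun w => ℘[L] w - ℘[L] a) z = 1 :=
          order_eq_one han (by simp [hval]) (by rw [hder]; exact hd0)
        rw [ho1]
        rcases hcase with h | h
        · have hno : z + a ∉ L.lattice := by
            intro h'
            apply h2z
            have : 2 * z = (z - a) + (z + a) := by ring
            rw [this]; exact L.lattice.add_mem h h'
          rw [if_pos h, if_neg hno]
          rfl
        · have hno : z - a ∉ L.lattice := by
            intro h'
            apply h2z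
            have : 2 * z = (z - a) + (z + a) := by ring
            rw [this]; exact L.lattice.add_mem h' h
          rw [if_neg hno, if_pos h]
          rfl
    · have hno := mt (P_eq_iff L hz ha).mpr hval
      rw [not_or] at hno
      rw [if_neg hno.1, if_neg hno.2, han.meromorphicOrderAt_eq,
        han.analyticOrderAt_eq_zero.mpr (by simpa [sub_eq_zero] using hval)]
      rfl

/-! ## the main theorem -/

lemma untop_coe_finset_sum {ι : Type*} (s : Finset ι) (g : ι → ℤ) :
    (∑ i ∈ s, ((g i : ℤ) : WithTop ℤ)) = ((∑ i ∈ s, g i : ℤ) : WithTop ℤ) := by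
  classical
  induction s using Finset.induction with
  | empty => simp
  | insert a s ha hs => rw [Finset.sum_insert ha, Finset.sum_insert ha, hs]; rfl

/-- the order is periodic -/
lemma order_periodic {f : ℂ → ℂ} {L : PeriodPair}
    (hper : ∀ ω ∈ L.lattice, ∀ z, f (z + ω) = f z) {ω : ℂ} (hω : ω ∈ L.lattice) (z : ℂ) :
    meromorphicOrderAt f (z + ω) = meromorphicOrderAt f z := by
  rw [← meromorphicOrderAt_fun_comp_add_const_eq_meromorphicOrderAt]
  congr 1
  funext w
  exact hper ω hω w

lemma order_ne_top_everywhere {f : ℂ → ℂ} (hf : Meromorphic f)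
    (h0 : ∃ z, meromorphicOrderAt f z ≠ ⊤) (z : ℂ) : meromorphicOrderAt f z ≠ ⊤ := by
  obtain ⟨z₀, h0⟩ := h0
  have hfm : MeromorphicOn f Set.univ := fun x _ => hf x
  exact hfm.meromorphicOrderAt_ne_top_of_isPreconnected (x := z₀) isPreconnected_univ
      (Set.mem_univ _) (Set.mem_univ _) h0

theorem finite_orders (L : PeriodPair) {f : ℂ → ℂ} (hf : Meromorphic f)
    (h0 : ∃ z, meromorphicOrderAt f z ≠ ⊤) :
    {z | z ∈ parallelogram L ∧ meromorphicOrderAt f z ≠ 0}.Finite := by
  refine (finite_ord L hf).subset ?_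
  rintro z ⟨hz, hne⟩
  refine ⟨hz, fun h => hne ?_⟩
  obtain ⟨n, hn⟩ := WithTop.ne_top_iff_exists.mp (order_ne_top_everywhere hf h0 z)
  rw [← hn] at h ⊢
  simp only [WithTop.untop₀_coe] at h
  rw [h]
  rfl

theorem sum_orders_eq_zero (L : PeriodPair) {f : ℂ → ℂ} (hf : Meromorphic f)
    (hper : ∀ l ∈ L.lattice, ∀ z, f (z + l) = f z)
    (h0 : ∃ z, meromorphicOrderAt f z ≠ ⊤) :
    ∑ᶠ z ∈ parallelogram L, (meromorphicOrderAt f z).untop₀ = 0 := by
  classical
  obtain ⟨z₀, h0⟩ := h0
  have hfm : MeromorphicOn f Set.univ := fun x _ => hf x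
  have hne : ∀ z, meromorphicOrderAt f z ≠ ⊤ := fun z =>
    hfm.meromorphicOrderAt_ne_top_of_isPreconnected (x := z₀) isPreconnected_univ
      (Set.mem_univ _) (Set.mem_univ _) h0
  set n : ℂ → ℤ := fun z => (meromorphicOrderAt f z).untop₀ with hn
  have hcoe : ∀ z, meromorphicOrderAt f z = ((n z : ℤ) : WithTop ℤ) := fun z =>
    (WithTop.coe_untop₀_of_ne_top (hne z)).symm
  have hnper : ∀ ω ∈ L.lattice, ∀ z, n (z + ω) = n z := by
    intro ω hω z
    simp only [hn]
    rw [order_periodic hper hω z]
  have hfin := finite_ord L hf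
  set S : Finset ℂ := hfin.toFinset with hS
  have hSmem : ∀ z, z ∈ S ↔ z ∈ parallelogram L ∧ n z ≠ 0 := by
    intro z; rw [hS, Set.Finite.mem_toFinset]; rfl
  set T : Finset ℂ := S.erase 0 with hT
  have hTmem : ∀ z, z ∈ T ↔ z ≠ 0 ∧ z ∈ parallelogram L ∧ n z ≠ 0 := by
    intro z; rw [hT, Finset.mem_erase, hSmem]
  have hTL : ∀ a ∈ T, a ∉ L.lattice := by
    intro a ha haL
    obtain ⟨h1, h2, _⟩ := (hTmem a).mp ha
    exact h1 (rep_unique L h2 (zero_mem_para L) (by simpa using haL))
  -- the total order
  have htotal : ∑ᶠ z ∈ parallelogram L, n z = n 0 + ∑ a ∈ T, n a := by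
    have h1 : ∑ᶠ z ∈ parallelogram L, n z = ∑ z ∈ insert 0 T, n z := by
      apply finsum_mem_eq_sum_of_inter_support_eq
      ext z
      simp only [Set.mem_inter_iff, Function.mem_support, Finset.coe_insert, Set.mem_insert_iff,
        Finset.mem_coe, hTmem]
      constructor
      · rintro ⟨h1, h2⟩
        by_cases hz0 : z = 0
        · exact ⟨Or.inl hz0, h2⟩
        · exact ⟨Or.inr ⟨hz0, h1, h2⟩, h2⟩
      · rintro ⟨h1 | h1, h2⟩
        · rw [h1]; exact ⟨zero_mem_para L, by rwa [h1] at h2⟩
        · exact ⟨h1.2.1, h2⟩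
    rw [h1, Finset.sum_insert]
    intro h
    exact ((hTmem 0).mp h).1 rfl
  rw [htotal]
  -- local count
  have hcount : ∀ z, z ∉ L.lattice →
      ∑ a ∈ T, n a * (if z - a ∈ L.lattice then 1 else 0) = n z := by
    intro z hz
    obtain ⟨r, hr, hzr⟩ := exists_rep L z
    have hnr : n z = n r := by
      have := hnper _ hzr r
      rwa [show r + (z - r) = z by ring] at this
    have hr0 : r ≠ 0 := by
      rintro rfl
      exact hz (by simpa using hzr)
    by_cases hrT : r ∈ T
    · rw [Finset.sum_eq_single r]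
      · rw [if_pos hzr, mul_one, hnr]
      · intro b hb hbr
        rw [if_neg, mul_zero]
        intro hzb
        apply hbr
        apply rep_unique L ((hTmem b).mp hb).2.1 hr
        have : b - r = (z - r) - (z - b) := by ring
        rw [this]; exact L.lattice.sub_mem hzr hzb
      · intro h; exact absurd hrT h
    · have hnr0 : n r = 0 := by
        by_contra h
        exact hrT ((hTmem r).mpr ⟨hr0, hr, h⟩)
      rw [hnr, hnr0]
      apply Finset.sum_eq_zero
      intro b hb
      rw [if_neg, mul_zero]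
      intro hzb
      have : b = r := by
        apply rep_unique L ((hTmem b).mp hb).2.1 hr
        have : b - r = (z - r) - (z - b) := by ring
        rw [this]; exact L.lattice.sub_mem hzr hzb
      exact hrT (this ▸ hb)
  -- the functions
  set H : ℂ → ℂ := fun w => ∏ a ∈ T, (℘[L] w - ℘[L] a) ^ (n a) with hH
  set F : ℂ → ℂ := fun w => f w * f (-w) with hF
  have hpm : ∀ a z, MeromorphicAt (fun w => ℘[L] w - ℘[L] a) z := by
    intro a z
    have := L.meromorphic_weierstrassP z
    fun_prop
  have hHm : Meromorphic H := by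
    intro z
    have h1 : MeromorphicAt (∏ a ∈ T, fun w => (℘[L] w - ℘[L] a) ^ (n a)) z :=
      MeromorphicAt.prod (fun a _ => (hpm a z).zpow (n a))
    have h2 : (∏ a ∈ T, fun w => (℘[L] w - ℘[L] a) ^ (n a)) = H := by
      funext w; rw [Finset.prod_apply]
    rwa [h2] at h1
  have hfneg : Meromorphic (fun w => f (-w)) := by
    intro z
    have hg : AnalyticAt ℂ (fun t : ℂ => -t) z := by fun_prop
    exact MeromorphicAt.comp_analyticAt (f := f) (g := fun t : ℂ => -t) (hf (-z)) hg
  have hFm : Meromorphic F := fun z => (hf z).mul (hfneg z)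
  have hordneg : ∀ z, meromorphicOrderAt (fun w => f (-w)) z = ((n (-z) : ℤ) : WithTop ℤ) := by
    intro z
    have h := meromorphicOrderAt_comp_of_deriv_ne_zero (f := f) (g := fun w : ℂ => -w) (x := z)
      (by fun_prop) (by simp)
    rw [← hcoe (-z)]
    exact h
  have hordF : ∀ z, meromorphicOrderAt F z = ((n z + n (-z) : ℤ) : WithTop ℤ) := by
    intro z
    have h : meromorphicOrderAt F z =
        meromorphicOrderAt f z + meromorphicOrderAt (fun w => f (-w)) z :=
      meromorphicOrderAt_mul (hf z) (hfneg z)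
    rw [h, hcoe z, hordneg z]
    rfl
  have hordH : ∀ z, meromorphicOrderAt H z = ((∑ a ∈ T, n a * (if z ∈ L.lattice then -2 else
      (if z - a ∈ L.lattice then 1 else 0) + (if z + a ∈ L.lattice then 1 else 0)) : ℤ) :
        WithTop ℤ) := by
    intro z
    have h1 : meromorphicOrderAt H z =
        ∑ a ∈ T, meromorphicOrderAt (fun w => (℘[L] w - ℘[L] a) ^ (n a)) z :=
      meromorphicOrderAt_fun_prod (f := fun a w => (℘[L] w - ℘[L] a) ^ (n a))
        (fun a _ => (hpm a z).zpow (n a))
    rw [h1, ← untop_coe_finset_sum]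
    apply Finset.sum_congr rfl
    intro a ha
    have h2 : meromorphicOrderAt (fun w => (℘[L] w - ℘[L] a) ^ (n a)) z =
        (n a : WithTop ℤ) * meromorphicOrderAt (fun w => ℘[L] w - ℘[L] a) z :=
      meromorphicOrderAt_zpow (f := fun w => ℘[L] w - ℘[L] a) (hpm a z)
    rw [h2, order_P_sub L (hTL a ha)]
    norm_cast
  set N : ℤ := n 0 + ∑ a ∈ T, n a with hN
  -- the quotient
  set G : ℂ → ℂ := fun w => F w / H w with hG
  have hGm : Meromorphic G := fun z => (hFm z).div (hHm z)
  have hordG : ∀ z, meromorphicOrderAt G z =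
      (((if z ∈ L.lattice then 2 * N else 0) : ℤ) : WithTop ℤ) := by
    intro z
    have h1 : meromorphicOrderAt G z = meromorphicOrderAt F z - meromorphicOrderAt H z :=
      meromorphicOrderAt_div (hFm z) (hHm z)
    rw [h1, hordF, hordH]
    by_cases hz : z ∈ L.lattice
    · simp only [if_pos hz]
      have e1 : n z = n 0 := by
        have := hnper z hz 0
        rwa [zero_add] at this
      have e2 : n (-z) = n 0 := by
        have := hnper (-z) (L.lattice.neg_mem hz) 0
        rwa [zero_add] at this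
      rw [e1, e2, ← Finset.sum_mul]
      have e3 : n 0 + n 0 - (∑ a ∈ T, n a) * (-2) = 2 * N := by rw [hN]; ring
      rw [← e3]
      rfl
    · simp only [if_neg hz]
      have hz' : -z ∉ L.lattice := fun h => hz (by simpa using L.lattice.neg_mem h)
      have e1 := hcount z hz
      have e2 := hcount (-z) hz'
      have e3 : ∑ a ∈ T, n a * ((if z - a ∈ L.lattice then 1 else 0) +
          (if z + a ∈ L.lattice then 1 else 0)) = n z + n (-z) := by
        rw [← e1, ← e2, ← Finset.sum_add_distrib]
        apply Finset.sum_congr rfl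
        intro a _
        rw [mul_add]
        congr 2
        have : (z + a ∈ L.lattice) ↔ (-z - a ∈ L.lattice) := by
          rw [show -z - a = -(z + a) by ring]
          exact ⟨fun h => L.lattice.neg_mem h, fun h => by simpa using L.lattice.neg_mem h⟩
        simp only [this]
      rw [e3]
      norm_cast
      ring
  have hfper_neg : ∀ ω ∈ L.lattice, ∀ z, f (-(z + ω)) = f (-z) := by
    intro ω hω z
    have := hper (-ω) (L.lattice.neg_mem hω) (-z)
    rw [← this]
    congr 1
    ring
  have hGper : ∀ ω ∈ L.lattice, ∀ z, G (z + ω) = G z := by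
    intro ω hω z
    have hP : ℘[L] (z + ω) = ℘[L] z := L.weierstrassP_add_coe z ⟨ω, hω⟩
    simp only [hG, hF, hH, hper ω hω z, hfper_neg ω hω z, hP]
  rcases lt_trichotomy N 0 with hneg | hzero | hpos
  · exfalso
    set G' : ℂ → ℂ := fun w => (G w)⁻¹ with hG'
    have hG'm : Meromorphic G' := fun z => (hGm z).inv
    have hordG' : ∀ z, meromorphicOrderAt G' z =
        (((if z ∈ L.lattice then -(2 * N) else 0) : ℤ) : WithTop ℤ) := by
      intro z
      have h1 : meromorphicOrderAt G' z = -meromorphicOrderAt G z :=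
        meromorphicOrderAt_inv (f := G)
      rw [h1, hordG]
      split_ifs <;> rfl
    have htop := elliptic_liouville L hG'm (fun ω hω z => by simp only [hG', hGper ω hω z])
      (fun z => by
        rw [hordG']
        split_ifs
        · have : (0 : ℤ) ≤ -(2 * N) := by omega
          exact_mod_cast this
        · exact le_refl _)
      (z₀ := 0) (by
        rw [hordG', if_pos (zero_mem _)]
        have : (0 : ℤ) < -(2 * N) := by omega
        exact_mod_cast this)
    rw [hordG'] at htop
    exact absurd htop (WithTop.coe_ne_top)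
  · exact hzero
  · exfalso
    have htop := elliptic_liouville L hGm hGper
      (fun z => by
        rw [hordG]
        split_ifs
        · have : (0 : ℤ) ≤ 2 * N := by omega
          exact_mod_cast this
        · exact le_refl _)
      (z₀ := 0) (by
        rw [hordG, if_pos (zero_mem _)]
        have : (0 : ℤ) < 2 * N := by omega
        exact_mod_cast this)
    rw [hordG] at htop
    exact absurd htop (WithTop.coe_ne_top)

/-- the number of zeros is the number of poles -/
theorem degree_eq_poles (L : PeriodPair) {f : ℂ → ℂ} (hf : Meromorphic f)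
    (hper : ∀ l ∈ L.lattice, ∀ z, f (z + l) = f z) (h0 : ∃ z, meromorphicOrderAt f z ≠ ⊤) :
    degree L f = ∑ᶠ z ∈ parallelogram L, (-(meromorphicOrderAt f z).untop₀).toNat := by
  classical
  have hfin := finite_ord L hf
  set S : Finset ℂ := hfin.toFinset with hS
  have hSmem : ∀ z, z ∈ S ↔ z ∈ parallelogram L ∧ (meromorphicOrderAt f z).untop₀ ≠ 0 := by
    intro z; rw [hS, Set.Finite.mem_toFinset]; rfl
  have key : ∀ {M : Type} [AddCommMonoid M] (φ : ℤ → M), φ 0 = 0 →
      ∑ᶠ z ∈ parallelogram L, φ (meromorphicOrderAt f z).untop₀ =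
        ∑ z ∈ S, φ (meromorphicOrderAt f z).untop₀ := by
    intro M _ φ hφ
    apply finsum_mem_eq_sum_of_inter_support_eq
    ext z
    simp only [Set.mem_inter_iff, Function.mem_support, Finset.mem_coe, hSmem]
    constructor
    · rintro ⟨h1, h2⟩
      refine ⟨⟨h1, ?_⟩, h2⟩
      intro h3
      rw [h3] at h2
      exact h2 hφ
    · rintro ⟨h1, h2⟩
      exact ⟨h1.1, h2⟩
  have h1 := sum_orders_eq_zero L hf hper h0
  rw [key (fun k => k) rfl] at h1
  have h2 : degree L f = ∑ z ∈ S, ((meromorphicOrderAt f z).untop₀).toNat :=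
    key (fun k => k.toNat) rfl
  have h3 : ∑ᶠ z ∈ parallelogram L, (-(meromorphicOrderAt f z).untop₀).toNat =
      ∑ z ∈ S, (-(meromorphicOrderAt f z).untop₀).toNat :=
    key (fun k => (-k).toNat) rfl
  rw [h2, h3]
  have h4 : (∑ z ∈ S, (((meromorphicOrderAt f z).untop₀).toNat : ℤ)) =
      ∑ z ∈ S, (((-(meromorphicOrderAt f z).untop₀).toNat : ℕ) : ℤ) := by
    rw [← sub_eq_zero, ← Finset.sum_sub_distrib]
    rw [← h1]
    apply Finset.sum_congr rfl
    intro z _
    omega
  exact_mod_cast h4

/-- an elliptic function which is not identically zero has as many zeros as poles -/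
theorem degree_inv (L : PeriodPair) {f : ℂ → ℂ} (hf : Meromorphic f)
    (hper : ∀ l ∈ L.lattice, ∀ z, f (z + l) = f z) (h0 : ∃ z, meromorphicOrderAt f z ≠ ⊤) :
    degree L (fun z => (f z)⁻¹) = degree L f := by
  rw [degree_eq_poles L hf hper h0]
  unfold degree zeroMult
  apply finsum_congr
  intro z
  congr 1
  funext _
  have h1 : meromorphicOrderAt (fun z => (f z)⁻¹) z = -meromorphicOrderAt f z :=
    meromorphicOrderAt_inv (f := f)
  rw [h1]
  obtain ⟨n, hn⟩ := WithTop.ne_top_iff_exists.mp (order_ne_top_everywhere hf h0 z)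
  rw [← hn]
  rfl

/-- An elliptic function takes every value the same number of times. -/
theorem degree_sub_const (L : PeriodPair) {f : ℂ → ℂ} (hf : Meromorphic f)
    (hper : ∀ l ∈ L.lattice, ∀ z, f (z + l) = f z) (h0 : ∃ z, meromorphicOrderAt f z ≠ ⊤) (b : ℂ)
    (h1 : ∃ z, meromorphicOrderAt (fun w => f w - b) z ≠ ⊤) :
    degree L (fun z => f z - b) = degree L f := by
  have hfb : Meromorphic (fun z => f z - b) := fun z => by
    have := hf z
    fun_prop
  have hne := order_ne_top_everywhere hf h0
  have hneb := order_ne_top_everywhere hfb h1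
  rw [degree_eq_poles L hf hper h0, degree_eq_poles L hfb (fun ω hω z => by
    simp only [hper ω hω z]) h1]
  apply finsum_congr
  intro z
  congr 1
  funext _
  have hc : (0 : WithTop ℤ) ≤ meromorphicOrderAt (fun _ : ℂ => -b) z :=
    (analyticAt_const).meromorphicOrderAt_nonneg
  have hcm : MeromorphicAt (fun _ : ℂ => -b) z := analyticAt_const.meromorphicAt
  have heq : (fun z => f z - b) = f + (fun _ : ℂ => -b) := by
    funext w; simp [sub_eq_add_neg]
  rcases lt_or_ge (meromorphicOrderAt f z) 0 with hlt | hge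
  · have h2 : meromorphicOrderAt (fun z => f z - b) z = meromorphicOrderAt f z := by
      rw [heq]
      exact meromorphicOrderAt_add_eq_left_of_lt hcm (lt_of_lt_of_le hlt hc)
    rw [h2]
  · have h2 : 0 ≤ meromorphicOrderAt (fun z => f z - b) z := by
      rw [heq]
      exact le_trans (le_min hge hc) (meromorphicOrderAt_add (hf z) hcm)
    obtain ⟨p, hp⟩ := WithTop.ne_top_iff_exists.mp (hne z)
    obtain ⟨q, hq⟩ := WithTop.ne_top_iff_exists.mp (hneb z)
    rw [← hp] at hge ⊢
    rw [← hq] at h2 ⊢
    have hp0 : 0 ≤ p := by exact_mod_cast hge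
    have hq0 : 0 ≤ q := by exact_mod_cast h2
    simp only [WithTop.untop₀_coe]
    omega

end MP79ab39
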