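import Pool.Agent.Lib_MP_79ab39_ag.Rho
import Pool.Agent.Lib_MP_79ab39_ag.EllipticSum
import Pool.Agent.Lib_MP_79ab39_ag.Degree
import Pool.Agent.Lib_MP_79ab39_ag.Curve

/-! # MP_79ab39_ag, piece M2: the number of branch points of `s² = (U³ + 3)/(U³ + 2)` -/

open Complex PeriodPair Filter Topology

namespace MP79ab39

/-! ## factorisation of `x³ - c` -/

lemma exists_cube_factors (c : ℂ) : ∃ b : Fin 3 → ℂ,
    ∀ x : ℂ, x ^ 3 - c = (x - b 0) * (x - b 1) * (x - b 2) := by
  obtain ⟨β, hβ⟩ := IsAlgClosed.exists_pow_nat_eq c (n := 3) (by norm_num)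
  obtain ⟨s, hs⟩ := IsAlgClosed.exists_pow_nat_eq (-3 : ℂ) (n := 2) (by norm_num)
  refine ⟨![β, (-1 + s) / 2 * β, (-1 - s) / 2 * β], fun x => ?_⟩
  simp only [Matrix.cons_val_zero, Matrix.cons_val_one, Matrix.cons_val]
  linear_combination hβ + (x * β ^ 2 / 4 - β ^ 3 / 4) * hs

/-! ## orders of `U - b` -/

/-- `U` has a pole at `1/2` -/
lemma branch_order_half {m : ℕ} (hm : Even m) (hm2 : 2 ≤ m) (b : ℂ) :
    meromorphicOrderAt (fun w => Uf m w - b) (1 / 2 : ℂ) = ((-2 : ℤ) : WithTop ℤ) := by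
  have h1 : meromorphicOrderAt (Uf m) (1 / 2 : ℂ) = ((-2 : ℤ) : WithTop ℤ) :=
    curveAux_order_Uf_half hm hm2
  have e : (fun w => Uf m w - b) = fun w => Uf m w + (-b) := by
    funext w; ring
  have h2 : meromorphicOrderAt (Uf m) (1 / 2 : ℂ) < 0 := by
    rw [h1]; decide
  rw [e, RBound.order_add_const h2, h1]

lemma branch_meromorphic (m : ℕ) (b : ℂ) : Meromorphic (fun w => Uf m w - b) := by
  intro z
  have := RBound.Uf_meromorphic m z
  fun_prop

lemma branch_order_ne_top {m : ℕ} (hm : Even m) (hm2 : 2 ≤ m) (b z : ℂ) :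
    meromorphicOrderAt (fun w => Uf m w - b) z ≠ ⊤ := by
  have hM : MeromorphicOn (fun w => Uf m w - b) Set.univ := fun w _ => branch_meromorphic m b w
  refine hM.meromorphicOrderAt_ne_top_of_isPreconnected (x := 1 / 2) isPreconnected_univ
    (Set.mem_univ _) (Set.mem_univ _) ?_
  rw [branch_order_half hm hm2]
  exact WithTop.coe_ne_top

/-- the order of `U³ - c` is the sum of the orders of `U - b_i` -/
lemma branch_order_cube (m : ℕ) {c : ℂ} {b : Fin 3 → ℂ}
    (hb : ∀ x : ℂ, x ^ 3 - c = (x - b 0) * (x - b 1) * (x - b 2)) (z : ℂ) :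
    meromorphicOrderAt (fun w => Uf m w ^ 3 - c) z =
      meromorphicOrderAt (fun w => Uf m w - b 0) z + meromorphicOrderAt (fun w => Uf m w - b 1) z +
        meromorphicOrderAt (fun w => Uf m w - b 2) z := by
  have e : (fun w => Uf m w ^ 3 - c) = ((fun w => Uf m w - b 0) * (fun w => Uf m w - b 1)) *
      (fun w => Uf m w - b 2) := by
    funext w
    simp only [Pi.mul_apply]
    exact hb _
  have h0 := branch_meromorphic m (b 0) z
  have h1 := branch_meromorphic m (b 1) z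
  have h2 := branch_meromorphic m (b 2) z
  rw [e, meromorphicOrderAt_mul (h0.mul h1) h2, meromorphicOrderAt_mul h0 h1]

/-- at a pole of `U`, the orders of `U` and `U - b` are the same -/
lemma branch_order_pole {m : ℕ} {z : ℂ} (h : meromorphicOrderAt (Uf m) z < 0) (b : ℂ) :
    meromorphicOrderAt (fun w => Uf m w - b) z = meromorphicOrderAt (Uf m) z := by
  have e : (fun w => Uf m w - b) = fun w => Uf m w + (-b) := by
    funext w; ring
  rw [e, RBound.order_add_const h]

lemma branch_order_nonneg {m : ℕ} {z : ℂ} (h : 0 ≤ meromorphicOrderAt (Uf m) z) (b : ℂ) :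
    0 ≤ meromorphicOrderAt (fun w => Uf m w - b) z := by
  have e : (fun w => Uf m w - b) = (Uf m) + fun _ => (-b) := by
    funext w; simp only [Pi.add_apply]; ring
  have h1 : 0 ≤ meromorphicOrderAt (fun _ : ℂ => -b) z :=
    AnalyticAt.meromorphicOrderAt_nonneg analyticAt_const
  rw [e]
  exact le_trans (le_min h h1) (meromorphicOrderAt_add (RBound.Uf_meromorphic m z)
    (MeromorphicAt.const _ z))

lemma branch_order_rhof (m : ℕ) (z : ℂ) :
    meromorphicOrderAt (rhof m) z = meromorphicOrderAt (fun w => Uf m w ^ 3 - (-3)) z -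
      meromorphicOrderAt (fun w => Uf m w ^ 3 - (-2)) z := by
  have hU := RBound.Uf_meromorphic m z
  have e : rhof m = (fun w => Uf m w ^ 3 - (-3)) / (fun w => Uf m w ^ 3 - (-2)) := by
    funext w
    simp only [rhof, Pi.div_apply, sub_neg_eq_add]
  rw [e, meromorphicOrderAt_div (by fun_prop) (by fun_prop)]

/-- at a point where `ρ` has odd order, `U` takes one of the six values `b` with `b³ = -3`
or `b³ = -2` -/
lemma branch_value {m : ℕ} {b b' : Fin 3 → ℂ}
    (hb : ∀ x : ℂ, x ^ 3 - (-3) = (x - b 0) * (x - b 1) * (x - b 2))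
    (hb' : ∀ x : ℂ, x ^ 3 - (-2) = (x - b' 0) * (x - b' 1) * (x - b' 2))
    {z : ℂ} (hz : Odd (meromorphicOrderAt (rhof m) z).untop₀) :
    (∃ i, meromorphicOrderAt (fun w => Uf m w - b i) z ≠ 0 ∧
        0 ≤ meromorphicOrderAt (fun w => Uf m w - b i) z) ∨
      (∃ i, meromorphicOrderAt (fun w => Uf m w - b' i) z ≠ 0 ∧
        0 ≤ meromorphicOrderAt (fun w => Uf m w - b' i) z) := by
  rw [branch_order_rhof, branch_order_cube m hb, branch_order_cube m hb'] at hz
  by_cases hp : meromorphicOrderAt (Uf m) z < 0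
  · exfalso
    simp only [branch_order_pole hp] at hz
    obtain ⟨k, hk⟩ := WithTop.ne_top_iff_exists.mp (ne_top_of_lt hp)
    rw [← hk] at hz
    have : ((k : WithTop ℤ) + k + k - (k + k + k)) = ((0 : ℤ) : WithTop ℤ) := by
      norm_cast
      simp
    rw [this, WithTop.untop₀_coe] at hz
    exact absurd hz (by decide)
  · push Not at hp
    by_contra hcon
    push Not at hcon
    obtain ⟨h1, h2⟩ := hcon
    have h1' : ∀ i, meromorphicOrderAt (fun w => Uf m w - b i) z = 0 := by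
      intro i
      by_contra h
      exact absurd (branch_order_nonneg hp (b i)) (not_le.mpr (h1 i h))
    have h2' : ∀ i, meromorphicOrderAt (fun w => Uf m w - b' i) z = 0 := by
      intro i
      by_contra h
      exact absurd (branch_order_nonneg hp (b' i)) (not_le.mpr (h2 i h))
    simp only [h1', h2'] at hz
    simp at hz

/-! ## counting -/

/-- the number of distinct zeros is at most the degree -/
lemma branch_ncard_le {L : PeriodPair} {f : ℂ → ℂ} (hf : Meromorphic f)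
    (h0 : ∀ z, meromorphicOrderAt f z ≠ ⊤) :
    {z | z ∈ parallelogram L ∧ (meromorphicOrderAt f z ≠ 0 ∧ 0 ≤ meromorphicOrderAt f z)}.Finite ∧
    {z | z ∈ parallelogram L ∧
      (meromorphicOrderAt f z ≠ 0 ∧ 0 ≤ meromorphicOrderAt f z)}.ncard ≤ degree L f := by
  have hfin := finite_orders L hf ⟨0, h0 0⟩
  have hfin2 : {z | z ∈ parallelogram L ∧
      (meromorphicOrderAt f z ≠ 0 ∧ 0 ≤ meromorphicOrderAt f z)}.Finite :=
    hfin.subset (fun z hz => ⟨hz.1, hz.2.1⟩)
  refine ⟨hfin2, ?_⟩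
  have hzero : ∀ z, zeroMult f z ≠ 0 → meromorphicOrderAt f z ≠ 0 := by
    intro z hz h
    apply hz
    simp [zeroMult, h]
  have hone : ∀ z, meromorphicOrderAt f z ≠ 0 → 0 ≤ meromorphicOrderAt f z → 1 ≤ zeroMult f z := by
    intro z h1 h2
    obtain ⟨k, hk⟩ := WithTop.ne_top_iff_exists.mp (h0 z)
    unfold zeroMult
    rw [← hk] at h1 h2 ⊢
    rw [WithTop.untop₀_coe]
    have h1' : k ≠ 0 := by exact_mod_cast h1
    have h2' : 0 ≤ k := by exact_mod_cast h2
    omega
  rw [degree_eq_sum hfin.toFinset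
    (fun z hz hne => by
      rw [Set.Finite.mem_toFinset]
      exact ⟨hz, hzero z hne⟩)
    (fun z hz => by
      rw [Set.Finite.mem_toFinset] at hz
      exact hz.1)]
  rw [Set.ncard_eq_toFinset_card _ hfin2, Finset.card_eq_sum_ones]
  calc ∑ z ∈ hfin2.toFinset, 1 ≤ ∑ z ∈ hfin2.toFinset, zeroMult f z := by
        apply Finset.sum_le_sum
        intro z hz
        rw [Set.Finite.mem_toFinset] at hz
        exact hone z hz.2.1 hz.2.2
    _ ≤ _ := Finset.sum_le_sum_of_subset (by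
        intro z hz
        rw [Set.Finite.mem_toFinset] at hz ⊢
        exact ⟨hz.1, hz.2.1⟩)

/-- The values of `U`: every value is taken at most `deg U` times. -/
lemma branch_value_ncard {m : ℕ} (hm : Even m) (hm2 : 2 ≤ m) (b : ℂ) :
    {z | z ∈ parallelogram Lq ∧ (meromorphicOrderAt (fun w => Uf m w - b) z ≠ 0 ∧
      0 ≤ meromorphicOrderAt (fun w => Uf m w - b) z)}.Finite ∧
    {z | z ∈ parallelogram Lq ∧ (meromorphicOrderAt (fun w => Uf m w - b) z ≠ 0 ∧
      0 ≤ meromorphicOrderAt (fun w => Uf m w - b) z)}.ncard ≤ degree Lq (Uf m) := by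
  have h := branch_ncard_le (L := Lq) (branch_meromorphic m b) (branch_order_ne_top hm hm2 b)
  refine ⟨h.1, h.2.trans_eq ?_⟩
  have hU0 : meromorphicOrderAt (Uf m) 0 ≠ ⊤ := by
    have := branch_order_ne_top hm hm2 0 0
    simpa using this
  exact degree_sub_const Lq (RBound.Uf_meromorphic m)
    (fun l hl z => curveAux_Uf_periodic m hl z) ⟨0, hU0⟩ b ⟨0, branch_order_ne_top hm hm2 b 0⟩

theorem branch_le {m : ℕ} (hm : Even m) (hm2 : 2 ≤ m) :
    branchNumber Lq (rhof m) ≤ 6 * degree Lq (Uf m) := by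
  obtain ⟨b, hb⟩ := exists_cube_factors (-3)
  obtain ⟨b', hb'⟩ := exists_cube_factors (-2)
  set S : ℂ → Set ℂ := fun c => {z | z ∈ parallelogram Lq ∧
    (meromorphicOrderAt (fun w => Uf m w - c) z ≠ 0 ∧
      0 ≤ meromorphicOrderAt (fun w => Uf m w - c) z)} with hS
  have hfin : ∀ c, (S c).Finite := fun c => (branch_value_ncard hm hm2 c).1
  have hcard : ∀ c, (S c).ncard ≤ degree Lq (Uf m) := fun c => (branch_value_ncard hm hm2 c).2
  have hsub : {z | z ∈ parallelogram Lq ∧ Odd (meromorphicOrderAt (rhof m) z).untop₀} ⊆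
      (S (b 0) ∪ S (b 1) ∪ S (b 2)) ∪ (S (b' 0) ∪ S (b' 1) ∪ S (b' 2)) := by
    rintro z ⟨hz, hodd⟩
    rcases branch_value hb hb' hodd with ⟨i, hi⟩ | ⟨i, hi⟩
    · left
      fin_cases i
      · exact Or.inl (Or.inl ⟨hz, hi⟩)
      · exact Or.inl (Or.inr ⟨hz, hi⟩)
      · exact Or.inr ⟨hz, hi⟩
    · right
      fin_cases i
      · exact Or.inl (Or.inl ⟨hz, hi⟩)
      · exact Or.inl (Or.inr ⟨hz, hi⟩)
      · exact Or.inr ⟨hz, hi⟩
  have hfinU : ((S (b 0) ∪ S (b 1) ∪ S (b 2)) ∪ (S (b' 0) ∪ S (b' 1) ∪ S (b' 2))).Finite :=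
    (((hfin _).union (hfin _)).union (hfin _)).union (((hfin _).union (hfin _)).union (hfin _))
  unfold branchNumber
  refine (Set.ncard_le_ncard hsub hfinU).trans ?_
  have h1 := Set.ncard_union_le (S (b 0) ∪ S (b 1) ∪ S (b 2)) (S (b' 0) ∪ S (b' 1) ∪ S (b' 2))
  have h2 := Set.ncard_union_le (S (b 0) ∪ S (b 1)) (S (b 2))
  have h3 := Set.ncard_union_le (S (b 0)) (S (b 1))
  have h4 := Set.ncard_union_le (S (b' 0) ∪ S (b' 1)) (S (b' 2))
  have h5 := Set.ncard_union_le (S (b' 0)) (S (b' 1))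
  have c0 := hcard (b 0)
  have c1 := hcard (b 1)
  have c2 := hcard (b 2)
  have c3 := hcard (b' 0)
  have c4 := hcard (b' 1)
  have c5 := hcard (b' 2)
  omega

end MP79ab39
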