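import Pool.Agent.Lib_MP_79ab39_ag.WBasic

/-! The Weierstrass function takes every value; `(X, W)` is onto the affine curve. -/

open Complex PeriodPair Filter Topology

namespace MP79ab39

theorem P_surjective (L : PeriodPair) (c : ℂ) : ∃ z ∉ L.lattice, ℘[L] z = c := by
  classical
  by_contra hcon
  push Not at hcon
  set q : ℂ → ℂ := fun z => if z ∈ L.lattice then 0 else (℘[L] z - c)⁻¹ with hq
  have hana : ∀ x, AnalyticAt ℂ q x := by
    intro x
    by_cases hx : x ∈ L.lattice
    · have hmero : MeromorphicAt (fun z => (℘[L] z - c)⁻¹) x := by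
        have := L.meromorphic_weierstrassP x
        fun_prop
      have heq : (fun z => (℘[L] z - c)⁻¹) =ᶠ[𝓝[≠] x] q := by
        filter_upwards [self_mem_nhdsWithin, mem_nhdsWithin_of_mem_nhds
          (L.compl_lattice_sdiff_singleton_mem_nhds x)] with w hw hw'
        have : w ∉ L.lattice := by simp_all
        simp [hq, this]
      have hmq : MeromorphicAt q x := hmero.congr heq
      refine hmq.analyticAt ?_
      rw [continuousAt_iff_punctured_nhds]
      have hqx : q x = 0 := by simp [hq, hx]
      rw [hqx]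
      refine Tendsto.congr' heq ?_
      have hcob : Tendsto ℘[L] (𝓝[≠] x) (Bornology.cobounded ℂ) :=
        (tendsto_cobounded_iff_meromorphicOrderAt_neg (L.meromorphic_weierstrassP x)).mpr (by
          rw [L.order_weierstrassP x hx]; decide)
      have hcob2 : Tendsto (fun z => ℘[L] z - c) (𝓝[≠] x) (Bornology.cobounded ℂ) := by
        rw [← tendsto_norm_atTop_iff_cobounded] at hcob ⊢
        refine tendsto_atTop_mono (fun z => ?_) (tendsto_atTop_add_const_right _ (-‖c‖) hcob)
        have := norm_sub_norm_le (℘[L] z) c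
        linarith
      exact (tendsto_inv₀_cobounded (α := ℂ)).comp hcob2
    · have h1 := L.analyticOnNhd_weierstrassP _ hx
      have h2 : AnalyticAt ℂ (fun z => (℘[L] z - c)⁻¹) x := by
        refine AnalyticAt.inv (by fun_prop) ?_
        exact sub_ne_zero.mpr (hcon x hx)
      refine h2.congr ?_
      filter_upwards [L.isClosed_lattice.isOpen_compl.mem_nhds hx] with w hw
      have : w ∉ L.lattice := hw
      simp [hq, this]
  have hdiff : Differentiable ℂ q := fun x => (hana x).differentiableAt
  have hper : ∀ z w : ℂ, w ∈ L.lattice → q (z + w) = q z := by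
    intro z w hw
    lift w to L.lattice using hw
    by_cases hz : z ∈ L.lattice
    · have : z + w ∈ L.lattice := add_mem hz w.2
      simp [hq, hz, this]
    · have : z + w ∉ L.lattice := fun h => hz (by simpa using sub_mem h w.2)
      simp [hq, hz, this]
  have hbd := (IsZLattice.isCompact_range_of_periodic L.lattice q hdiff.continuous hper).isBounded
  have hconst := hdiff.apply_eq_apply_of_bounded hbd (L.ω₁ / 2) 0
  have h0 : q 0 = 0 := by simp [hq]
  have hw := L.ω₁_div_two_notMem_lattice
  rw [h0] at hconst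
  simp only [hq, hw, if_false] at hconst
  exact sub_ne_zero.mpr (hcon _ hw) (inv_eq_zero.mp hconst)

theorem XW_surjective {x w : ℂ} (hx : x ≠ 0) (hw : w ≠ 0) (h : w ^ 2 * x = x ^ 2 - 1) :
    ∃ z, 2 * z ∉ Lq.lattice ∧ Xf z = x ∧ Wf z = w := by
  obtain ⟨z, hz, hPz⟩ := P_surjective Lq (ee * x)
  have hee := ee_ne_zero
  have hX : Xf z = x := by
    rw [Xf, hPz]; field_simp
  have hP0 : ℘[Lq] z ≠ 0 := by
    rw [hPz]; exact mul_ne_zero hee hx
  have hz' : z - hh ∉ Lq.lattice := fun h1 => hP0 (P_eq_zero_iff.mpr (Or.inr h1))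
  have hW := Wf_sq_mul_Xf hz hz'
  rw [hX, ← h] at hW
  have hsq : Wf z ^ 2 = w ^ 2 := mul_right_cancel₀ hx hW
  rcases sq_eq_sq_iff_eq_or_eq_neg.mp hsq with h1 | h1
  · refine ⟨z, fun h2 => ?_, hX, h1⟩
    exact hw (by rw [← h1]; exact Wf_eq_zero_iff.mpr h2)
  · have h3 : Wf (-z) = w := by rw [Wf_neg, h1, neg_neg]
    refine ⟨-z, fun h2 => ?_, ?_, h3⟩
    · exact hw (by rw [← h3]; exact Wf_eq_zero_iff.mpr h2)
    · rw [← hX, Xf, Xf, weierstrassP_neg]

end MP79ab39
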