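import Pool.Agent.Lib_MP_79ab39_ag.Smooth
import Pool.Agent.Lib_MP_79ab39_ag.WBasic
import Pool.Agent.Lib_MP_79ab39_ag.Surj

/-!
Piece K: the surface is connected.
-/

open MvPolynomial Complex PeriodPair Filter Topology

namespace MP79ab39

namespace Conn

/-- the point with the given homogeneous coordinates -/
def mk (u0 u1 x0 x1 w0 w1 v0 v1 : ℂ) : Coord 2 → ℂ := fun p =>
  (![![u0, u1], ![x0, x1], ![w0, w1], ![v0, v1]] : Fin 4 → Fin 2 → ℂ) p.1 p.2

@[simp] lemma mk00 (u0 u1 x0 x1 w0 w1 v0 v1 : ℂ) :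
    mk u0 u1 x0 x1 w0 w1 v0 v1 (0, 0) = u0 := rfl
@[simp] lemma mk01 (u0 u1 x0 x1 w0 w1 v0 v1 : ℂ) :
    mk u0 u1 x0 x1 w0 w1 v0 v1 (0, 1) = u1 := rfl
@[simp] lemma mk10 (u0 u1 x0 x1 w0 w1 v0 v1 : ℂ) :
    mk u0 u1 x0 x1 w0 w1 v0 v1 (1, 0) = x0 := rfl
@[simp] lemma mk11 (u0 u1 x0 x1 w0 w1 v0 v1 : ℂ) :
    mk u0 u1 x0 x1 w0 w1 v0 v1 (1, 1) = x1 := rfl
@[simp] lemma mk20 (u0 u1 x0 x1 w0 w1 v0 v1 : ℂ) :
    mk u0 u1 x0 x1 w0 w1 v0 v1 (2, 0) = w0 := rfl
@[simp] lemma mk21 (u0 u1 x0 x1 w0 w1 v0 v1 : ℂ) :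
    mk u0 u1 x0 x1 w0 w1 v0 v1 (2, 1) = w1 := rfl
@[simp] lemma mk30 (u0 u1 x0 x1 w0 w1 v0 v1 : ℂ) :
    mk u0 u1 x0 x1 w0 w1 v0 v1 (3, 0) = v0 := rfl
@[simp] lemma mk31 (u0 u1 x0 x1 w0 w1 v0 v1 : ℂ) :
    mk u0 u1 x0 x1 w0 w1 v0 v1 (3, 1) = v1 := rfl

lemma mk_eta (x : Coord 2 → ℂ) :
    mk (x (0, 0)) (x (0, 1)) (x (1, 0)) (x (1, 1)) (x (2, 0)) (x (2, 1)) (x (3, 0)) (x (3, 1)) =
      x := by
  funext p
  obtain ⟨i, j⟩ := p
  fin_cases i <;> fin_cases j <;> rfl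

lemma tendsto_mk {α : Type*} {l : Filter α} {u0 u1 x0 x1 w0 w1 v0 v1 : α → ℂ}
    {a0 a1 b0 b1 c0 c1 d0 d1 : ℂ} (h00 : Tendsto u0 l (𝓝 a0)) (h01 : Tendsto u1 l (𝓝 a1))
    (h10 : Tendsto x0 l (𝓝 b0)) (h11 : Tendsto x1 l (𝓝 b1))
    (h20 : Tendsto w0 l (𝓝 c0)) (h21 : Tendsto w1 l (𝓝 c1))
    (h30 : Tendsto v0 l (𝓝 d0)) (h31 : Tendsto v1 l (𝓝 d1)) :
    Tendsto (fun t => mk (u0 t) (u1 t) (x0 t) (x1 t) (w0 t) (w1 t) (v0 t) (v1 t)) l
      (𝓝 (mk a0 a1 b0 b1 c0 c1 d0 d1)) := by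
  rw [tendsto_pi_nhds]
  rintro ⟨i, j⟩
  fin_cases i <;> fin_cases j
  · exact h00
  · exact h01
  · exact h10
  · exact h11
  · exact h20
  · exact h21
  · exact h30
  · exact h31

/-- `p(u)` -/
def pp (a b : ℂ) : ℂ := a * b * (a ^ 4 - b ^ 4)

/-- `q(u)` -/
def qq (a b : ℂ) : ℂ := 2 * a ^ 6 + b ^ 6

/-- the equations -/
def Eqs (x : Coord 2 → ℂ) : Prop :=
  ((x (0, 0) ≠ 0 ∨ x (0, 1) ≠ 0) ∧ (x (1, 0) ≠ 0 ∨ x (1, 1) ≠ 0) ∧
    (x (2, 0) ≠ 0 ∨ x (2, 1) ≠ 0) ∧ (x (3, 0) ≠ 0 ∨ x (3, 1) ≠ 0)) ∧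
  x (2, 0) ^ 2 * x (1, 0) * x (1, 1) = x (2, 1) ^ 2 * (x (1, 0) ^ 2 - x (1, 1) ^ 2) ∧
  x (3, 0) * qq (x (0, 0)) (x (0, 1)) * x (2, 1) = x (3, 1) * pp (x (0, 0)) (x (0, 1)) * x (2, 0)

/-- the surface -/
def SS : Set (Coord 2 → ℂ) := {x | Eqs x}

lemma set_eq : {x : Coord 2 → ℂ | IsPoint x ∧
    ∀ j, eval x ((![F1, F2] : Fin 2 → MvPolynomial (Coord 2) ℂ) j) = 0} = SS := by
  ext x
  simp only [SS, Eqs, Set.mem_ofPred_eq, IsPoint, Fin.forall_fin_two, Matrix.cons_val_zero,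
    Matrix.cons_val_one, F1, F2, pp, qq]
  have hpt : (∀ i : Fin (2 + 2), x (i, 0) ≠ 0 ∨ x (i, 1) ≠ 0) ↔
      ((x (0, 0) ≠ 0 ∨ x (0, 1) ≠ 0) ∧ (x (1, 0) ≠ 0 ∨ x (1, 1) ≠ 0) ∧
    (x (2, 0) ≠ 0 ∨ x (2, 1) ≠ 0) ∧ (x (3, 0) ≠ 0 ∨ x (3, 1) ≠ 0)) := by
    constructor
    · intro h
      exact ⟨h 0, h 1, h 2, h 3⟩
    · rintro ⟨h0, h1, h2, h3⟩ i
      fin_cases i
      · exact h0
      · exact h1
      · exact h2
      · exact h3
  rw [hpt]
  simp only [map_sub, map_mul, map_pow, eval_X, map_add, map_ofNat]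
  rw [sub_eq_zero, sub_eq_zero]

/-- the open part -/
def GG : Set (Coord 2 → ℂ) := {x | Eqs x ∧ x (2, 0) ≠ 0 ∧ x (2, 1) ≠ 0}

/-- the part where `v` is determined by `u`, `w` -/
def S1 : Set (Coord 2 → ℂ) := {x | Eqs x ∧
  (pp (x (0, 0)) (x (0, 1)) * x (2, 0) ≠ 0 ∨ qq (x (0, 0)) (x (0, 1)) * x (2, 1) ≠ 0)}

lemma pq_ne {a b : ℂ} (h : a ≠ 0 ∨ b ≠ 0) : pp a b ≠ 0 ∨ qq a b ≠ 0 := by
  by_contra hc
  push Not at hc
  obtain ⟨h1, h2⟩ := hc
  unfold pp at h1
  unfold qq at h2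
  have key : a ^ 12 = 0 ∧ b ^ 12 = 0 := by
    rcases mul_eq_zero.1 h1 with h3 | h3
    · rcases mul_eq_zero.1 h3 with h4 | h4
      · subst h4
        have : b ^ 6 = 0 := by linear_combination h2
        exact ⟨by norm_num, by linear_combination b ^ 6 * this⟩
      · subst h4
        have : a ^ 6 = 0 := by linear_combination h2 / 2
        exact ⟨by linear_combination a ^ 6 * this, by norm_num⟩
    · -- a^4 = b^4
      have h4 : a ^ 4 = b ^ 4 := sub_eq_zero.1 h3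
      have h5 : 2 * a ^ 6 = - b ^ 6 := by linear_combination h2
      have h6 : 4 * a ^ 12 = b ^ 12 := by
        have : (2 * a ^ 6) ^ 2 = (- b ^ 6) ^ 2 := by rw [h5]
        linear_combination this
      have h7 : a ^ 12 = b ^ 12 := by
        have : (a ^ 4) ^ 3 = (b ^ 4) ^ 3 := by rw [h4]
        linear_combination this
      exact ⟨by linear_combination (h6 - h7) / 3, by linear_combination (h6 - 4 * h7) / 3⟩
  rcases h with h | h
  · exact h (pow_eq_zero_iff (by norm_num) |>.1 key.1)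
  · exact h (pow_eq_zero_iff (by norm_num) |>.1 key.2)

lemma GG_sub_S1 : GG ⊆ S1 := by
  rintro x ⟨hx, h0, h1⟩
  refine ⟨hx, ?_⟩
  rcases pq_ne hx.1.1 with h | h
  · left; exact mul_ne_zero h h0
  · right; exact mul_ne_zero h h1

lemma S1_sub_SS : S1 ⊆ SS := fun _ hx => hx.1

/-- in `S1` the coordinates `v` are proportional to `(p w0, q w1)` -/
lemma exists_coef {x : Coord 2 → ℂ} (hx : x ∈ S1) : ∃ c : ℂ, c ≠ 0 ∧
    x (3, 0) = c * (pp (x (0, 0)) (x (0, 1)) * x (2, 0)) ∧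
    x (3, 1) = c * (qq (x (0, 0)) (x (0, 1)) * x (2, 1)) := by
  obtain ⟨⟨⟨_, _, _, hv⟩, _, h2⟩, h⟩ := hx
  set A := pp (x (0, 0)) (x (0, 1)) * x (2, 0) with hA
  set B := qq (x (0, 0)) (x (0, 1)) * x (2, 1) with hB
  have h2' : x (3, 0) * B = x (3, 1) * A := by rw [hA, hB]; linear_combination h2
  rcases h with h | h
  · refine ⟨x (3, 0) / A, ?_, ?_, ?_⟩
    · intro hc
      rw [div_eq_zero_iff] at hc
      rcases hc with hc | hc
      · rw [hc, zero_mul] at h2'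
        rcases mul_eq_zero.1 h2'.symm with h3 | h3
        · rcases hv with hv | hv
          · exact hv hc
          · exact hv h3
        · exact h h3
      · exact h hc
    · field_simp
    · field_simp
      linear_combination -h2'
  · refine ⟨x (3, 1) / B, ?_, ?_, ?_⟩
    · intro hc
      rw [div_eq_zero_iff] at hc
      rcases hc with hc | hc
      · rw [hc, zero_mul] at h2'
        rcases mul_eq_zero.1 h2' with h3 | h3
        · rcases hv with hv | hv
          · exact hv h3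
          · exact hv hc
        · exact h h3
      · exact h hc
    · field_simp
      linear_combination h2'
    · field_simp

lemma exists_sqrt (z : ℂ) : ∃ r : ℂ, r ^ 2 = z :=
  ⟨z ^ ((1 : ℂ) / 2), by
    rw [← Complex.cpow_nat_mul]
    norm_num⟩

lemma tendsto_sqrt {r s : ℕ → ℂ} (h : ∀ n, r n ^ 2 = s n) (hs : Tendsto s atTop (𝓝 0)) :
    Tendsto r atTop (𝓝 0) := by
  rw [tendsto_zero_iff_norm_tendsto_zero] at hs ⊢
  have h1 : ∀ n, ‖r n‖ = Real.sqrt ‖s n‖ := by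
    intro n
    rw [← h n, norm_pow, Real.sqrt_sq (norm_nonneg _)]
  simp_rw [h1]
  have := (Real.continuous_sqrt.tendsto 0).comp hs
  rwa [Real.sqrt_zero] at this

/-- points of the curve `w² x = x² - 1` are limits of points with `w ≠ 0, ∞` -/
lemma curve_approx {x0 x1 w0 w1 : ℂ} (hx : x0 ≠ 0 ∨ x1 ≠ 0) (hw : w0 ≠ 0 ∨ w1 ≠ 0)
    (h : w0 ^ 2 * x0 * x1 = w1 ^ 2 * (x0 ^ 2 - x1 ^ 2)) :
    ∃ X0 X1 W0 W1 : ℕ → ℂ, Tendsto X0 atTop (𝓝 x0) ∧ Tendsto X1 atTop (𝓝 x1) ∧
      Tendsto W0 atTop (𝓝 w0) ∧ Tendsto W1 atTop (𝓝 w1) ∧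
      ∀ n, X0 n ≠ 0 ∧ X1 n ≠ 0 ∧ W0 n ≠ 0 ∧ W1 n ≠ 0 ∧
        W0 n ^ 2 * X0 n * X1 n = W1 n ^ 2 * (X0 n ^ 2 - X1 n ^ 2) := by
  have hε : Tendsto (fun n : ℕ => (1 : ℂ) / ((n : ℂ) + 2)) atTop (𝓝 0) := by
    have h1 := (tendsto_one_div_add_atTop_nhds_zero_nat (𝕜 := ℂ)).comp (tendsto_add_atTop_nat 1)
    refine h1.congr (fun n => ?_)
    simp only [Function.comp]
    push_cast
    ring_nf
  have hn2 : ∀ n : ℕ, (n : ℂ) + 2 ≠ 0 := fun n => by
    have : ((n + 2 : ℕ) : ℂ) ≠ 0 := Nat.cast_ne_zero.2 (by omega)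
    push_cast at this
    exact this
  have hn1 : ∀ n : ℕ, (n : ℂ) + 1 ≠ 0 := fun n => Nat.cast_add_one_ne_zero n
  have hn3 : ∀ n : ℕ, (n : ℂ) + 3 ≠ 0 := fun n => by
    have : ((n + 3 : ℕ) : ℂ) ≠ 0 := Nat.cast_ne_zero.2 (by omega)
    push_cast at this
    exact this
  have hn5 : ∀ n : ℕ, 2 * (n : ℂ) + 5 ≠ 0 := fun n => by
    have : ((2 * n + 5 : ℕ) : ℂ) ≠ 0 := Nat.cast_ne_zero.2 (by omega)
    push_cast at this
    exact this
  -- `e_n = 1/(n+2)`, `e_n ≠ 0`, `1 - e_n² ≠ 0`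
  have he0 : ∀ n : ℕ, (1 : ℂ) / ((n : ℂ) + 2) ≠ 0 := fun n => div_ne_zero one_ne_zero (hn2 n)
  have he1 : ∀ n : ℕ, 1 - ((1 : ℂ) / ((n : ℂ) + 2)) ^ 2 ≠ 0 := by
    intro n hc
    have h3 : ((n : ℂ) + 1) * ((n : ℂ) + 3) = 0 := by
      have := hn2 n
      field_simp at hc
      linear_combination hc
    rcases mul_eq_zero.1 h3 with h4 | h4
    · exact hn1 n h4
    · exact hn3 n h4
  have hlim : Tendsto (fun n : ℕ => ((1 : ℂ) / ((n : ℂ) + 2)) /
      (1 - ((1 : ℂ) / ((n : ℂ) + 2)) ^ 2)) atTop (𝓝 0) := by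
    have h1 : Tendsto (fun n : ℕ => 1 - ((1 : ℂ) / ((n : ℂ) + 2)) ^ 2) atTop (𝓝 (1 - 0 ^ 2)) :=
      tendsto_const_nhds.sub (hε.pow 2)
    have h2 := hε.div h1 (by norm_num)
    have h3 : (0 : ℂ) / (1 - 0 ^ 2) = 0 := by norm_num
    rw [h3] at h2
    exact h2
  by_cases hw1 : w1 = 0
  · -- `w1 = 0`
    subst hw1
    have hw0 : w0 ≠ 0 := by
      rcases hw with h' | h'
      · exact h'
      · exact absurd rfl h'
    have hx01 : x0 * x1 = 0 := by
      have : w0 ^ 2 * (x0 * x1) = 0 := by linear_combination h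
      rcases mul_eq_zero.1 this with h' | h'
      · exact absurd h' (pow_ne_zero _ hw0)
      · exact h'
    rcases mul_eq_zero.1 hx01 with hx0 | hx1
    · -- `x0 = 0`: x = -e
      subst hx0
      have hx1 : x1 ≠ 0 := by
        rcases hx with h' | h'
        · exact absurd rfl h'
        · exact h'
      choose r hr using fun n : ℕ => exists_sqrt (((1 : ℂ) / ((n : ℂ) + 2)) /
        (1 - ((1 : ℂ) / ((n : ℂ) + 2)) ^ 2))
      have hr0 := tendsto_sqrt hr hlim
      refine ⟨fun n => - ((1 : ℂ) / ((n : ℂ) + 2)) * x1, fun _ => x1, fun _ => w0,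
        fun n => r n * w0, ?_, tendsto_const_nhds, tendsto_const_nhds, ?_, ?_⟩
      · simpa using hε.neg.mul_const x1
      · simpa using hr0.mul_const w0
      · intro n
        have hrn : r n ≠ 0 := by
          intro hc
          have := hr n
          rw [hc] at this
          have h5 := div_ne_zero (he0 n) (he1 n)
          exact h5 (by rw [← this]; norm_num)
        refine ⟨mul_ne_zero (neg_ne_zero.2 (he0 n)) hx1, hx1, hw0, mul_ne_zero hrn hw0, ?_⟩
        have h6 := hr n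
        rw [eq_div_iff (he1 n)] at h6
        linear_combination (w0 ^ 2 * x1 ^ 2) * h6
    · -- `x1 = 0`
      subst hx1
      have hx0 : x0 ≠ 0 := by
        rcases hx with h' | h'
        · exact h'
        · exact absurd rfl h'
      choose r hr using fun n : ℕ => exists_sqrt (((1 : ℂ) / ((n : ℂ) + 2)) /
        (1 - ((1 : ℂ) / ((n : ℂ) + 2)) ^ 2))
      have hr0 := tendsto_sqrt hr hlim
      refine ⟨fun _ => x0, fun n => ((1 : ℂ) / ((n : ℂ) + 2)) * x0, fun _ => w0,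
        fun n => r n * w0, tendsto_const_nhds, ?_, tendsto_const_nhds, ?_, ?_⟩
      · simpa using hε.mul_const x0
      · simpa using hr0.mul_const w0
      · intro n
        have hrn : r n ≠ 0 := by
          intro hc
          have := hr n
          rw [hc] at this
          have h5 := div_ne_zero (he0 n) (he1 n)
          exact h5 (by rw [← this]; norm_num)
        refine ⟨hx0, mul_ne_zero (he0 n) hx0, hw0, mul_ne_zero hrn hw0, ?_⟩
        have h6 := hr n
        rw [eq_div_iff (he1 n)] at h6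
        linear_combination (-(w0 ^ 2 * x0 ^ 2)) * h6
  · by_cases hw0 : w0 = 0
    · subst hw0
      -- `x0² = x1²`
      have hsq : x0 ^ 2 = x1 ^ 2 := by
        have : w1 ^ 2 * (x0 ^ 2 - x1 ^ 2) = 0 := by linear_combination -h
        rcases mul_eq_zero.1 this with h' | h'
        · exact absurd h' (pow_ne_zero _ hw1)
        · exact sub_eq_zero.1 h'
      have hx0 : x0 ≠ 0 := by
        intro hc
        rw [hc] at hsq
        have : x1 = 0 := by
          have h3 : x1 ^ 2 = 0 := by rw [← hsq]; norm_num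
          exact pow_eq_zero_iff (by norm_num) |>.1 h3
        rcases hx with h' | h'
        · exact h' hc
        · exact h' this
      have hx1 : x1 ≠ 0 := by
        intro hc
        rw [hc] at hsq
        exact hx0 (pow_eq_zero_iff (by norm_num : (2:ℕ) ≠ 0) |>.1 (by rw [hsq]; norm_num))
      -- `X0 = (1 + e) x0`, `W0² = w1² (X0² - x1²)/(X0 x1) = w1² ((1+e) - 1/(1+e)) x0/x1`
      have h1e : ∀ n : ℕ, 1 + (1 : ℂ) / ((n : ℂ) + 2) ≠ 0 := by
        intro n hc
        have := hn2 n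
        field_simp at hc
        exact hn3 n (by linear_combination hc)
      have h2e : ∀ n : ℕ, 2 + (1 : ℂ) / ((n : ℂ) + 2) ≠ 0 := by
        intro n hc
        have := hn2 n
        field_simp at hc
        exact hn5 n (by linear_combination hc)
      choose r hr using fun n : ℕ => exists_sqrt (((1 : ℂ) / ((n : ℂ) + 2)) *
        (2 + (1 : ℂ) / ((n : ℂ) + 2)) / (1 + (1 : ℂ) / ((n : ℂ) + 2)) * (x0 / x1))
      have hlim2 : Tendsto (fun n : ℕ => ((1 : ℂ) / ((n : ℂ) + 2)) *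
        (2 + (1 : ℂ) / ((n : ℂ) + 2)) / (1 + (1 : ℂ) / ((n : ℂ) + 2)) * (x0 / x1)) atTop
          (𝓝 0) := by
        have h1 : Tendsto (fun n : ℕ => ((1 : ℂ) / ((n : ℂ) + 2)) *
          (2 + (1 : ℂ) / ((n : ℂ) + 2))) atTop (𝓝 (0 * (2 + 0))) :=
          hε.mul (tendsto_const_nhds.add hε)
        have h2 : Tendsto (fun n : ℕ => (1 + (1 : ℂ) / ((n : ℂ) + 2))) atTop (𝓝 (1 + 0)) :=
          tendsto_const_nhds.add hε
        have h3 := (h1.div h2 (by norm_num)).mul_const (x0 / x1)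
        simpa using h3
      have hr0 := tendsto_sqrt hr hlim2
      refine ⟨fun n => (1 + (1 : ℂ) / ((n : ℂ) + 2)) * x0, fun _ => x1, fun n => r n * w1,
        fun _ => w1, ?_, tendsto_const_nhds, ?_, tendsto_const_nhds, ?_⟩
      · have h2 : Tendsto (fun n : ℕ => (1 + (1 : ℂ) / ((n : ℂ) + 2))) atTop (𝓝 (1 + 0)) :=
          tendsto_const_nhds.add hε
        simpa using h2.mul_const x0
      · simpa using hr0.mul_const w1
      · intro n
        have hrn : r n ≠ 0 := by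
          intro hc
          have := hr n
          rw [hc] at this
          have h5 := mul_ne_zero (div_ne_zero (mul_ne_zero (he0 n) (h2e n)) (h1e n))
            (div_ne_zero hx0 hx1)
          exact h5 (by rw [← this]; norm_num)
        refine ⟨mul_ne_zero (h1e n) hx0, hx1, mul_ne_zero hrn hw1, hw1, ?_⟩
        have h6 := hr n
        set e := (1 : ℂ) / ((n : ℂ) + 2) with he
        have h7 : r n ^ 2 * ((1 + e) * x1) = e * (2 + e) * x0 := by
          have h1' : 1 + e ≠ 0 := h1e n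
          rw [h6]
          field_simp
        linear_combination (w1 ^ 2 * x0) * h7 - w1 ^ 2 * hsq
    · -- constant
      have hx01 : x0 ≠ 0 ∧ x1 ≠ 0 := by
        constructor
        · intro hc
          subst hc
          have h3 : w1 ^ 2 * x1 ^ 2 = 0 := by linear_combination h
          rcases mul_eq_zero.1 h3 with h' | h'
          · exact hw1 (pow_eq_zero_iff (by norm_num) |>.1 h')
          · rcases hx with h'' | h''
            · exact h'' rfl
            · exact h'' (pow_eq_zero_iff (by norm_num) |>.1 h')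
        · intro hc
          subst hc
          have h3 : w1 ^ 2 * x0 ^ 2 = 0 := by linear_combination -h
          rcases mul_eq_zero.1 h3 with h' | h'
          · exact hw1 (pow_eq_zero_iff (by norm_num) |>.1 h')
          · rcases hx with h'' | h''
            · exact h'' (pow_eq_zero_iff (by norm_num) |>.1 h')
            · exact h'' rfl
      exact ⟨fun _ => x0, fun _ => x1, fun _ => w0, fun _ => w1, tendsto_const_nhds,
        tendsto_const_nhds, tendsto_const_nhds, tendsto_const_nhds,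
        fun _ => ⟨hx01.1, hx01.2, hw0, hw1, h⟩⟩

lemma S1_sub_closure : S1 ⊆ closure GG := by
  intro x hx
  obtain ⟨c, hc, hv0, hv1⟩ := exists_coef hx
  have hE := hx.1
  obtain ⟨X0, X1, W0, W1, hX0, hX1, hW0, hW1, hn⟩ := curve_approx hE.1.2.1 hE.1.2.2.1 hE.2.1
  rw [mem_closure_iff_seq_limit]
  refine ⟨fun n => mk (x (0, 0)) (x (0, 1)) (X0 n) (X1 n) (W0 n) (W1 n)
    (c * (pp (x (0, 0)) (x (0, 1)) * W0 n)) (c * (qq (x (0, 0)) (x (0, 1)) * W1 n)), ?_, ?_⟩
  · intro n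
    obtain ⟨h1, h2, h3, h4, h5⟩ := hn n
    refine ⟨⟨⟨hE.1.1, Or.inl h1, Or.inl h3, ?_⟩, ?_, ?_⟩, h3, h4⟩
    · simp only [mk30, mk31]
      rcases pq_ne hE.1.1 with h | h
      · left; exact mul_ne_zero hc (mul_ne_zero h h3)
      · right; exact mul_ne_zero hc (mul_ne_zero h h4)
    · simpa using h5
    · simp only [mk30, mk31, mk00, mk01, mk20, mk21]
      ring
  · have : x = mk (x (0, 0)) (x (0, 1)) (x (1, 0)) (x (1, 1)) (x (2, 0)) (x (2, 1))
        (c * (pp (x (0, 0)) (x (0, 1)) * x (2, 0))) (c * (qq (x (0, 0)) (x (0, 1)) * x (2, 1))) := by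
      rw [← hv0, ← hv1, mk_eta]
    rw [this]
    simp only [mk00, mk01]
    exact tendsto_mk tendsto_const_nhds tendsto_const_nhds hX0 hX1 hW0 hW1
      ((hW0.const_mul _).const_mul _) ((hW1.const_mul _).const_mul _)

/-! ### the open part is preconnected -/

lemma two_mul_hh : (2 : ℂ) * hh ∈ Lq.lattice := by
  rw [mem_Lq]
  refine ⟨1, 1, ?_⟩
  unfold hh
  push_cast
  ring

lemma not_mem_of {z : ℂ} (hz : 2 * z ∉ Lq.lattice) : z ∉ Lq.lattice ∧ z - hh ∉ Lq.lattice := by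
  constructor
  · intro h
    apply hz
    rw [two_mul]
    exact add_mem h h
  · intro h
    apply hz
    have : 2 * z = (z - hh) + (z - hh) + 2 * hh := by ring
    rw [this]
    exact add_mem (add_mem h h) two_mul_hh

lemma countable_lattice : ({z : ℂ | 2 * z ∈ Lq.lattice} : Set ℂ).Countable := by
  have h1 : ({z : ℂ | 2 * z ∈ Lq.lattice} : Set ℂ) ⊆
      Set.range (fun p : ℤ × ℤ => ((p.1 : ℂ) + p.2 * Complex.I) / 2) := by
    intro z hz
    obtain ⟨a, b, h⟩ := mem_Lq.1 hz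
    refine ⟨(a, b), ?_⟩
    simp only
    rw [← h]
    ring
  exact (Set.countable_range _).mono h1

lemma GG_image : GG ⊆ (fun t : (ℂ × ℂ) × ℂ × ℂ × ℂ × ℂ =>
    mk t.1.1 t.1.2 (t.2.2.1 * Xf t.2.1) t.2.2.1 (t.2.2.2.1 * Wf t.2.1) t.2.2.2.1
      (t.2.2.2.2 * (pp t.1.1 t.1.2 * Wf t.2.1)) (t.2.2.2.2 * qq t.1.1 t.1.2)) ''
    (({(0, 0)}ᶜ : Set (ℂ × ℂ)) ×ˢ (({z : ℂ | 2 * z ∈ Lq.lattice}ᶜ : Set ℂ) ×ˢ
      (({0}ᶜ : Set ℂ) ×ˢ (({0}ᶜ : Set ℂ) ×ˢ ({0}ᶜ : Set ℂ))))) := by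
  intro x hx
  obtain ⟨c, hc, hv0, hv1⟩ := exists_coef (GG_sub_S1 hx)
  obtain ⟨⟨⟨hu, hx01, _, hv⟩, h1, h2⟩, hw0, hw1⟩ := hx
  have hx1 : x (1, 1) ≠ 0 := by
    intro h
    rw [h] at h1
    have h3 : x (2, 1) ^ 2 * x (1, 0) ^ 2 = 0 := by linear_combination -h1
    rcases mul_eq_zero.1 h3 with h' | h'
    · exact hw1 (pow_eq_zero_iff (by norm_num) |>.1 h')
    · rcases hx01 with h'' | h''
      · exact h'' (pow_eq_zero_iff (by norm_num) |>.1 h')
      · exact h'' h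
  have hx0 : x (1, 0) ≠ 0 := by
    intro h
    rw [h] at h1
    have h3 : x (2, 1) ^ 2 * x (1, 1) ^ 2 = 0 := by linear_combination h1
    rcases mul_eq_zero.1 h3 with h' | h'
    · exact hw1 (pow_eq_zero_iff (by norm_num) |>.1 h')
    · exact hx1 (pow_eq_zero_iff (by norm_num) |>.1 h')
  obtain ⟨z, hz, hX, hW⟩ := XW_surjective (x := x (1, 0) / x (1, 1)) (w := x (2, 0) / x (2, 1))
    (div_ne_zero hx0 hx1) (div_ne_zero hw0 hw1) (by
      field_simp
      linear_combination h1)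
  refine ⟨((x (0, 0), x (0, 1)), z, x (1, 1), x (2, 1), c * x (2, 1)), ?_, ?_⟩
  · refine ⟨?_, hz, hx1, hw1, mul_ne_zero hc hw1⟩
    simp only [Set.mem_compl_iff, Set.mem_singleton_iff, Prod.mk.injEq, not_and_or]
    exact hu
  · simp only
    rw [hX, hW]
    have e1 : x (1, 1) * (x (1, 0) / x (1, 1)) = x (1, 0) := by field_simp
    have e2 : x (2, 1) * (x (2, 0) / x (2, 1)) = x (2, 0) := by field_simp
    have e3 : c * x (2, 1) * (pp (x (0, 0)) (x (0, 1)) * (x (2, 0) / x (2, 1))) = x (3, 0) := by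
      rw [hv0]
      field_simp
    have e4 : c * x (2, 1) * qq (x (0, 0)) (x (0, 1)) = x (3, 1) := by
      rw [hv1]
      ring
    rw [e1, e2, e3, e4, mk_eta]

lemma image_GG : (fun t : (ℂ × ℂ) × ℂ × ℂ × ℂ × ℂ =>
    mk t.1.1 t.1.2 (t.2.2.1 * Xf t.2.1) t.2.2.1 (t.2.2.2.1 * Wf t.2.1) t.2.2.2.1
      (t.2.2.2.2 * (pp t.1.1 t.1.2 * Wf t.2.1)) (t.2.2.2.2 * qq t.1.1 t.1.2)) ''
    (({(0, 0)}ᶜ : Set (ℂ × ℂ)) ×ˢ (({z : ℂ | 2 * z ∈ Lq.lattice}ᶜ : Set ℂ) ×ˢ
      (({0}ᶜ : Set ℂ) ×ˢ (({0}ᶜ : Set ℂ) ×ˢ ({0}ᶜ : Set ℂ))))) ⊆ GG := by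
  rintro _ ⟨⟨⟨u0, u1⟩, z, a, b, c⟩, ⟨hu, hz, ha, hb, hc⟩, rfl⟩
  simp only [Set.mem_compl_iff, Set.mem_singleton_iff, Prod.mk.injEq, not_and_or,
    Set.mem_ofPred_eq] at hu hz ha hb hc
  obtain ⟨hz1, hz2⟩ := not_mem_of hz
  have hW : Wf z ≠ 0 := fun h => hz (Wf_eq_zero_iff.1 h)
  have hWX := Wf_sq_mul_Xf hz1 hz2
  refine ⟨⟨⟨hu, Or.inr ha, Or.inr hb, ?_⟩, ?_, ?_⟩, ?_, ?_⟩
  · simp only [mk30, mk31]
    rcases pq_ne hu with h | h
    · left; exact mul_ne_zero hc (mul_ne_zero h hW)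
    · right; exact mul_ne_zero hc h
  · simp only [mk20, mk21, mk10, mk11]
    linear_combination (b ^ 2 * a ^ 2) * hWX
  · simp only [mk30, mk31, mk00, mk01, mk20, mk21]
    ring
  · exact mul_ne_zero hb hW
  · exact hb

lemma GG_preconnected : IsPreconnected GG := by
  have hEq := Set.Subset.antisymm GG_image image_GG
  rw [hEq]
  apply IsPreconnected.image
  · apply IsPreconnected.prod
    · exact (isConnected_compl_singleton_of_one_lt_rank (by
        rw [← Module.finrank_eq_rank]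
        simp only [Module.finrank_prod, Complex.finrank_real_complex]
        norm_num) _).isPreconnected
    · apply IsPreconnected.prod
      · exact (Set.Countable.isConnected_compl_of_one_lt_rank (by
          rw [← Module.finrank_eq_rank]
          simp only [Complex.finrank_real_complex]
          norm_num) countable_lattice).isPreconnected
      · have h0 : IsPreconnected ({0}ᶜ : Set ℂ) :=
          (isConnected_compl_singleton_of_one_lt_rank (by
            rw [← Module.finrank_eq_rank]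
            simp only [Complex.finrank_real_complex]
            norm_num) _).isPreconnected
        exact h0.prod (h0.prod h0)
  · have hXc : ContinuousOn Xf ({z : ℂ | 2 * z ∈ Lq.lattice}ᶜ) := fun z hz =>
      (Xf_analyticAt (not_mem_of hz).1).continuousAt.continuousWithinAt
    have hWc : ContinuousOn Wf ({z : ℂ | 2 * z ∈ Lq.lattice}ᶜ) := fun z hz =>
      (Wf_analyticAt (not_mem_of hz).1 (not_mem_of hz).2).continuousAt.continuousWithinAt
    set D := (({(0, 0)}ᶜ : Set (ℂ × ℂ)) ×ˢ (({z : ℂ | 2 * z ∈ Lq.lattice}ᶜ : Set ℂ) ×ˢ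
      (({0}ᶜ : Set ℂ) ×ˢ (({0}ᶜ : Set ℂ) ×ˢ ({0}ᶜ : Set ℂ))))) with hD
    have hXc' : ContinuousOn (fun t : (ℂ × ℂ) × ℂ × ℂ × ℂ × ℂ => Xf t.2.1) D :=
      hXc.comp (by fun_prop) (fun t ht => ht.2.1)
    have hWc' : ContinuousOn (fun t : (ℂ × ℂ) × ℂ × ℂ × ℂ × ℂ => Wf t.2.1) D :=
      hWc.comp (by fun_prop) (fun t ht => ht.2.1)
    intro t ht
    have hX := hXc' t ht
    have hW := hWc' t ht
    have hpp : ContinuousWithinAt (fun t : (ℂ × ℂ) × ℂ × ℂ × ℂ × ℂ => pp t.1.1 t.1.2) D t := by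
      unfold pp
      fun_prop
    have hqq : ContinuousWithinAt (fun t : (ℂ × ℂ) × ℂ × ℂ × ℂ × ℂ => qq t.1.1 t.1.2) D t := by
      unfold qq
      fun_prop
    exact tendsto_mk (by fun_prop : ContinuousWithinAt
        (fun t : (ℂ × ℂ) × ℂ × ℂ × ℂ × ℂ => t.1.1) D t)
      (by fun_prop : ContinuousWithinAt (fun t : (ℂ × ℂ) × ℂ × ℂ × ℂ × ℂ => t.1.2) D t)
      (ContinuousWithinAt.mul (by fun_prop) hX)
      (by fun_prop : ContinuousWithinAt (fun t : (ℂ × ℂ) × ℂ × ℂ × ℂ × ℂ => t.2.2.1) D t)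
      (ContinuousWithinAt.mul (by fun_prop) hW)
      (by fun_prop : ContinuousWithinAt (fun t : (ℂ × ℂ) × ℂ × ℂ × ℂ × ℂ => t.2.2.2.1) D t)
      (ContinuousWithinAt.mul (by fun_prop) (hpp.mul hW))
      (ContinuousWithinAt.mul (by fun_prop) hqq)

lemma S1_preconnected : IsPreconnected S1 :=
  GG_preconnected.subset_closure GG_sub_S1 S1_sub_closure

/-! ### the exceptional points -/

lemma finite_pp (u0 u1 : ℂ) : {t : ℂ | pp (u0 + t) (u1 + 2 * t) = 0}.Finite := by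
  have hsub : {t : ℂ | pp (u0 + t) (u1 + 2 * t) = 0} ⊆
      {-u0, -u1 / 2, u0 - u1, -(u0 + u1) / 3, (Complex.I * u1 - u0) / (1 - 2 * Complex.I),
        (-Complex.I * u1 - u0) / (1 + 2 * Complex.I)} := by
    intro t ht
    simp only [Set.mem_ofPred_eq, pp] at ht
    have h1 : (1 - 2 * Complex.I : ℂ) ≠ 0 := by
      intro h
      have := congrArg Complex.re h
      simp at this
    have h2 : (1 + 2 * Complex.I : ℂ) ≠ 0 := by
      intro h
      have := congrArg Complex.re h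
      simp at this
    simp only [Set.mem_insert_iff, Set.mem_singleton_iff]
    have hfac : (u0 + t) * (u1 + 2 * t) * ((u0 + t) - (u1 + 2 * t)) * ((u0 + t) + (u1 + 2 * t)) *
        ((u0 + t) - Complex.I * (u1 + 2 * t)) * ((u0 + t) + Complex.I * (u1 + 2 * t)) = 0 := by
      have hI : Complex.I ^ 2 = -1 := Complex.I_sq
      linear_combination ht - (u0 + t) * (u1 + 2 * t) * ((u0 + t) ^ 2 - (u1 + 2 * t) ^ 2) *
        (u1 + 2 * t) ^ 2 * hI
    rcases mul_eq_zero.1 hfac with h | h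
    · rcases mul_eq_zero.1 h with h | h
      · rcases mul_eq_zero.1 h with h | h
        · rcases mul_eq_zero.1 h with h | h
          · rcases mul_eq_zero.1 h with h | h
            · left; linear_combination h
            · right; left; linear_combination h / 2
          · right; right; left; linear_combination -h
        · right; right; right; left; linear_combination h / 3
      · right; right; right; right; left
        rw [eq_div_iff h1]
        linear_combination h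
    · right; right; right; right; right
      rw [eq_div_iff h2]
      linear_combination h
  exact (Set.toFinite _).subset hsub

lemma finite_qq (u0 u1 : ℂ) : {t : ℂ | qq (u0 + t) u1 = 0}.Finite := by
  have h1 : {z : ℂ | z ^ 6 = -u1 ^ 6 / 2}.Finite := by
    have h2 : {z : ℂ | z ^ 6 = -u1 ^ 6 / 2} ⊆
        ((Polynomial.nthRoots 6 (-u1 ^ 6 / 2)).toFinset : Set ℂ) := by
      intro z hz
      simp only [Finset.mem_coe, Multiset.mem_toFinset]
      rw [Polynomial.mem_nthRoots (by norm_num)]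
      exact hz
    exact (Finset.finite_toSet _).subset h2
  have h3 := h1.preimage (f := fun t : ℂ => u0 + t) ((add_right_injective u0).injOn)
  refine h3.subset ?_
  intro t ht
  simp only [Set.mem_ofPred_eq, qq, Set.mem_preimage] at ht ⊢
  linear_combination ht / 2

lemma zero_mem_closure {s : Set ℂ} (hs : s.Finite) : (0 : ℂ) ∈ closure sᶜ :=
  (hs.countable.dense_compl ℝ) 0

/-- the points where `v` is free -/
lemma free_point {x : Coord 2 → ℂ} (hx : x ∈ SS) (hx1 : x ∉ S1) :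
    ∃ y ∈ closure S1, y ∈ SS ∧ ∃ t ⊆ SS, x ∈ t ∧ y ∈ t ∧ IsPreconnected t := by
  have hE : Eqs x := hx
  have h0 : pp (x (0, 0)) (x (0, 1)) * x (2, 0) = 0 ∧
      qq (x (0, 0)) (x (0, 1)) * x (2, 1) = 0 := by
    by_contra hc
    apply hx1
    refine ⟨hE, ?_⟩
    rcases not_and_or.1 hc with h | h
    · left; exact h
    · right; exact h
  obtain ⟨⟨hu, hX, hW, hV⟩, e1, e2⟩ := hE
  -- the family with `v` free
  have hfam : ∀ a b : ℂ, (a ≠ 0 ∨ b ≠ 0) →
      mk (x (0, 0)) (x (0, 1)) (x (1, 0)) (x (1, 1)) (x (2, 0)) (x (2, 1)) a b ∈ SS := by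
    intro a b hab
    refine ⟨⟨hu, hX, hW, hab⟩, e1, ?_⟩
    simp only [mk30, mk31, mk00, mk01, mk20, mk21]
    linear_combination a * h0.2 - b * h0.1
  have hpre : IsPreconnected ((fun t : ℂ × ℂ => mk (x (0, 0)) (x (0, 1)) (x (1, 0)) (x (1, 1))
      (x (2, 0)) (x (2, 1)) t.1 t.2) '' ({(0, 0)}ᶜ : Set (ℂ × ℂ))) := by
    apply IsPreconnected.image
    · exact (isConnected_compl_singleton_of_one_lt_rank (by
        rw [← Module.finrank_eq_rank]
        simp only [Module.finrank_prod, Complex.finrank_real_complex]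
        norm_num) _).isPreconnected
    · intro t _
      exact tendsto_mk tendsto_const_nhds tendsto_const_nhds tendsto_const_nhds
        tendsto_const_nhds tendsto_const_nhds tendsto_const_nhds
        (by fun_prop : ContinuousWithinAt (fun t : ℂ × ℂ => t.1) _ t)
        (by fun_prop : ContinuousWithinAt (fun t : ℂ × ℂ => t.2) _ t)
  have hsub : ((fun t : ℂ × ℂ => mk (x (0, 0)) (x (0, 1)) (x (1, 0)) (x (1, 1))
      (x (2, 0)) (x (2, 1)) t.1 t.2) '' ({(0, 0)}ᶜ : Set (ℂ × ℂ))) ⊆ SS := by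
    rintro _ ⟨⟨a, b⟩, hab, rfl⟩
    simp only [Set.mem_compl_iff, Set.mem_singleton_iff, Prod.mk.injEq, not_and_or] at hab
    exact hfam a b hab
  have hxmem : x ∈ ((fun t : ℂ × ℂ => mk (x (0, 0)) (x (0, 1)) (x (1, 0)) (x (1, 1))
      (x (2, 0)) (x (2, 1)) t.1 t.2) '' ({(0, 0)}ᶜ : Set (ℂ × ℂ))) := by
    refine ⟨(x (3, 0), x (3, 1)), ?_, mk_eta x⟩
    simp only [Set.mem_compl_iff, Set.mem_singleton_iff, Prod.mk.injEq, not_and_or]
    exact hV
  by_cases hw1 : x (2, 1) = 0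
  · -- `w1 = 0`, `p = 0`
    have hw0 : x (2, 0) ≠ 0 := by
      rcases hW with h | h
      · exact h
      · exact absurd hw1 h
    refine ⟨mk (x (0, 0)) (x (0, 1)) (x (1, 0)) (x (1, 1)) (x (2, 0)) (x (2, 1)) 1 0, ?_,
      hfam 1 0 (Or.inl one_ne_zero), _, hsub, hxmem, ?_, hpre⟩
    · have hcl := zero_mem_closure (finite_pp (x (0, 0)) (x (0, 1)))
      have hcont : ContinuousAt (fun t : ℂ => mk (x (0, 0) + t) (x (0, 1) + 2 * t) (x (1, 0))
          (x (1, 1)) (x (2, 0)) (x (2, 1)) 1 0) 0 := by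
        exact tendsto_mk (by fun_prop : ContinuousAt (fun t : ℂ => x (0, 0) + t) 0)
          (by fun_prop : ContinuousAt (fun t : ℂ => x (0, 1) + 2 * t) 0)
          tendsto_const_nhds tendsto_const_nhds tendsto_const_nhds tendsto_const_nhds
          tendsto_const_nhds tendsto_const_nhds
      have himg := hcont.continuousWithinAt.mem_closure_image hcl
      simp only [add_zero, mul_zero] at himg
      refine closure_mono ?_ himg
      rintro _ ⟨t, ht, rfl⟩
      have hp : pp (x (0, 0) + t) (x (0, 1) + 2 * t) ≠ 0 := ht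
      refine ⟨⟨⟨?_, hX, hW, Or.inl one_ne_zero⟩, e1, ?_⟩, ?_⟩
      · simp only [mk00, mk01]
        by_contra hc
        push Not at hc
        apply hp
        rw [hc.1]
        simp [pp]
      · simp only [mk30, mk31, mk00, mk01, mk20, mk21, hw1]
        ring
      · left
        simp only [mk00, mk01, mk20]
        exact mul_ne_zero hp hw0
    · exact ⟨(1, 0), by simp, rfl⟩
  · -- `q = 0`, `w0 = 0`
    have hq : qq (x (0, 0)) (x (0, 1)) = 0 := by
      rcases mul_eq_zero.1 h0.2 with h | h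
      · exact h
      · exact absurd h hw1
    have hp : pp (x (0, 0)) (x (0, 1)) ≠ 0 := by
      rcases pq_ne hu with h | h
      · exact h
      · exact absurd hq h
    have hw0 : x (2, 0) = 0 := by
      rcases mul_eq_zero.1 h0.1 with h | h
      · exact absurd h hp
      · exact h
    refine ⟨mk (x (0, 0)) (x (0, 1)) (x (1, 0)) (x (1, 1)) (x (2, 0)) (x (2, 1)) 0 1, ?_,
      hfam 0 1 (Or.inr one_ne_zero), _, hsub, hxmem, ?_, hpre⟩
    · have hcl := zero_mem_closure (finite_qq (x (0, 0)) (x (0, 1)))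
      have hcont : ContinuousAt (fun t : ℂ => mk (x (0, 0) + t) (x (0, 1)) (x (1, 0))
          (x (1, 1)) (x (2, 0)) (x (2, 1)) 0 1) 0 := by
        exact tendsto_mk (by fun_prop : ContinuousAt (fun t : ℂ => x (0, 0) + t) 0)
          tendsto_const_nhds
          tendsto_const_nhds tendsto_const_nhds tendsto_const_nhds tendsto_const_nhds
          tendsto_const_nhds tendsto_const_nhds
      have himg := hcont.continuousWithinAt.mem_closure_image hcl
      simp only [add_zero] at himg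
      refine closure_mono ?_ himg
      rintro _ ⟨t, ht, rfl⟩
      have hq' : qq (x (0, 0) + t) (x (0, 1)) ≠ 0 := ht
      refine ⟨⟨⟨?_, hX, hW, Or.inr one_ne_zero⟩, e1, ?_⟩, ?_⟩
      · simp only [mk00, mk01]
        by_contra hc
        push Not at hc
        apply hq'
        rw [hc.1, hc.2]
        simp [qq]
      · simp only [mk30, mk31, mk00, mk01, mk20, mk21, hw0]
        ring
      · right
        simp only [mk00, mk01, mk21]
        exact mul_ne_zero hq' hw1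
    · exact ⟨(0, 1), by simp, rfl⟩

lemma exists_GG : ∃ x, x ∈ GG := by
  -- `u = (1, 0)`, `x = (2, 1)`, `w = (r, 1)` with `r² = 3/2`, `v = (0, 1)`?
  obtain ⟨r, hr⟩ := exists_sqrt (3 / 2)
  have hr0 : r ≠ 0 := by
    intro h
    rw [h] at hr
    norm_num at hr
  refine ⟨mk 1 0 2 1 r 1 0 1, ⟨⟨Or.inl ?_, Or.inl ?_, Or.inr ?_, Or.inr ?_⟩, ?_, ?_⟩, ?_, ?_⟩
  · simp
  · simp
  · simp
  · simp
  · simp only [mk20, mk21, mk10, mk11]
    rw [hr]
    norm_num
  · simp [pp]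
  · simpa using hr0
  · simp

lemma SS_preconnected : IsPreconnected SS := by
  obtain ⟨g, hg⟩ := exists_GG
  refine isPreconnected_of_forall g (fun x hx => ?_)
  by_cases hx1 : x ∈ S1
  · exact ⟨S1, S1_sub_SS, GG_sub_S1 hg, hx1, S1_preconnected⟩
  · obtain ⟨y, hy, hyS, t, ht, hxt, hyt, htp⟩ := free_point hx hx1
    refine ⟨(S1 ∪ {y}) ∪ t, ?_, ?_, Or.inr hxt, ?_⟩
    · apply Set.union_subset _ ht
      exact Set.union_subset S1_sub_SS (Set.singleton_subset_iff.2 hyS)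
    · exact Or.inl (Or.inl (GG_sub_S1 hg))
    · apply IsPreconnected.union y (Or.inr rfl) hyt _ htp
      apply S1_preconnected.subset_closure Set.subset_union_left
      exact Set.union_subset subset_closure (Set.singleton_subset_iff.2 hy)

end Conn

theorem surface_connected : IsConnected {x : Coord 2 → ℂ | IsPoint x ∧
    ∀ j, eval x ((![F1, F2] : Fin 2 → MvPolynomial (Coord 2) ℂ) j) = 0} := by
  rw [Conn.set_eq]
  obtain ⟨g, hg⟩ := Conn.exists_GG
  exact ⟨⟨g, hg.1⟩, Conn.SS_preconnected⟩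

end MP79ab39
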