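import Mathlib

/-!
Piece M5: the curve `y² (u³ + 2) = u³ + 3` is connected.

Away from the three segments `u³ ∈ (-∞, -2]` it consists of the two graphs of the principal square
root of `(u³ + 3) / (u³ + 2)` and its negative, and both closures contain the point `u³ = -3`,
`y = 0`.
-/

open Complex Filter Topology

namespace MP79ab39

namespace Hyper

/-- the star shaped domain of the `u` such that `u³` is not in `(-∞, -2]` -/
def Star : Set ℂ := {u | u ^ 3 + 2 ∈ slitPlane}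

lemma star_convex : StarConvex ℝ 0 Star := by
  intro y hy a b ha hb hab
  simp only [Star, Set.mem_ofPred_eq] at hy ⊢
  have h1 : a • (0 : ℂ) + b • y = (b : ℂ) * y := by
    simp
  rw [h1]
  have h2 : ((b : ℂ) * y) ^ 3 + 2 = ((b ^ 3 : ℝ) : ℂ) * y ^ 3 + 2 := by
    push_cast
    ring
  rw [h2, mem_slitPlane_iff]
  rw [mem_slitPlane_iff] at hy
  simp only [add_re, add_im, re_ofReal_mul, im_ofReal_mul, re_ofNat, im_ofNat, add_zero] at hy ⊢
  rcases hb.eq_or_lt with hb0 | hb0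
  · left
    rw [← hb0]
    norm_num
  · by_cases h3 : (y ^ 3).im = 0
    · left
      rcases hy with hy | hy
      · have hb1 : b ^ 3 ≤ 1 := pow_le_one₀ hb (by linarith)
        have hb3 : 0 < b ^ 3 := by positivity
        rcases le_or_gt 0 (y ^ 3).re with h4 | h4
        · have := mul_nonneg hb3.le h4
          linarith
        · nlinarith
      · exact absurd h3 hy
    · right
      exact mul_ne_zero (by positivity) h3

lemma zero_mem_star : (0 : ℂ) ∈ Star := by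
  simp only [Star, Set.mem_ofPred_eq, mem_slitPlane_iff]
  left
  norm_num

lemma star_preconnected : IsPreconnected Star :=
  (star_convex.isPathConnected zero_mem_star).isConnected.isPreconnected

/-- the value under the root -/
noncomputable def val (u : ℂ) : ℂ := (u ^ 3 + 3) / (u ^ 3 + 2)

/-- the principal branch of the root -/
noncomputable def rt (u : ℂ) : ℂ := val u ^ ((1 : ℂ) / 2)

lemma sq_rt (u : ℂ) : rt u ^ 2 = val u := by
  unfold rt
  rw [← Complex.cpow_nat_mul]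
  norm_num

lemma exists_sqrt' (z : ℂ) : ∃ r : ℂ, r ^ 2 = z :=
  ⟨z ^ ((1 : ℂ) / 2), by
    rw [← Complex.cpow_nat_mul]
    norm_num⟩

lemma val_mem {u : ℂ} (hu : u ∈ Star) : val u ∈ slitPlane := by
  have hw : u ^ 3 + 2 ∈ slitPlane := hu
  have hw0 : u ^ 3 + 2 ≠ 0 := slitPlane_ne_zero hw
  have h1 : val u = 1 + (u ^ 3 + 2)⁻¹ := by
    unfold val
    field_simp
    ring
  rw [h1]
  set w := u ^ 3 + 2
  have hn : 0 < normSq w := normSq_pos.2 hw0
  rw [mem_slitPlane_iff] at hw ⊢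
  simp only [add_re, add_im, one_re, one_im, inv_re, inv_im, zero_add]
  rcases hw with hw | hw
  · left
    have := div_pos hw hn
    linarith
  · right
    exact div_ne_zero (neg_ne_zero.2 hw) hn.ne'

lemma rt_continuousOn : ContinuousOn rt Star := by
  have h1 : ContinuousOn val Star := by
    intro u hu
    have hw0 : u ^ 3 + 2 ≠ 0 := slitPlane_ne_zero hu
    have h2 : ContinuousAt (fun u : ℂ => (u ^ 3 + 3) / (u ^ 3 + 2)) u :=
      ContinuousAt.div (by fun_prop) (by fun_prop) hw0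
    exact h2.continuousWithinAt
  exact h1.cpow continuousOn_const (fun u hu => val_mem hu)

/-- the curve -/
def CC : Set ((ℂ × ℂ) × (ℂ × ℂ)) := {q | q.1 ≠ 0 ∧ q.2 ≠ 0 ∧
    q.2.1 ^ 2 * (q.1.1 ^ 3 + 2 * q.1.2 ^ 3) = q.2.2 ^ 2 * (q.1.1 ^ 3 + 3 * q.1.2 ^ 3)}

/-- the sheets, `e = 1` or `e = -1` -/
noncomputable def sheetMap (e : ℂ) (t : ℂ × (ℂ × ℂ)) : (ℂ × ℂ) × (ℂ × ℂ) :=
  ((t.2.1 * t.1, t.2.1), (e * t.2.2 * rt t.1, t.2.2))

def dom : Set (ℂ × (ℂ × ℂ)) := Star ×ˢ (({0}ᶜ : Set ℂ) ×ˢ ({0}ᶜ : Set ℂ))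

lemma dom_preconnected : IsPreconnected dom := by
  have h0 : IsPreconnected ({0}ᶜ : Set ℂ) :=
    (isConnected_compl_singleton_of_one_lt_rank (by
      rw [← Module.finrank_eq_rank]
      simp only [Complex.finrank_real_complex]
      norm_num) _).isPreconnected
  exact star_preconnected.prod (h0.prod h0)

lemma sheet_preconnected (e : ℂ) : IsPreconnected (sheetMap e '' dom) := by
  apply dom_preconnected.image
  have h1 : ContinuousOn (fun t : ℂ × (ℂ × ℂ) => rt t.1) dom :=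
    rt_continuousOn.comp continuousOn_fst (fun t ht => ht.1)
  unfold sheetMap
  exact ContinuousOn.prodMk (by fun_prop) (ContinuousOn.prodMk
    (ContinuousOn.mul (by fun_prop) h1) (by fun_prop))

lemma sheet_sub {e : ℂ} (he : e ^ 2 = 1) : sheetMap e '' dom ⊆ CC := by
  rintro _ ⟨⟨u, μ, l⟩, ⟨hu, hμ, hl⟩, rfl⟩
  simp only [Set.mem_compl_iff, Set.mem_singleton_iff] at hμ hl
  have hw0 : u ^ 3 + 2 ≠ 0 := slitPlane_ne_zero hu
  refine ⟨fun h => hμ (congrArg Prod.snd h), fun h => hl (congrArg Prod.snd h), ?_⟩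
  simp only [sheetMap]
  have h2 : rt u ^ 2 * (u ^ 3 + 2) = u ^ 3 + 3 := by
    rw [sq_rt, val]
    field_simp
  have h3 : (e * l * rt u) ^ 2 * ((μ * u) ^ 3 + 2 * μ ^ 3) =
      e ^ 2 * (l ^ 2 * μ ^ 3 * (rt u ^ 2 * (u ^ 3 + 2))) := by ring
  rw [h3, h2, he]
  ring

lemma div_eq_div_iff' {a b c d : ℂ} (hd : d ≠ 0) (hb : b ≠ 0) (hP : a ^ 3 + 2 * b ^ 3 ≠ 0)
    (h3 : c ^ 2 * (a ^ 3 + 2 * b ^ 3) = d ^ 2 * (a ^ 3 + 3 * b ^ 3)) :
    (c / d) ^ 2 = ((a / b) ^ 3 + 3) / ((a / b) ^ 3 + 2) := by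
  have h1 : ((a / b) ^ 3 + 3) = (a ^ 3 + 3 * b ^ 3) / b ^ 3 := by
    field_simp
  have h2 : ((a / b) ^ 3 + 2) = (a ^ 3 + 2 * b ^ 3) / b ^ 3 := by
    field_simp
  have hb3 : b ^ 3 ≠ 0 := pow_ne_zero _ hb
  rw [h1, h2, div_div_div_cancel_right₀ hb3, div_pow, div_eq_div_iff (pow_ne_zero _ hd) hP, h3]
  ring

/-- the good part -/
def Good : Set ((ℂ × ℂ) × (ℂ × ℂ)) := {q | q ∈ CC ∧ q.1.2 ≠ 0 ∧ q.1.1 / q.1.2 ∈ Star}

lemma good_sub : Good ⊆ sheetMap 1 '' dom ∪ sheetMap (-1) '' dom := by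
  rintro ⟨⟨a, b⟩, ⟨c, d⟩⟩ ⟨⟨h1, h2, h3⟩, hb, hS⟩
  simp only at h3 hb hS
  have hab : (a / b) ^ 3 + 2 ≠ 0 := slitPlane_ne_zero hS
  have hP : a ^ 3 + 2 * b ^ 3 ≠ 0 := by
    intro hc
    apply hab
    field_simp
    linear_combination hc
  have hd : d ≠ 0 := by
    intro hd
    subst hd
    have : c ^ 2 * (a ^ 3 + 2 * b ^ 3) = 0 := by linear_combination h3
    rcases mul_eq_zero.1 this with h | h
    · exact h2 (by rw [pow_eq_zero_iff (by norm_num) |>.1 h]; rfl)
    · exact hP h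
  have h4 : (c / d) ^ 2 = rt (a / b) ^ 2 := by
    rw [sq_rt, val, div_eq_div_iff' hd hb hP h3]
  rcases sq_eq_sq_iff_eq_or_eq_neg.1 h4 with h5 | h5
  · left
    refine ⟨(a / b, b, d), ⟨hS, hb, hd⟩, ?_⟩
    simp only [sheetMap, Prod.mk.injEq, and_true]
    refine ⟨by field_simp, ?_⟩
    rw [← h5]
    field_simp
  · right
    refine ⟨(a / b, b, d), ⟨hS, hb, hd⟩, ?_⟩
    simp only [sheetMap, Prod.mk.injEq, and_true]
    refine ⟨by field_simp, ?_⟩
    have h6 : rt (a / b) = - (c / d) := by rw [h5]; ring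
    rw [h6]
    field_simp

/-- roots can be chosen continuously -/
lemma root_lift {z : ℕ → ℂ} {c : ℂ} (hz : Tendsto z atTop (𝓝 (c ^ 2))) :
    ∃ r : ℕ → ℂ, (∀ n, r n ^ 2 = z n) ∧ Tendsto r atTop (𝓝 c) := by
  have h1 : ∀ n, ∃ r : ℂ, r ^ 2 = z n ∧ ‖r - c‖ ≤ ‖r + c‖ := by
    intro n
    obtain ⟨r, hr⟩ := exists_sqrt' (z n)
    rcases le_total ‖r - c‖ ‖r + c‖ with h | h
    · exact ⟨r, hr, h⟩
    · refine ⟨-r, by rw [neg_sq, hr], ?_⟩
      have h2 : -r - c = -(r + c) := by ring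
      have h3 : -r + c = -(r - c) := by ring
      rw [h2, h3, norm_neg, norm_neg]
      exact h
  choose r hr hr2 using h1
  refine ⟨r, hr, ?_⟩
  rw [tendsto_iff_norm_sub_tendsto_zero]
  have h4 : ∀ n, ‖r n - c‖ ≤ Real.sqrt ‖z n - c ^ 2‖ := by
    intro n
    apply Real.le_sqrt_of_sq_le
    calc ‖r n - c‖ ^ 2 = ‖r n - c‖ * ‖r n - c‖ := by ring
      _ ≤ ‖r n - c‖ * ‖r n + c‖ := by gcongr; exact hr2 n
      _ = ‖z n - c ^ 2‖ := by rw [← norm_mul, ← hr n]; congr 1; ring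
  refine squeeze_zero (fun n => norm_nonneg _) h4 ?_
  have h5 : Tendsto (fun n => ‖z n - c ^ 2‖) atTop (𝓝 0) := by
    rw [← tendsto_iff_norm_sub_tendsto_zero]
    exact hz
  have h6 := (Real.continuous_sqrt.tendsto 0).comp h5
  rwa [Real.sqrt_zero] at h6

/-- approximation of the `u` coordinate -/
lemma approx_u {a b : ℂ} (h : (a, b) ≠ (0 : ℂ × ℂ)) : ∃ A B : ℕ → ℂ,
    Tendsto A atTop (𝓝 a) ∧ Tendsto B atTop (𝓝 b) ∧ ∀ n, B n ≠ 0 ∧ A n / B n ∈ Star := by
  have hinv : Tendsto (fun n : ℕ => (1 : ℝ) / ((n : ℝ) + 1)) atTop (𝓝 0) :=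
    tendsto_one_div_add_atTop_nhds_zero_nat
  by_cases hb : b = 0
  · subst hb
    have ha : a ≠ 0 := by
      rintro rfl
      exact h rfl
    refine ⟨fun _ => a, fun n => a * (((1 : ℝ) / ((n : ℝ) + 1) : ℝ) : ℂ), tendsto_const_nhds, ?_,
      fun n => ⟨?_, ?_⟩⟩
    · have h1 : Tendsto (fun n : ℕ => (((1 : ℝ) / ((n : ℝ) + 1) : ℝ) : ℂ)) atTop (𝓝 ((0 : ℝ) : ℂ)) :=
        (Complex.continuous_ofReal.tendsto 0).comp hinv
      have h2 := h1.const_mul a
      simpa using h2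
    · apply mul_ne_zero ha
      rw [Complex.ofReal_ne_zero]
      positivity
    · have h3 : a / (a * (((1 : ℝ) / ((n : ℝ) + 1) : ℝ) : ℂ)) = (((n : ℝ) + 1 : ℝ) : ℂ) := by
        have h4 : ((n : ℂ) + 1) ≠ 0 := Nat.cast_add_one_ne_zero n
        push_cast
        field_simp
      rw [h3]
      simp only [Star, Set.mem_ofPred_eq, mem_slitPlane_iff]
      left
      have h5 : ((((n : ℝ) + 1 : ℝ) : ℂ)) ^ 3 + 2 = ((((n : ℝ) + 1) ^ 3 + 2 : ℝ) : ℂ) := by
        push_cast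
        ring
      rw [h5, Complex.ofReal_re]
      positivity
  · by_cases hS : a / b ∈ Star
    · exact ⟨fun _ => a, fun _ => b, tendsto_const_nhds, tendsto_const_nhds, fun n => ⟨hb, hS⟩⟩
    · -- `(a/b)³` is a negative real number
      simp only [Star, Set.mem_ofPred_eq, mem_slitPlane_iff, not_or, not_lt, not_not] at hS
      obtain ⟨hS1, hS2⟩ := hS
      simp only [add_re, add_im, re_ofNat, im_ofNat, add_zero] at hS1 hS2
      set x := ((a / b) ^ 3).re with hx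
      have hW : (a / b) ^ 3 = (x : ℂ) := by
        apply Complex.ext
        · simp [hx]
        · simpa using hS2
      refine ⟨fun n => a * Complex.exp ((((1 : ℝ) / ((n : ℝ) + 1) : ℝ) : ℂ) * I), fun _ => b,
        ?_, tendsto_const_nhds, fun n => ⟨hb, ?_⟩⟩
      · have h1 : Tendsto (fun n : ℕ => (((1 : ℝ) / ((n : ℝ) + 1) : ℝ) : ℂ)) atTop
            (𝓝 ((0 : ℝ) : ℂ)) := (Complex.continuous_ofReal.tendsto 0).comp hinv
        have h2 := ((Complex.continuous_exp.tendsto _).comp (h1.mul_const I)).const_mul a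
        simpa using h2
      · set θ : ℝ := (1 : ℝ) / ((n : ℝ) + 1) with hθ
        have hθ0 : 0 < θ := by positivity
        have hθ1 : θ ≤ 1 := by
          rw [hθ, div_le_one (by positivity)]
          have : (0 : ℝ) ≤ n := Nat.cast_nonneg n
          linarith
        have h3 : (a * Complex.exp ((θ : ℂ) * I) / b) ^ 3 =
            (x : ℂ) * Complex.exp (((3 * θ : ℝ) : ℂ) * I) := by
          rw [← hW]
          have : Complex.exp (((3 * θ : ℝ) : ℂ) * I) = Complex.exp ((θ : ℂ) * I) ^ 3 := by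
            rw [← Complex.exp_nat_mul]
            congr 1
            push_cast
            ring
          rw [this]
          ring
        simp only [Star, Set.mem_ofPred_eq, mem_slitPlane_iff]
        right
        rw [h3]
        have h4 : ((x : ℂ) * Complex.exp (((3 * θ : ℝ) : ℂ) * I) + 2).im = x * Real.sin (3 * θ) := by
          rw [add_im, im_ofReal_mul, Complex.exp_ofReal_mul_I_im]
          simp
        rw [h4]
        have h5 : 0 < Real.sin (3 * θ) := by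
          apply Real.sin_pos_of_pos_of_lt_pi (by positivity)
          have := Real.pi_gt_three
          linarith
        have h6 : x < 0 := by linarith
        exact mul_ne_zero h6.ne h5.ne'

lemma CC_sub_closure : CC ⊆ closure Good := by
  rintro ⟨⟨a, b⟩, ⟨c, d⟩⟩ ⟨h1, h2, h3⟩
  simp only at h3
  obtain ⟨A, B, hA, hB, hAB⟩ := approx_u h1
  have hP : Tendsto (fun n => A n ^ 3 + 2 * B n ^ 3) atTop (𝓝 (a ^ 3 + 2 * b ^ 3)) :=
    (hA.pow 3).add ((hB.pow 3).const_mul 2)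
  have hQ : Tendsto (fun n => A n ^ 3 + 3 * B n ^ 3) atTop (𝓝 (a ^ 3 + 3 * b ^ 3)) :=
    (hA.pow 3).add ((hB.pow 3).const_mul 3)
  have hPn : ∀ n, A n ^ 3 + 2 * B n ^ 3 ≠ 0 := by
    intro n hc
    have h4 : (A n / B n) ^ 3 + 2 ≠ 0 := slitPlane_ne_zero (hAB n).2
    apply h4
    have := (hAB n).1
    field_simp
    linear_combination hc
  rw [mem_closure_iff_seq_limit]
  by_cases hP0 : a ^ 3 + 2 * b ^ 3 = 0
  · have hQ0 : a ^ 3 + 3 * b ^ 3 ≠ 0 := by
      intro hc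
      have hb : b ^ 3 = 0 := by linear_combination hc - hP0
      have ha : a ^ 3 = 0 := by linear_combination 3 * hP0 - 2 * hc
      exact h1 (by
        rw [pow_eq_zero_iff (by norm_num) |>.1 hb, pow_eq_zero_iff (by norm_num) |>.1 ha]; rfl)
    have hd : d = 0 := by
      have : d ^ 2 * (a ^ 3 + 3 * b ^ 3) = 0 := by
        rw [← h3, hP0, mul_zero]
      rcases mul_eq_zero.1 this with h | h
      · exact pow_eq_zero_iff (by norm_num) |>.1 h
      · exact absurd h hQ0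
    have hc : c ≠ 0 := by
      rintro rfl
      exact h2 (by rw [hd]; rfl)
    subst hd
    -- choose `d n` near `0`
    obtain ⟨N, hN⟩ : ∃ N, ∀ n ≥ N, A n ^ 3 + 3 * B n ^ 3 ≠ 0 := by
      have := hQ.eventually_ne hQ0
      exact eventually_atTop.1 this
    have hz : Tendsto (fun n => c ^ 2 * (A n ^ 3 + 2 * B n ^ 3) / (A n ^ 3 + 3 * B n ^ 3)) atTop
        (𝓝 ((0 : ℂ) ^ 2)) := by
      have h5 := (hP.const_mul (c ^ 2)).div hQ hQ0
      rw [hP0, mul_zero, zero_div] at h5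
      have h6 : (0 : ℂ) ^ 2 = 0 := by norm_num
      rw [h6]
      exact h5
    obtain ⟨r, hr, hr0⟩ := root_lift hz
    refine ⟨fun n => ((A (n + N), B (n + N)), (c, r (n + N))), fun n => ⟨⟨?_, ?_, ?_⟩,
      (hAB _).1, (hAB _).2⟩, ?_⟩
    · intro h
      exact (hAB _).1 (congrArg Prod.snd h)
    · intro h
      exact hc (congrArg Prod.fst h)
    · simp only
      rw [hr, div_mul_cancel₀ _ (hN (n + N) (by omega))]
    · exact ((hA.comp (tendsto_add_atTop_nat N)).prodMk_nhds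
        (hB.comp (tendsto_add_atTop_nat N))).prodMk_nhds
        (tendsto_const_nhds.prodMk_nhds (hr0.comp (tendsto_add_atTop_nat N)))
  · have hd : d ≠ 0 := by
      rintro rfl
      have : c ^ 2 * (a ^ 3 + 2 * b ^ 3) = 0 := by linear_combination h3
      rcases mul_eq_zero.1 this with h | h
      · exact h2 (by rw [pow_eq_zero_iff (by norm_num) |>.1 h]; rfl)
      · exact hP0 h
    have hz : Tendsto (fun n => d ^ 2 * (A n ^ 3 + 3 * B n ^ 3) / (A n ^ 3 + 2 * B n ^ 3)) atTop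
        (𝓝 (c ^ 2)) := by
      have h5 := (hQ.const_mul (d ^ 2)).div hP hP0
      have h6 : d ^ 2 * (a ^ 3 + 3 * b ^ 3) / (a ^ 3 + 2 * b ^ 3) = c ^ 2 := by
        rw [div_eq_iff hP0, h3]
      rwa [h6] at h5
    obtain ⟨r, hr, hr0⟩ := root_lift hz
    refine ⟨fun n => ((A n, B n), (r n, d)), fun n => ⟨⟨?_, ?_, ?_⟩,
      (hAB _).1, (hAB _).2⟩, ?_⟩
    · intro h
      exact (hAB _).1 (congrArg Prod.snd h)
    · intro h
      exact hd (congrArg Prod.snd h)
    · simp only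
      rw [hr, div_mul_cancel₀ _ (hPn n)]
    · exact (hA.prodMk_nhds hB).prodMk_nhds (hr0.prodMk_nhds tendsto_const_nhds)

/-- a cube root of `-3` -/
lemma exists_u0 : ∃ u : ℂ, u ^ 3 = -3 :=
  ⟨(-3 : ℂ) ^ ((1 : ℂ) / 3), by
    rw [← Complex.cpow_nat_mul]
    norm_num⟩

lemma base_mem {u : ℂ} (hu : u ^ 3 = -3) (e : ℂ) :
    (((u, 1), (0, 1)) : (ℂ × ℂ) × (ℂ × ℂ)) ∈ closure (sheetMap e '' dom) := by
  obtain ⟨A, B, hA, hB, hAB⟩ := approx_u (a := u) (b := 1) (by
    intro h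
    exact one_ne_zero (congrArg Prod.snd h))
  have hAB' : Tendsto (fun n => A n / B n) atTop (𝓝 u) := by
    have := hA.div hB one_ne_zero
    rw [div_one] at this
    exact this
  rw [mem_closure_iff_seq_limit]
  have hdom : ∀ n, (A n / B n, ((1 : ℂ), (1 : ℂ))) ∈ dom := fun n =>
    ⟨(hAB n).2, one_ne_zero, one_ne_zero⟩
  refine ⟨fun n => sheetMap e (A n / B n, ((1 : ℂ), (1 : ℂ))),
    fun n => Set.mem_image_of_mem _ (hdom n), ?_⟩
  · have hv : Tendsto (fun n => val (A n / B n)) atTop (𝓝 (0 : ℂ)) := by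
      have h1 : ContinuousAt (fun u : ℂ => (u ^ 3 + 3) / (u ^ 3 + 2)) u := by
        refine ContinuousAt.div (by fun_prop) (by fun_prop) ?_
        rw [hu]
        norm_num
      have h2 := h1.tendsto.comp hAB'
      have h3 : (u ^ 3 + 3) / (u ^ 3 + 2) = 0 := by
        rw [hu]
        norm_num
      rw [h3] at h2
      exact h2
    have hr : Tendsto (fun n => rt (A n / B n)) atTop (𝓝 0) := by
      rw [tendsto_zero_iff_norm_tendsto_zero] at hv ⊢
      have h1 : ∀ n, ‖rt (A n / B n)‖ = Real.sqrt ‖val (A n / B n)‖ := by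
        intro n
        rw [← sq_rt, norm_pow, Real.sqrt_sq (norm_nonneg _)]
      simp_rw [h1]
      have := (Real.continuous_sqrt.tendsto 0).comp hv
      rwa [Real.sqrt_zero] at this
    have h5 : Tendsto (fun n => e * 1 * rt (A n / B n)) atTop (𝓝 0) := by
      have := hr.const_mul (e * 1)
      rwa [mul_zero] at this
    have h6 : Tendsto (fun n => 1 * (A n / B n)) atTop (𝓝 u) := by
      simpa only [one_mul] using hAB'
    have h7 : Tendsto (fun n => (((1 * (A n / B n), 1), (e * 1 * rt (A n / B n), 1)) :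
        (ℂ × ℂ) × (ℂ × ℂ))) atTop (𝓝 ((u, 1), (0, 1))) :=
      (h6.prodMk_nhds tendsto_const_nhds).prodMk_nhds (h5.prodMk_nhds tendsto_const_nhds)
    exact h7

end Hyper

open Hyper in
theorem hyper_connected : IsConnected {q : (ℂ × ℂ) × (ℂ × ℂ) | q.1 ≠ 0 ∧ q.2 ≠ 0 ∧
    q.2.1 ^ 2 * (q.1.1 ^ 3 + 2 * q.1.2 ^ 3) = q.2.2 ^ 2 * (q.1.1 ^ 3 + 3 * q.1.2 ^ 3)} := by
  change IsConnected CC
  obtain ⟨u, hu⟩ := exists_u0
  set p : (ℂ × ℂ) × (ℂ × ℂ) := ((u, 1), (0, 1)) with hp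
  have hpC : p ∈ CC := by
    refine ⟨fun h => one_ne_zero (congrArg Prod.snd h), fun h => one_ne_zero (congrArg Prod.snd h),
      ?_⟩
    simp only [hp]
    rw [hu]
    norm_num
  refine ⟨⟨p, hpC⟩, ?_⟩
  have h1 : IsPreconnected (sheetMap 1 '' dom ∪ {p}) :=
    (sheet_preconnected 1).subset_closure Set.subset_union_left
      (Set.union_subset subset_closure (Set.singleton_subset_iff.2 (base_mem hu _)))
  have h2 : IsPreconnected (sheetMap (-1) '' dom ∪ {p}) :=
    (sheet_preconnected (-1)).subset_closure Set.subset_union_left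
      (Set.union_subset subset_closure (Set.singleton_subset_iff.2 (base_mem hu _)))
  have h3 := h1.union p (Or.inr rfl) (Or.inr rfl) h2
  refine h3.subset_closure ?_ ?_
  · rintro x ((hx | hx) | (hx | hx))
    · exact sheet_sub (by norm_num) hx
    · rw [Set.mem_singleton_iff.1 hx]; exact hpC
    · exact sheet_sub (by norm_num) hx
    · rw [Set.mem_singleton_iff.1 hx]; exact hpC
  · intro x hx
    refine closure_mono ?_ (CC_sub_closure hx)
    intro y hy
    rcases good_sub hy with h | h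
    · exact Or.inl (Or.inl h)
    · exact Or.inr (Or.inl h)

end MP79ab39
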