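import Pool.Agent.Lib_MP_79ab39_ag.Defs

/-! Piece I: the equations of the surface, their multidegrees, and smoothness. -/

open MvPolynomial

namespace MP79ab39

/-- `w² x = x² - 1` -/
noncomputable def F1 : MvPolynomial (Coord 2) ℂ :=
  X (2, 0) ^ 2 * X (1, 0) * X (1, 1) - X (2, 1) ^ 2 * (X (1, 0) ^ 2 - X (1, 1) ^ 2)

/-- `v (2 u⁶ + 1) = u (u⁴ - 1) w` -/
noncomputable def F2 : MvPolynomial (Coord 2) ℂ :=
  X (3, 0) * (2 * X (0, 0) ^ 6 + X (0, 1) ^ 6) * X (2, 1) -
    X (3, 1) * (X (0, 0) * X (0, 1) * (X (0, 0) ^ 4 - X (0, 1) ^ 4)) * X (2, 0)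

section Homog

variable {c : ℕ}

lemma mh_X (i : Fin (c + 2)) (k : Fin 2) :
    IsMultihomogeneous (X (i, k) : MvPolynomial (Coord c) ℂ) (Pi.single i 1) := by
  classical
  intro m hm j
  rw [mem_support_iff, coeff_X] at hm
  have hm' : Finsupp.single ((i, k) : Coord c) 1 = m := by
    by_contra h
    exact hm (if_neg h)
  subst hm'
  by_cases h : j = i
  · subst h
    fin_cases k <;> simp
  · have h0 : ((i, k) : Coord c) ≠ (j, 0) := by
      intro e; exact h (congrArg Prod.fst e).symm
    have h1 : ((i, k) : Coord c) ≠ (j, 1) := by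
      intro e; exact h (congrArg Prod.fst e).symm
    rw [Finsupp.single_apply, if_neg h0, Finsupp.single_apply, if_neg h1, Pi.single_apply,
      if_neg h, add_zero]

lemma mh_mul {F G : MvPolynomial (Coord c) ℂ} {d e : Fin (c + 2) → ℕ}
    (hF : IsMultihomogeneous F d) (hG : IsMultihomogeneous G e) :
    IsMultihomogeneous (F * G) (d + e) := by
  classical
  intro m hm i
  obtain ⟨a, ha, b, hb, rfl⟩ := Finset.mem_add.1 (support_mul F G hm)
  have h1 := hF a ha i
  have h2 := hG b hb i
  simp only [Finsupp.add_apply, Pi.add_apply]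
  omega

lemma mh_add {F G : MvPolynomial (Coord c) ℂ} {d : Fin (c + 2) → ℕ}
    (hF : IsMultihomogeneous F d) (hG : IsMultihomogeneous G d) :
    IsMultihomogeneous (F + G) d := by
  classical
  intro m hm i
  rcases Finset.mem_union.1 (support_add hm) with h | h
  · exact hF m h i
  · exact hG m h i

lemma mh_neg {F : MvPolynomial (Coord c) ℂ} {d : Fin (c + 2) → ℕ}
    (hF : IsMultihomogeneous F d) : IsMultihomogeneous (-F) d := by
  intro m hm i
  rw [support_neg] at hm
  exact hF m hm i

lemma mh_sub {F G : MvPolynomial (Coord c) ℂ} {d : Fin (c + 2) → ℕ}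
    (hF : IsMultihomogeneous F d) (hG : IsMultihomogeneous G d) :
    IsMultihomogeneous (F - G) d := by
  rw [sub_eq_add_neg]
  exact mh_add hF (mh_neg hG)

lemma mh_C (a : ℂ) : IsMultihomogeneous (C a : MvPolynomial (Coord c) ℂ) 0 := by
  classical
  intro m hm i
  rw [mem_support_iff, coeff_C] at hm
  have : m = 0 := by
    by_contra h
    exact hm (if_neg (fun e => h e.symm))
  subst this
  rfl

lemma mh_pow {F : MvPolynomial (Coord c) ℂ} {d : Fin (c + 2) → ℕ}
    (hF : IsMultihomogeneous F d) (n : ℕ) : IsMultihomogeneous (F ^ n) (n • d) := by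
  induction n with
  | zero =>
    rw [pow_zero, zero_smul]
    have := mh_C (c := c) 1
    rwa [C_1] at this
  | succ n ih =>
    rw [pow_succ, succ_nsmul]
    exact mh_mul ih hF

lemma mh_congr {F : MvPolynomial (Coord c) ℂ} {d e : Fin (c + 2) → ℕ}
    (hF : IsMultihomogeneous F d) (h : d = e) : IsMultihomogeneous F e := h ▸ hF

end Homog

theorem F1_homogeneous : IsMultihomogeneous F1 ![0, 2, 2, 0] := by
  unfold F1
  apply mh_sub
  · refine mh_congr (mh_mul (mh_mul (mh_pow (mh_X 2 0) 2) (mh_X 1 0)) (mh_X 1 1)) ?_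
    funext i
    fin_cases i <;> rfl
  · refine mh_congr (mh_mul (mh_pow (mh_X 2 1) 2)
      (mh_sub (mh_pow (mh_X 1 0) 2) (mh_pow (mh_X 1 1) 2))) ?_
    funext i
    fin_cases i <;> rfl

theorem F2_homogeneous : IsMultihomogeneous F2 ![6, 0, 1, 1] := by
  unfold F2
  have h2 : (2 : MvPolynomial (Coord 2) ℂ) = C 2 := by
    rw [map_ofNat]
  apply mh_sub
  · refine mh_congr (mh_mul (mh_mul (mh_X 3 0)
      (mh_add (mh_congr (mh_mul (h2 ▸ mh_C (c := 2) 2) (mh_pow (mh_X 0 0) 6)) (zero_add _))
        (mh_pow (mh_X 0 1) 6))) (mh_X 2 1)) ?_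
    funext i
    fin_cases i <;> rfl
  · refine mh_congr (mh_mul (mh_mul (mh_X 3 1) (mh_mul (mh_mul (mh_X 0 0) (mh_X 0 1))
      (mh_sub (mh_pow (mh_X 0 0) 4) (mh_pow (mh_X 0 1) 4)))) (mh_X 2 0)) ?_
    funext i
    fin_cases i <;> rfl

lemma pq_ne {u0 u1 : ℂ} (hu : u0 ≠ 0 ∨ u1 ≠ 0) (hp : u0 * u1 * (u0 ^ 4 - u1 ^ 4) = 0)
    (hq : 2 * u0 ^ 6 + u1 ^ 6 = 0) : False := by
  have key : u0 = 0 ∧ u1 = 0 := by
    rcases mul_eq_zero.1 hp with h | h
    · rcases mul_eq_zero.1 h with h | h
      · subst h
        refine ⟨rfl, ?_⟩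
        have : u1 ^ 6 = 0 := by linear_combination hq
        exact pow_eq_zero_iff (by norm_num) |>.1 this
      · subst h
        refine ⟨?_, rfl⟩
        have : u0 ^ 6 = 0 := by linear_combination (1 / 2) * hq
        exact pow_eq_zero_iff (by norm_num) |>.1 this
    · have h1 : u0 ^ 4 * (2 * u0 ^ 2 + u1 ^ 2) = 0 := by
        linear_combination hq + u1 ^ 2 * h
      have h0 : u0 = 0 := by
        rcases mul_eq_zero.1 h1 with h2 | h2
        · exact pow_eq_zero_iff (by norm_num) |>.1 h2
        · have : u0 ^ 4 = 0 := by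
            linear_combination (-1 / 3) * h + (1 / 3) * (2 * u0 ^ 2 - u1 ^ 2) * h2
          exact pow_eq_zero_iff (by norm_num) |>.1 this
      subst h0
      refine ⟨rfl, ?_⟩
      have : u1 ^ 4 = 0 := by linear_combination (-1 : ℂ) * h
      exact pow_eq_zero_iff (by norm_num) |>.1 this
  rcases hu with h | h
  · exact h key.1
  · exact h key.2

lemma gradp_ne {u0 u1 : ℂ} (hu : u0 ≠ 0 ∨ u1 ≠ 0)
    (h1 : u0 * u1 * (4 * u0 ^ 3) + (u0 ^ 4 - u1 ^ 4) * u1 = 0)
    (h2 : -(u0 * u1 * (4 * u1 ^ 3)) + (u0 ^ 4 - u1 ^ 4) * u0 = 0) : False := by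
  by_cases hu1 : u1 = 0
  · subst hu1
    have : u0 ^ 5 = 0 := by linear_combination h2
    have h0 : u0 = 0 := pow_eq_zero_iff (by norm_num) |>.1 this
    simp [h0] at hu
  · have h3 : 5 * u0 ^ 4 - u1 ^ 4 = 0 := by
      apply mul_left_cancel₀ hu1
      linear_combination h1
    by_cases hu0 : u0 = 0
    · subst hu0
      have : u1 ^ 4 = 0 := by linear_combination (-1 : ℂ) * h3
      exact hu1 (pow_eq_zero_iff (by norm_num) |>.1 this)
    · have h4 : u0 ^ 4 - 5 * u1 ^ 4 = 0 := by
        apply mul_left_cancel₀ hu0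
        linear_combination h2
      have : u0 ^ 4 = 0 := by linear_combination (-1 / 24) * h4 + (5 / 24) * h3
      exact hu0 (pow_eq_zero_iff (by norm_num) |>.1 this)

theorem surface_smooth (x : Coord 2 → ℂ) (hx : IsPoint x)
    (h : ∀ j, eval x ((![F1, F2] : Fin 2 → MvPolynomial (Coord 2) ℂ) j) = 0) :
    LinearIndependent ℂ (fun (j : Fin 2) (p : Coord 2) =>
      eval x (pderiv p ((![F1, F2] : Fin 2 → MvPolynomial (Coord 2) ℂ) j))) := by
  rw [Fintype.linearIndependent_iff]
  intro g hg
  have e1 := h 0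
  have e2 := h 1
  simp only [Matrix.cons_val_zero, Matrix.cons_val_one, F1, F2, map_sub, map_mul, map_add,
    map_pow, eval_X, map_ofNat] at e1 e2
  have key : ∀ p : Coord 2, g 0 * eval x (pderiv p F1) + g 1 * eval x (pderiv p F2) = 0 := by
    intro p
    have := congrFun hg p
    simpa [Fin.sum_univ_two] using this
  have k00 := key (0, 0)
  have k01 := key (0, 1)
  have k10 := key (1, 0)
  have k11 := key (1, 1)
  have k20 := key (2, 0)
  have k21 := key (2, 1)
  have k30 := key (3, 0)
  have k31 := key (3, 1)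
  have hu := hx 0
  have hX := hx 1
  have hw := hx 2
  have hv := hx 3
  clear key hg h hx
  have hp2 : ∀ p : Coord 2, pderiv p (2 : MvPolynomial (Coord 2) ℂ) = 0 := by
    intro p
    have h2 : (2 : MvPolynomial (Coord 2) ℂ) = C 2 := by rw [map_ofNat]
    rw [h2, pderiv_C]
  simp [F1, F2, pderiv_X, hp2] at k00 k01 k10 k11 k20 k21 k30 k31
  generalize x (0, 0) = u0 at *
  generalize x (0, 1) = u1 at *
  generalize x (1, 0) = x0 at *
  generalize x (1, 1) = x1 at *
  generalize x (2, 0) = w0 at *
  generalize x (2, 1) = w1 at *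
  generalize x (3, 0) = v0 at *
  generalize x (3, 1) = v1 at *
  have hb : g 1 = 0 := by
    by_contra hb
    have k00' := k00.resolve_left hb
    have k01' := k01.resolve_left hb
    have k30' := k30.resolve_left hb
    have k31' := k31.resolve_left hb
    by_cases hw1 : w1 = 0
    · subst hw1
      have hw0 : w0 ≠ 0 := by simpa using hw
      have hp : u0 * u1 * (u0 ^ 4 - u1 ^ 4) = 0 := by
        have := k31'.resolve_left hw0
        rcases this with (h | h) | h
        · rw [h]; ring
        · rw [h]; ring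
        · rw [h]; ring
      have hv1 : v1 = 0 := by
        by_contra hv1
        refine gradp_ne hu ?_ ?_
        · apply mul_left_cancel₀ (mul_ne_zero hw0 hv1)
          linear_combination (-1 : ℂ) * k00'
        · apply mul_left_cancel₀ (mul_ne_zero hw0 hv1)
          linear_combination (-1 : ℂ) * k01'
      have hv0 : v0 ≠ 0 := by simpa [hv1] using hv
      refine pq_ne hu hp ?_
      apply mul_left_cancel₀ (mul_ne_zero hb hv0)
      linear_combination k21
    · have hq := k30'.resolve_left hw1
      have hp : u0 * u1 * (u0 ^ 4 - u1 ^ 4) ≠ 0 := fun hp => pq_ne hu hp hq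
      have hw0 : w0 = 0 := by
        rcases k31' with h | (h | h) | h
        · exact h
        · exact absurd (by rw [h]; ring) hp
        · exact absurd (by rw [h]; ring) hp
        · exact absurd (by rw [h]; ring) hp
      subst hw0
      have hv0 : v0 = 0 := by
        by_contra hv0
        have h1 : u0 ^ 5 = 0 := by
          apply mul_left_cancel₀ (mul_ne_zero hw1 hv0)
          linear_combination (1 / 12) * k00'
        have h2 : u1 ^ 5 = 0 := by
          apply mul_left_cancel₀ (mul_ne_zero hw1 hv0)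
          linear_combination (1 / 6) * k01'
        have h1' : u0 = 0 := pow_eq_zero_iff (by norm_num) |>.1 h1
        have h2' : u1 = 0 := pow_eq_zero_iff (by norm_num) |>.1 h2
        simp [h1', h2'] at hu
      have hv1 : v1 ≠ 0 := by simpa [hv0] using hv
      apply hp
      apply mul_left_cancel₀ (mul_ne_zero hb hv1)
      linear_combination (-1 : ℂ) * k20
  have ha : g 0 = 0 := by
    by_contra ha
    rw [hb] at k20 k21
    have k10' := k10.resolve_left ha
    have k11' := k11.resolve_left ha
    have k20' : x1 * (x0 * w0) = 0 := by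
      apply mul_left_cancel₀ ha
      linear_combination (1 / 2) * k20
    have k21' : (x0 ^ 2 - x1 ^ 2) * w1 = 0 := by
      apply mul_left_cancel₀ ha
      linear_combination (-1 / 2) * k21
    by_cases hw1 : w1 = 0
    · subst hw1
      have hw0 : w0 ≠ 0 := by simpa using hw
      have h1 : x1 = 0 := by
        apply mul_left_cancel₀ (pow_ne_zero 2 hw0)
        linear_combination k10'
      have h0 : x0 = 0 := by
        apply mul_left_cancel₀ (pow_ne_zero 2 hw0)
        linear_combination k11'
      simp [h0, h1] at hX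
    · have h2 : x0 ^ 2 - x1 ^ 2 = 0 := by
        apply mul_right_cancel₀ hw1
        linear_combination k21'
      have h0 : x0 ≠ 0 := by
        intro h0
        subst h0
        have : x1 ^ 2 = 0 := by linear_combination (-1 : ℂ) * h2
        have : x1 = 0 := pow_eq_zero_iff (by norm_num) |>.1 this
        simp [this] at hX
      have h1 : x1 ≠ 0 := by
        intro h1
        subst h1
        have : x0 ^ 2 = 0 := by linear_combination h2
        exact h0 (pow_eq_zero_iff (by norm_num) |>.1 this)
      have hw0 : w0 = 0 := by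
        apply mul_left_cancel₀ (mul_ne_zero h1 h0)
        linear_combination k20'
      subst hw0
      apply mul_ne_zero (pow_ne_zero 2 hw1) h0
      linear_combination (-1 / 2) * k10'
  intro i
  fin_cases i
  · exact ha
  · exact hb

end MP79ab39
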