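import Pool.Agent.Lib_MP_79ab39_ag.DefsTwo
import Pool.Agent.Lib_MP_79ab39_ag.Connected
import Pool.Agent.Lib_MP_79ab39_ag.Smooth2
import Pool.Agent.Lib_MP_79ab39_ag.HyperConn

/-! Piece M6: the second surface is connected. -/

open MvPolynomial Complex PeriodPair Filter Topology

namespace MP79ab39

namespace Conn2

open Conn (pp qq exists_sqrt curve_approx not_mem_of finite_pp finite_qq zero_mem_closure)

/-- the point with the given homogeneous coordinates -/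
def mk (u0 u1 y0 y1 x0 x1 w0 w1 v0 v1 : ℂ) : Coord 3 → ℂ := fun p =>
  (![![u0, u1], ![y0, y1], ![x0, x1], ![w0, w1], ![v0, v1]] : Fin 5 → Fin 2 → ℂ) p.1 p.2

section
variable (u0 u1 y0 y1 x0 x1 w0 w1 v0 v1 : ℂ)
@[simp] lemma mk00 : mk u0 u1 y0 y1 x0 x1 w0 w1 v0 v1 (0, 0) = u0 := rfl
@[simp] lemma mk01 : mk u0 u1 y0 y1 x0 x1 w0 w1 v0 v1 (0, 1) = u1 := rfl
@[simp] lemma mk10 : mk u0 u1 y0 y1 x0 x1 w0 w1 v0 v1 (1, 0) = y0 := rfl
@[simp] lemma mk11 : mk u0 u1 y0 y1 x0 x1 w0 w1 v0 v1 (1, 1) = y1 := rfl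
@[simp] lemma mk20 : mk u0 u1 y0 y1 x0 x1 w0 w1 v0 v1 (2, 0) = x0 := rfl
@[simp] lemma mk21 : mk u0 u1 y0 y1 x0 x1 w0 w1 v0 v1 (2, 1) = x1 := rfl
@[simp] lemma mk30 : mk u0 u1 y0 y1 x0 x1 w0 w1 v0 v1 (3, 0) = w0 := rfl
@[simp] lemma mk31 : mk u0 u1 y0 y1 x0 x1 w0 w1 v0 v1 (3, 1) = w1 := rfl
@[simp] lemma mk40 : mk u0 u1 y0 y1 x0 x1 w0 w1 v0 v1 (4, 0) = v0 := rfl
@[simp] lemma mk41 : mk u0 u1 y0 y1 x0 x1 w0 w1 v0 v1 (4, 1) = v1 := rfl
end

lemma mk_eta (x : Coord 3 → ℂ) :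
    mk (x (0, 0)) (x (0, 1)) (x (1, 0)) (x (1, 1)) (x (2, 0)) (x (2, 1)) (x (3, 0)) (x (3, 1))
      (x (4, 0)) (x (4, 1)) = x := by
  funext p
  obtain ⟨i, j⟩ := p
  fin_cases i <;> fin_cases j <;> rfl

lemma tendsto_mk {α : Type*} {l : Filter α} {u0 u1 y0 y1 x0 x1 w0 w1 v0 v1 : α → ℂ}
    {a0 a1 e0 e1 b0 b1 c0 c1 d0 d1 : ℂ} (h00 : Tendsto u0 l (𝓝 a0)) (h01 : Tendsto u1 l (𝓝 a1))
    (h10 : Tendsto y0 l (𝓝 e0)) (h11 : Tendsto y1 l (𝓝 e1))
    (h20 : Tendsto x0 l (𝓝 b0)) (h21 : Tendsto x1 l (𝓝 b1))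
    (h30 : Tendsto w0 l (𝓝 c0)) (h31 : Tendsto w1 l (𝓝 c1))
    (h40 : Tendsto v0 l (𝓝 d0)) (h41 : Tendsto v1 l (𝓝 d1)) :
    Tendsto (fun t => mk (u0 t) (u1 t) (y0 t) (y1 t) (x0 t) (x1 t) (w0 t) (w1 t) (v0 t) (v1 t)) l
      (𝓝 (mk a0 a1 e0 e1 b0 b1 c0 c1 d0 d1)) := by
  rw [tendsto_pi_nhds]
  rintro ⟨i, j⟩
  fin_cases i <;> fin_cases j
  · exact h00
  · exact h01
  · exact h10
  · exact h11
  · exact h20
  · exact h21
  · exact h30
  · exact h31
  · exact h40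
  · exact h41

/-- `u³ + 2` -/
def aa (a b : ℂ) : ℂ := a ^ 3 + 2 * b ^ 3

/-- `u³ + 3` -/
def bb (a b : ℂ) : ℂ := a ^ 3 + 3 * b ^ 3

/-- the equations -/
def Eqs (x : Coord 3 → ℂ) : Prop :=
  ((x (0, 0) ≠ 0 ∨ x (0, 1) ≠ 0) ∧ (x (1, 0) ≠ 0 ∨ x (1, 1) ≠ 0) ∧
    (x (2, 0) ≠ 0 ∨ x (2, 1) ≠ 0) ∧ (x (3, 0) ≠ 0 ∨ x (3, 1) ≠ 0) ∧
    (x (4, 0) ≠ 0 ∨ x (4, 1) ≠ 0)) ∧
  x (1, 0) ^ 2 * aa (x (0, 0)) (x (0, 1)) = x (1, 1) ^ 2 * bb (x (0, 0)) (x (0, 1)) ∧
  x (3, 0) ^ 2 * x (2, 0) * x (2, 1) = x (3, 1) ^ 2 * (x (2, 0) ^ 2 - x (2, 1) ^ 2) ∧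
  x (4, 0) * qq (x (0, 0)) (x (0, 1)) * x (3, 1) = x (4, 1) * pp (x (0, 0)) (x (0, 1)) * x (3, 0)

/-- the surface -/
def SS : Set (Coord 3 → ℂ) := {x | Eqs x}

lemma set_eq : {x : Coord 3 → ℂ | IsPoint x ∧
    ∀ j, eval x ((![G0, G1, G2] : Fin 3 → MvPolynomial (Coord 3) ℂ) j) = 0} = SS := by
  ext x
  have hpt : (∀ i : Fin (3 + 2), x (i, 0) ≠ 0 ∨ x (i, 1) ≠ 0) ↔
      ((x (0, 0) ≠ 0 ∨ x (0, 1) ≠ 0) ∧ (x (1, 0) ≠ 0 ∨ x (1, 1) ≠ 0) ∧
    (x (2, 0) ≠ 0 ∨ x (2, 1) ≠ 0) ∧ (x (3, 0) ≠ 0 ∨ x (3, 1) ≠ 0) ∧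
    (x (4, 0) ≠ 0 ∨ x (4, 1) ≠ 0)) := by
    constructor
    · intro h
      exact ⟨h 0, h 1, h 2, h 3, h 4⟩
    · rintro ⟨h0, h1, h2, h3, h4⟩ i
      fin_cases i
      · exact h0
      · exact h1
      · exact h2
      · exact h3
      · exact h4
  have hj : (∀ j, eval x ((![G0, G1, G2] : Fin 3 → MvPolynomial (Coord 3) ℂ) j) = 0) ↔
      (eval x G0 = 0 ∧ eval x G1 = 0 ∧ eval x G2 = 0) := by
    constructor
    · intro h
      exact ⟨h 0, h 1, h 2⟩
    · rintro ⟨h0, h1, h2⟩ i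
      fin_cases i
      · exact h0
      · exact h1
      · exact h2
  simp only [SS, Eqs, Set.mem_ofPred_eq, IsPoint]
  rw [hpt, hj]
  simp only [G0, G1, G2, pp, qq, aa, bb, map_sub, map_mul, map_pow, eval_X, map_add, map_ofNat]
  rw [sub_eq_zero, sub_eq_zero, sub_eq_zero]

/-- the open part -/
def GG : Set (Coord 3 → ℂ) := {x | Eqs x ∧ x (3, 0) ≠ 0 ∧ x (3, 1) ≠ 0}

/-- the part where `v` is determined by `u`, `w` -/
def S1 : Set (Coord 3 → ℂ) := {x | Eqs x ∧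
  (pp (x (0, 0)) (x (0, 1)) * x (3, 0) ≠ 0 ∨ qq (x (0, 0)) (x (0, 1)) * x (3, 1) ≠ 0)}

lemma GG_sub_S1 : GG ⊆ S1 := by
  rintro x ⟨hx, h0, h1⟩
  refine ⟨hx, ?_⟩
  rcases Conn.pq_ne hx.1.1 with h | h
  · left; exact mul_ne_zero h h0
  · right; exact mul_ne_zero h h1

lemma S1_sub_SS : S1 ⊆ SS := fun _ hx => hx.1

/-- in `S1` the coordinates `v` are proportional to `(p w0, q w1)` -/
lemma exists_coef {x : Coord 3 → ℂ} (hx : x ∈ S1) : ∃ c : ℂ, c ≠ 0 ∧
    x (4, 0) = c * (pp (x (0, 0)) (x (0, 1)) * x (3, 0)) ∧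
    x (4, 1) = c * (qq (x (0, 0)) (x (0, 1)) * x (3, 1)) := by
  obtain ⟨⟨⟨_, _, _, _, hv⟩, _, _, h2⟩, h⟩ := hx
  set A := pp (x (0, 0)) (x (0, 1)) * x (3, 0) with hA
  set B := qq (x (0, 0)) (x (0, 1)) * x (3, 1) with hB
  have h2' : x (4, 0) * B = x (4, 1) * A := by rw [hA, hB]; linear_combination h2
  rcases h with h | h
  · refine ⟨x (4, 0) / A, ?_, ?_, ?_⟩
    · intro hc
      rw [div_eq_zero_iff] at hc
      rcases hc with hc | hc
      · rw [hc, zero_mul] at h2'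
        rcases mul_eq_zero.1 h2'.symm with h3 | h3
        · rcases hv with hv | hv
          · exact hv hc
          · exact hv h3
        · exact h h3
      · exact h hc
    · field_simp
    · field_simp
      linear_combination -h2'
  · refine ⟨x (4, 1) / B, ?_, ?_, ?_⟩
    · intro hc
      rw [div_eq_zero_iff] at hc
      rcases hc with hc | hc
      · rw [hc, zero_mul] at h2'
        rcases mul_eq_zero.1 h2' with h3 | h3
        · rcases hv with hv | hv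
          · exact hv h3
          · exact hv hc
        · exact h h3
      · exact h hc
    · field_simp
      linear_combination h2'
    · field_simp

lemma S1_sub_closure : S1 ⊆ closure GG := by
  intro x hx
  obtain ⟨c, hc, hv0, hv1⟩ := exists_coef hx
  have hE := hx.1
  obtain ⟨X0, X1, W0, W1, hX0, hX1, hW0, hW1, hn⟩ :=
    curve_approx hE.1.2.2.1 hE.1.2.2.2.1 hE.2.2.1
  rw [mem_closure_iff_seq_limit]
  refine ⟨fun n => mk (x (0, 0)) (x (0, 1)) (x (1, 0)) (x (1, 1)) (X0 n) (X1 n) (W0 n) (W1 n)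
    (c * (pp (x (0, 0)) (x (0, 1)) * W0 n)) (c * (qq (x (0, 0)) (x (0, 1)) * W1 n)), ?_, ?_⟩
  · intro n
    obtain ⟨h1, h2, h3, h4, h5⟩ := hn n
    refine ⟨⟨⟨hE.1.1, hE.1.2.1, Or.inl h1, Or.inl h3, ?_⟩, hE.2.1, ?_, ?_⟩, h3, h4⟩
    · simp only [mk40, mk41]
      rcases Conn.pq_ne hE.1.1 with h | h
      · left; exact mul_ne_zero hc (mul_ne_zero h h3)
      · right; exact mul_ne_zero hc (mul_ne_zero h h4)
    · simp only [mk30, mk31, mk20, mk21]
      exact h5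
    · simp only [mk00, mk01, mk30, mk31, mk40, mk41]
      ring
  · have : x = mk (x (0, 0)) (x (0, 1)) (x (1, 0)) (x (1, 1)) (x (2, 0)) (x (2, 1)) (x (3, 0))
        (x (3, 1))
        (c * (pp (x (0, 0)) (x (0, 1)) * x (3, 0))) (c * (qq (x (0, 0)) (x (0, 1)) * x (3, 1))) := by
      rw [← hv0, ← hv1, mk_eta]
    rw [this]
    simp only [mk00, mk01, mk10, mk11]
    exact tendsto_mk tendsto_const_nhds tendsto_const_nhds tendsto_const_nhds tendsto_const_nhds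
      hX0 hX1 hW0 hW1 ((hW0.const_mul _).const_mul _) ((hW1.const_mul _).const_mul _)

/-! ### the open part is preconnected -/

/-- the curve of `u`, `y` -/
def HH : Set ((ℂ × ℂ) × (ℂ × ℂ)) := {q | q.1 ≠ 0 ∧ q.2 ≠ 0 ∧
    q.2.1 ^ 2 * (q.1.1 ^ 3 + 2 * q.1.2 ^ 3) = q.2.2 ^ 2 * (q.1.1 ^ 3 + 3 * q.1.2 ^ 3)}

/-- the parametrisation of the open part -/
noncomputable def param (t : ((ℂ × ℂ) × (ℂ × ℂ)) × ℂ × ℂ × ℂ × ℂ) : Coord 3 → ℂ :=
  mk t.1.1.1 t.1.1.2 t.1.2.1 t.1.2.2 (t.2.2.1 * Xf t.2.1) t.2.2.1 (t.2.2.2.1 * Wf t.2.1) t.2.2.2.1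
      (t.2.2.2.2 * (pp t.1.1.1 t.1.1.2 * Wf t.2.1)) (t.2.2.2.2 * qq t.1.1.1 t.1.1.2)

/-- the domain of the parametrisation -/
def dom : Set (((ℂ × ℂ) × (ℂ × ℂ)) × ℂ × ℂ × ℂ × ℂ) :=
  HH ×ˢ (({z : ℂ | 2 * z ∈ Lq.lattice}ᶜ : Set ℂ) ×ˢ
      (({0}ᶜ : Set ℂ) ×ˢ (({0}ᶜ : Set ℂ) ×ˢ ({0}ᶜ : Set ℂ))))

lemma GG_image : GG ⊆ param '' dom := by
  intro x hx
  obtain ⟨c, hc, hv0, hv1⟩ := exists_coef (GG_sub_S1 hx)
  obtain ⟨⟨⟨hu, hy, hx01, _, hv⟩, h0, h1, h2⟩, hw0, hw1⟩ := hx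
  have hx1 : x (2, 1) ≠ 0 := by
    intro h
    rw [h] at h1
    have h3 : x (3, 1) ^ 2 * x (2, 0) ^ 2 = 0 := by linear_combination -h1
    rcases mul_eq_zero.1 h3 with h' | h'
    · exact hw1 (pow_eq_zero_iff (by norm_num) |>.1 h')
    · rcases hx01 with h'' | h''
      · exact h'' (pow_eq_zero_iff (by norm_num) |>.1 h')
      · exact h'' h
  have hx0 : x (2, 0) ≠ 0 := by
    intro h
    rw [h] at h1
    have h3 : x (3, 1) ^ 2 * x (2, 1) ^ 2 = 0 := by linear_combination h1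
    rcases mul_eq_zero.1 h3 with h' | h'
    · exact hw1 (pow_eq_zero_iff (by norm_num) |>.1 h')
    · exact hx1 (pow_eq_zero_iff (by norm_num) |>.1 h')
  obtain ⟨z, hz, hX, hW⟩ := XW_surjective (x := x (2, 0) / x (2, 1)) (w := x (3, 0) / x (3, 1))
    (div_ne_zero hx0 hx1) (div_ne_zero hw0 hw1) (by
      field_simp
      linear_combination h1)
  refine ⟨(((x (0, 0), x (0, 1)), (x (1, 0), x (1, 1))), z, x (2, 1), x (3, 1), c * x (3, 1)),
    ?_, ?_⟩
  · refine ⟨⟨?_, ?_, h0⟩, hz, hx1, hw1, mul_ne_zero hc hw1⟩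
    · simp only [ne_eq, Prod.mk_eq_zero, not_and_or]
      exact hu
    · simp only [ne_eq, Prod.mk_eq_zero, not_and_or]
      exact hy
  · simp only [param]
    rw [hX, hW]
    have e1 : x (2, 1) * (x (2, 0) / x (2, 1)) = x (2, 0) := by field_simp
    have e2 : x (3, 1) * (x (3, 0) / x (3, 1)) = x (3, 0) := by field_simp
    have e3 : c * x (3, 1) * (pp (x (0, 0)) (x (0, 1)) * (x (3, 0) / x (3, 1))) = x (4, 0) := by
      rw [hv0]
      field_simp
    have e4 : c * x (3, 1) * qq (x (0, 0)) (x (0, 1)) = x (4, 1) := by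
      rw [hv1]
      ring
    rw [e1, e2, e3, e4, mk_eta]

lemma image_GG : param '' dom ⊆ GG := by
  rintro _ ⟨⟨⟨⟨u0, u1⟩, ⟨y0, y1⟩⟩, z, a, b, c⟩, ⟨⟨hu, hy, h0⟩, hz, ha, hb, hc⟩, rfl⟩
  simp only [Set.mem_compl_iff, Set.mem_singleton_iff, ne_eq, Prod.mk_eq_zero, not_and_or,
    Set.mem_ofPred_eq] at hu hy h0 hz ha hb hc
  obtain ⟨hz1, hz2⟩ := not_mem_of hz
  have hW : Wf z ≠ 0 := fun h => hz (Wf_eq_zero_iff.1 h)
  have hWX := Wf_sq_mul_Xf hz1 hz2
  refine ⟨⟨⟨hu, hy, Or.inr ha, Or.inr hb, ?_⟩, h0, ?_, ?_⟩, ?_, ?_⟩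
  · simp only [param, mk40, mk41]
    rcases Conn.pq_ne hu with h | h
    · left; exact mul_ne_zero hc (mul_ne_zero h hW)
    · right; exact mul_ne_zero hc h
  · simp only [param, mk20, mk21, mk30, mk31]
    linear_combination (b ^ 2 * a ^ 2) * hWX
  · simp only [param, mk30, mk31, mk00, mk01, mk40, mk41]
    ring
  · exact mul_ne_zero hb hW
  · exact hb

lemma GG_preconnected : IsPreconnected GG := by
  have hEq := Set.Subset.antisymm GG_image image_GG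
  rw [hEq]
  apply IsPreconnected.image
  · apply IsPreconnected.prod
    · exact hyper_connected.isPreconnected
    · apply IsPreconnected.prod
      · exact (Set.Countable.isConnected_compl_of_one_lt_rank (by
          rw [← Module.finrank_eq_rank]
          simp only [Complex.finrank_real_complex]
          norm_num) Conn.countable_lattice).isPreconnected
      · have h0 : IsPreconnected ({0}ᶜ : Set ℂ) :=
          (isConnected_compl_singleton_of_one_lt_rank (by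
            rw [← Module.finrank_eq_rank]
            simp only [Complex.finrank_real_complex]
            norm_num) _).isPreconnected
        exact h0.prod (h0.prod h0)
  · have hXc : ContinuousOn Xf ({z : ℂ | 2 * z ∈ Lq.lattice}ᶜ) := fun z hz =>
      (Xf_analyticAt (not_mem_of hz).1).continuousAt.continuousWithinAt
    have hWc : ContinuousOn Wf ({z : ℂ | 2 * z ∈ Lq.lattice}ᶜ) := fun z hz =>
      (Wf_analyticAt (not_mem_of hz).1 (not_mem_of hz).2).continuousAt.continuousWithinAt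
    have hXc' : ContinuousOn (fun t : ((ℂ × ℂ) × (ℂ × ℂ)) × ℂ × ℂ × ℂ × ℂ => Xf t.2.1) dom :=
      hXc.comp (by fun_prop) (fun t ht => ht.2.1)
    have hWc' : ContinuousOn (fun t : ((ℂ × ℂ) × (ℂ × ℂ)) × ℂ × ℂ × ℂ × ℂ => Wf t.2.1) dom :=
      hWc.comp (by fun_prop) (fun t ht => ht.2.1)
    intro t ht
    have hX := hXc' t ht
    have hW := hWc' t ht
    have hpp : ContinuousWithinAt (fun t : ((ℂ × ℂ) × (ℂ × ℂ)) × ℂ × ℂ × ℂ × ℂ =>
        pp t.1.1.1 t.1.1.2) dom t := by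
      unfold pp
      fun_prop
    have hqq : ContinuousWithinAt (fun t : ((ℂ × ℂ) × (ℂ × ℂ)) × ℂ × ℂ × ℂ × ℂ =>
        qq t.1.1.1 t.1.1.2) dom t := by
      unfold qq
      fun_prop
    exact tendsto_mk (by fun_prop : ContinuousWithinAt
        (fun t : ((ℂ × ℂ) × (ℂ × ℂ)) × ℂ × ℂ × ℂ × ℂ => t.1.1.1) dom t)
      (by fun_prop : ContinuousWithinAt
        (fun t : ((ℂ × ℂ) × (ℂ × ℂ)) × ℂ × ℂ × ℂ × ℂ => t.1.1.2) dom t)
      (by fun_prop : ContinuousWithinAt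
        (fun t : ((ℂ × ℂ) × (ℂ × ℂ)) × ℂ × ℂ × ℂ × ℂ => t.1.2.1) dom t)
      (by fun_prop : ContinuousWithinAt
        (fun t : ((ℂ × ℂ) × (ℂ × ℂ)) × ℂ × ℂ × ℂ × ℂ => t.1.2.2) dom t)
      (ContinuousWithinAt.mul (by fun_prop) hX)
      (by fun_prop : ContinuousWithinAt
        (fun t : ((ℂ × ℂ) × (ℂ × ℂ)) × ℂ × ℂ × ℂ × ℂ => t.2.2.1) dom t)
      (ContinuousWithinAt.mul (by fun_prop) hW)
      (by fun_prop : ContinuousWithinAt
        (fun t : ((ℂ × ℂ) × (ℂ × ℂ)) × ℂ × ℂ × ℂ × ℂ => t.2.2.2.1) dom t)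
      (ContinuousWithinAt.mul (by fun_prop) (hpp.mul hW))
      (ContinuousWithinAt.mul (by fun_prop) hqq)

lemma S1_preconnected : IsPreconnected S1 :=
  GG_preconnected.subset_closure GG_sub_S1 S1_sub_closure

/-! ### the exceptional points -/

/-- where `p q = 0` the polynomials `u³ + 2`, `u³ + 3` do not vanish -/
lemma ab_ne {a b : ℂ} (h : a ≠ 0 ∨ b ≠ 0) (hpq : pp a b = 0 ∨ qq a b = 0) :
    aa a b ≠ 0 ∧ bb a b ≠ 0 := by
  -- both vanishing statements give `a = b = 0`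
  have key : ∀ k : ℂ, k ^ 2 * 2 + 1 ≠ 0 → k ^ 4 ≠ 1 → k ≠ 0 → a ^ 3 + k * b ^ 3 ≠ 0 := by
    intro k hk1 hk2 hk0 hc
    have hzero : a = 0 ∧ b = 0 := by
      rcases hpq with hp | hq
      · unfold pp at hp
        rcases mul_eq_zero.1 hp with h3 | h3
        · rcases mul_eq_zero.1 h3 with h4 | h4
          · subst h4
            have : b ^ 3 = 0 := by
              have : k * b ^ 3 = 0 := by linear_combination hc
              rcases mul_eq_zero.1 this with h' | h'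
              · exact absurd h' hk0
              · exact h'
            exact ⟨rfl, pow_eq_zero_iff (by norm_num) |>.1 this⟩
          · subst h4
            have : a ^ 3 = 0 := by linear_combination hc
            exact ⟨pow_eq_zero_iff (by norm_num) |>.1 this, rfl⟩
        · have h4 : a ^ 4 = b ^ 4 := sub_eq_zero.1 h3
          have h5 : a ^ 3 = - (k * b ^ 3) := by linear_combination hc
          have h6 : a ^ 12 = k ^ 4 * b ^ 12 := by
            have : (a ^ 3) ^ 4 = (- (k * b ^ 3)) ^ 4 := by rw [h5]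
            linear_combination this
          have h7 : a ^ 12 = b ^ 12 := by
            have : (a ^ 4) ^ 3 = (b ^ 4) ^ 3 := by rw [h4]
            linear_combination this
          have h8 : (k ^ 4 - 1) * b ^ 12 = 0 := by linear_combination h7 - h6
          have h9 : b ^ 12 = 0 := by
            rcases mul_eq_zero.1 h8 with h' | h'
            · exact absurd (sub_eq_zero.1 h') hk2
            · exact h'
          have h10 : a ^ 12 = 0 := by rw [h7, h9]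
          exact ⟨pow_eq_zero_iff (by norm_num) |>.1 h10, pow_eq_zero_iff (by norm_num) |>.1 h9⟩
      · unfold qq at hq
        have h5 : a ^ 3 = - (k * b ^ 3) := by linear_combination hc
        have h6 : a ^ 6 = k ^ 2 * b ^ 6 := by
          have : (a ^ 3) ^ 2 = (- (k * b ^ 3)) ^ 2 := by rw [h5]
          linear_combination this
        have h8 : (k ^ 2 * 2 + 1) * b ^ 6 = 0 := by linear_combination hq - 2 * h6
        have h9 : b ^ 6 = 0 := by
          rcases mul_eq_zero.1 h8 with h' | h'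
          · exact absurd h' hk1
          · exact h'
        have h10 : a ^ 6 = 0 := by rw [h6, h9, mul_zero]
        exact ⟨pow_eq_zero_iff (by norm_num) |>.1 h10, pow_eq_zero_iff (by norm_num) |>.1 h9⟩
    rcases h with h' | h'
    · exact h' hzero.1
    · exact h' hzero.2
  exact ⟨key 2 (by norm_num) (by norm_num) (by norm_num),
    key 3 (by norm_num) (by norm_num) (by norm_num)⟩

/-- the square root of `s` near `1` -/
noncomputable def rt (s : ℂ) : ℂ := s ^ ((1 : ℂ) / 2)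

lemma rt_sq (s : ℂ) : rt s ^ 2 = s := by
  unfold rt
  rw [← Complex.cpow_nat_mul]
  norm_num

lemma rt_one : rt 1 = 1 := by
  unfold rt
  rw [Complex.one_cpow]

lemma rt_continuousAt : ContinuousAt rt 1 := by
  unfold rt
  exact continuousAt_id.cpow continuousAt_const (by simp)

lemma mem_closure_and {s : Set ℂ} (h : (0 : ℂ) ∈ closure s) {P : ℂ → Prop}
    (hP : ∀ᶠ t in 𝓝 (0 : ℂ), P t) : (0 : ℂ) ∈ closure {t | t ∈ s ∧ P t} := by
  rw [mem_closure_iff_frequently] at h ⊢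
  exact h.and_eventually hP

/-- moving `u` in the surface, general form -/
lemma move_u {x : Coord 3 → ℂ} (hE : Eqs x)
    (hpq : pp (x (0, 0)) (x (0, 1)) = 0 ∨ qq (x (0, 0)) (x (0, 1)) = 0) (k v0 v1 : ℂ)
    (hv : v0 ≠ 0 ∨ v1 ≠ 0) (s : Set ℂ) (hs : s.Finite)
    (hgood : ∀ t, t ∉ s → (x (0, 0) + t ≠ 0 ∨ x (0, 1) + k * t ≠ 0) ∧
      v0 * qq (x (0, 0) + t) (x (0, 1) + k * t) * x (3, 1) =
        v1 * pp (x (0, 0) + t) (x (0, 1) + k * t) * x (3, 0) ∧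
      (pp (x (0, 0) + t) (x (0, 1) + k * t) * x (3, 0) ≠ 0 ∨
        qq (x (0, 0) + t) (x (0, 1) + k * t) * x (3, 1) ≠ 0)) :
    mk (x (0, 0)) (x (0, 1)) (x (1, 0)) (x (1, 1)) (x (2, 0)) (x (2, 1)) (x (3, 0)) (x (3, 1))
      v0 v1 ∈ closure S1 := by
  obtain ⟨ha, hb⟩ := ab_ne hE.1.1 hpq
  set A := aa (x (0, 0)) (x (0, 1)) with hA
  set B := bb (x (0, 0)) (x (0, 1)) with hB
  set R : ℂ → ℂ := fun t => (bb (x (0, 0) + t) (x (0, 1) + k * t) * A) /
    (aa (x (0, 0) + t) (x (0, 1) + k * t) * B) with hR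
  have hAc : ContinuousAt (fun t : ℂ => aa (x (0, 0) + t) (x (0, 1) + k * t)) 0 := by
    unfold aa
    fun_prop
  have hBc : ContinuousAt (fun t : ℂ => bb (x (0, 0) + t) (x (0, 1) + k * t)) 0 := by
    unfold bb
    fun_prop
  have hA0 : aa (x (0, 0) + 0) (x (0, 1) + k * 0) = A := by rw [mul_zero, add_zero, add_zero]
  have hB0 : bb (x (0, 0) + 0) (x (0, 1) + k * 0) = B := by rw [mul_zero, add_zero, add_zero]
  have hR0 : R 0 = 1 := by
    simp only [hR]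
    rw [hA0, hB0, mul_comm B A]
    exact div_self (mul_ne_zero ha hb)
  have hRc : ContinuousAt R 0 := by
    have hne : aa (x (0, 0) + 0) (x (0, 1) + k * 0) * B ≠ 0 := by
      rw [hA0]
      exact mul_ne_zero ha hb
    exact ContinuousAt.div (f := fun t => bb (x (0, 0) + t) (x (0, 1) + k * t) * A)
      (g := fun t => aa (x (0, 0) + t) (x (0, 1) + k * t) * B)
      (hBc.mul continuousAt_const) (hAc.mul continuousAt_const) hne
  have hRt : ContinuousAt (fun t => rt (R t)) 0 := by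
    apply ContinuousAt.comp (g := rt)
    · rw [hR0]
      exact rt_continuousAt
    · exact hRc
  have hcl := zero_mem_closure hs
  have hAe : ∀ᶠ t in 𝓝 (0 : ℂ), aa (x (0, 0) + t) (x (0, 1) + k * t) ≠ 0 :=
    hAc.eventually_ne (by rw [hA0]; exact ha)
  have hcl2 := mem_closure_and hcl hAe
  have hcont : ContinuousAt (fun t : ℂ => mk (x (0, 0) + t) (x (0, 1) + k * t)
      (x (1, 0) * rt (R t)) (x (1, 1)) (x (2, 0)) (x (2, 1)) (x (3, 0)) (x (3, 1)) v0 v1) 0 := by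
    exact tendsto_mk (by fun_prop : ContinuousAt (fun t : ℂ => x (0, 0) + t) 0)
      (by fun_prop : ContinuousAt (fun t : ℂ => x (0, 1) + k * t) 0)
      (continuousAt_const.mul hRt)
      tendsto_const_nhds tendsto_const_nhds tendsto_const_nhds tendsto_const_nhds
      tendsto_const_nhds tendsto_const_nhds tendsto_const_nhds
  have himg := hcont.continuousWithinAt.mem_closure_image hcl2
  simp only [add_zero, mul_zero, hR0, rt_one, mul_one] at himg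
  refine closure_mono ?_ himg
  rintro _ ⟨t, ⟨ht, hAt⟩, rfl⟩
  obtain ⟨h1, h2, h3⟩ := hgood t ht
  refine ⟨⟨⟨h1, ?_, hE.1.2.2.1, hE.1.2.2.2.1, hv⟩, ?_, hE.2.2.1, h2⟩, h3⟩
  · simp only [mk10, mk11]
    right
    intro h
    have h5 := hE.2.1
    rw [h] at h5
    have h6 : x (1, 0) ^ 2 * A = 0 := by rw [h5]; ring
    rcases mul_eq_zero.1 h6 with h7 | h7
    · rcases hE.1.2.1 with h8 | h8
      · exact h8 (pow_eq_zero_iff (by norm_num) |>.1 h7)
      · exact h8 h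
    · exact ha h7
  · simp only [mk00, mk01, mk10, mk11]
    rw [mul_pow, rt_sq]
    simp only [hR]
    have h5 : x (1, 0) ^ 2 * A = x (1, 1) ^ 2 * B := hE.2.1
    generalize aa (x (0, 0) + t) (x (0, 1) + k * t) = a' at hAt ⊢
    generalize bb (x (0, 0) + t) (x (0, 1) + k * t) = b'
    have h6 : x (1, 0) ^ 2 * (b' * A / (a' * B)) * a' = (x (1, 0) ^ 2 * A) * b' / B := by
      field_simp
    rw [h6, h5]
    field_simp

/-- the points where `v` is free -/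
lemma free_point {x : Coord 3 → ℂ} (hx : x ∈ SS) (hx1 : x ∉ S1) :
    ∃ y ∈ closure S1, y ∈ SS ∧ ∃ t ⊆ SS, x ∈ t ∧ y ∈ t ∧ IsPreconnected t := by
  have hE : Eqs x := hx
  have h0 : pp (x (0, 0)) (x (0, 1)) * x (3, 0) = 0 ∧
      qq (x (0, 0)) (x (0, 1)) * x (3, 1) = 0 := by
    by_contra hc
    apply hx1
    refine ⟨hE, ?_⟩
    rcases not_and_or.1 hc with h | h
    · left; exact h
    · right; exact h
  obtain ⟨⟨hu, hY, hX, hW, hV⟩, e0, e1, e2⟩ := hE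
  -- the family with `v` free
  have hfam : ∀ a b : ℂ, (a ≠ 0 ∨ b ≠ 0) →
      mk (x (0, 0)) (x (0, 1)) (x (1, 0)) (x (1, 1)) (x (2, 0)) (x (2, 1)) (x (3, 0)) (x (3, 1))
        a b ∈ SS := by
    intro a b hab
    refine ⟨⟨hu, hY, hX, hW, hab⟩, e0, e1, ?_⟩
    simp only [mk40, mk41, mk00, mk01, mk30, mk31]
    linear_combination a * h0.2 - b * h0.1
  have hpre : IsPreconnected ((fun t : ℂ × ℂ => mk (x (0, 0)) (x (0, 1)) (x (1, 0)) (x (1, 1))
      (x (2, 0)) (x (2, 1)) (x (3, 0)) (x (3, 1)) t.1 t.2) '' ({(0, 0)}ᶜ : Set (ℂ × ℂ))) := by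
    apply IsPreconnected.image
    · exact (isConnected_compl_singleton_of_one_lt_rank (by
        rw [← Module.finrank_eq_rank]
        simp only [Module.finrank_prod, Complex.finrank_real_complex]
        norm_num) _).isPreconnected
    · intro t _
      exact tendsto_mk tendsto_const_nhds tendsto_const_nhds tendsto_const_nhds
        tendsto_const_nhds tendsto_const_nhds tendsto_const_nhds tendsto_const_nhds
        tendsto_const_nhds
        (by fun_prop : ContinuousWithinAt (fun t : ℂ × ℂ => t.1) _ t)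
        (by fun_prop : ContinuousWithinAt (fun t : ℂ × ℂ => t.2) _ t)
  have hsub : ((fun t : ℂ × ℂ => mk (x (0, 0)) (x (0, 1)) (x (1, 0)) (x (1, 1))
      (x (2, 0)) (x (2, 1)) (x (3, 0)) (x (3, 1)) t.1 t.2) '' ({(0, 0)}ᶜ : Set (ℂ × ℂ))) ⊆
      SS := by
    rintro _ ⟨⟨a, b⟩, hab, rfl⟩
    simp only [Set.mem_compl_iff, Set.mem_singleton_iff, Prod.mk.injEq, not_and_or] at hab
    exact hfam a b hab
  have hxmem : x ∈ ((fun t : ℂ × ℂ => mk (x (0, 0)) (x (0, 1)) (x (1, 0)) (x (1, 1))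
      (x (2, 0)) (x (2, 1)) (x (3, 0)) (x (3, 1)) t.1 t.2) '' ({(0, 0)}ᶜ : Set (ℂ × ℂ))) := by
    refine ⟨(x (4, 0), x (4, 1)), ?_, mk_eta x⟩
    simp only [Set.mem_compl_iff, Set.mem_singleton_iff, Prod.mk.injEq, not_and_or]
    exact hV
  by_cases hw1 : x (3, 1) = 0
  · -- `w1 = 0`, `p = 0`
    have hw0 : x (3, 0) ≠ 0 := by
      rcases hW with h | h
      · exact h
      · exact absurd hw1 h
    have hp : pp (x (0, 0)) (x (0, 1)) = 0 := by
      rcases mul_eq_zero.1 h0.1 with h | h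
      · exact h
      · exact absurd h hw0
    refine ⟨_, move_u ⟨⟨hu, hY, hX, hW, hV⟩, e0, e1, e2⟩ (Or.inl hp) 2 1 0
      (Or.inl one_ne_zero) _ (finite_pp (x (0, 0)) (x (0, 1))) ?_,
      hfam 1 0 (Or.inl one_ne_zero), _, hsub, hxmem, ⟨(1, 0), by simp, rfl⟩, hpre⟩
    intro t ht
    have hp : pp (x (0, 0) + t) (x (0, 1) + 2 * t) ≠ 0 := ht
    refine ⟨?_, ?_, ?_⟩
    · by_contra hc
      push Not at hc
      apply hp
      rw [hc.1]
      simp [pp]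
    · rw [hw1]
      ring
    · left
      exact mul_ne_zero hp hw0
  · -- `q = 0`, `w0 = 0`
    have hq : qq (x (0, 0)) (x (0, 1)) = 0 := by
      rcases mul_eq_zero.1 h0.2 with h | h
      · exact h
      · exact absurd h hw1
    have hp : pp (x (0, 0)) (x (0, 1)) ≠ 0 := by
      rcases Conn.pq_ne hu with h | h
      · exact h
      · exact absurd hq h
    have hw0 : x (3, 0) = 0 := by
      rcases mul_eq_zero.1 h0.1 with h | h
      · exact absurd h hp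
      · exact h
    refine ⟨_, move_u ⟨⟨hu, hY, hX, hW, hV⟩, e0, e1, e2⟩ (Or.inr hq) 0 0 1
      (Or.inr one_ne_zero) _ (finite_qq (x (0, 0)) (x (0, 1))) ?_,
      hfam 0 1 (Or.inr one_ne_zero), _, hsub, hxmem, ⟨(0, 1), by simp, rfl⟩, hpre⟩
    intro t ht
    have hq' : qq (x (0, 0) + t) (x (0, 1)) ≠ 0 := ht
    rw [zero_mul, add_zero]
    refine ⟨?_, ?_, ?_⟩
    · by_contra hc
      push Not at hc
      apply hq'
      rw [hc.1, hc.2]
      simp [qq]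
    · rw [hw0]
      ring
    · right
      exact mul_ne_zero hq' hw1

lemma exists_GG : ∃ x, x ∈ GG := by
  obtain ⟨r, hr⟩ := exists_sqrt (3 / 2)
  have hr0 : r ≠ 0 := by
    intro h
    rw [h] at hr
    norm_num at hr
  refine ⟨mk 1 0 1 1 2 1 r 1 0 1, ⟨⟨Or.inl ?_, Or.inl ?_, Or.inl ?_, Or.inr ?_, Or.inr ?_⟩,
    ?_, ?_, ?_⟩, ?_, ?_⟩
  · simp
  · simp
  · simp
  · simp
  · simp
  · simp [aa, bb]
  · simp only [mk30, mk31, mk20, mk21]
    rw [hr]
    norm_num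
  · simp [pp]
  · simpa using hr0
  · simp

lemma SS_preconnected : IsPreconnected SS := by
  obtain ⟨g, hg⟩ := exists_GG
  refine isPreconnected_of_forall g (fun x hx => ?_)
  by_cases hx1 : x ∈ S1
  · exact ⟨S1, S1_sub_SS, GG_sub_S1 hg, hx1, S1_preconnected⟩
  · obtain ⟨y, hy, hyS, t, ht, hxt, hyt, htp⟩ := free_point hx hx1
    refine ⟨(S1 ∪ {y}) ∪ t, ?_, ?_, Or.inr hxt, ?_⟩
    · apply Set.union_subset _ ht
      exact Set.union_subset S1_sub_SS (Set.singleton_subset_iff.2 hyS)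
    · exact Or.inl (Or.inl (GG_sub_S1 hg))
    · apply IsPreconnected.union y (Or.inr rfl) hyt _ htp
      apply S1_preconnected.subset_closure Set.subset_union_left
      exact Set.union_subset subset_closure (Set.singleton_subset_iff.2 hy)

end Conn2

theorem surface2_connected : IsConnected {x : Coord 3 → ℂ | IsPoint x ∧
    ∀ j, eval x ((![G0, G1, G2] : Fin 3 → MvPolynomial (Coord 3) ℂ) j) = 0} := by
  rw [Conn2.set_eq]
  obtain ⟨g, hg⟩ := Conn2.exists_GG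
  exact ⟨⟨g, hg.1⟩, Conn2.SS_preconnected⟩

end MP79ab39
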