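import Pool.Agent.Lib_MP_79ab39_ag.Genus
import Pool.Agent.Lib_MP_79ab39_ag.Smooth
import Pool.Agent.Lib_MP_79ab39_ag.Connected
import Pool.Agent.Lib_MP_79ab39_ag.Degree
import Pool.Agent.Lib_MP_79ab39_ag.Curve

/-!
# Curves of genus one and of unbounded canonical degree on a smooth projective surface
-/

open MvPolynomial Complex PeriodPair Filter Topology

namespace MP79ab39


/-- The surface. -/
noncomputable def theSurface : CISurface 2 where
  F := ![F1, F2]
  d := ![![0, 2, 2, 0], ![6, 0, 1, 1]]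
  homogeneous := by
    intro j
    fin_cases j
    · exact F1_homogeneous
    · exact F2_homogeneous
  smooth := surface_smooth
  connected := surface_connected

lemma natMul_mem {l : ℂ} (hl : l ∈ Lq.lattice) (n : ℕ) : (n : ℂ) * l ∈ Lq.lattice := by
  have := Lq.lattice.smul_mem (n : ℤ) hl
  simpa using this

lemma comp_natMul_meromorphic {f : ℂ → ℂ} (hf : Meromorphic f) (n : ℕ) :
    Meromorphic (fun z => f (n * z)) := by
  rcases Nat.eq_zero_or_pos n with rfl | hn
  · simp only [Nat.cast_zero, zero_mul]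
    exact fun z => MeromorphicAt.const _ z
  · intro z
    have hg : AnalyticAt ℂ (fun z : ℂ => (n : ℂ) * z) z := by fun_prop
    have hn' : (n : ℂ) ≠ 0 := Nat.cast_ne_zero.mpr hn.ne'
    have hd : deriv (fun z : ℂ => (n : ℂ) * z) z ≠ 0 := by
      rw [deriv_const_mul_field]
      simpa using hn'
    exact (meromorphicAt_comp_iff_of_deriv_ne_zero (f := f) hg hd).2 (hf _)

lemma Uf_meromorphic (m : ℕ) : Meromorphic (Uf m) :=
  fun z => ((comp_natMul_meromorphic Wf_meromorphic m) z).div (Wf_meromorphic z)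

lemma Rf_meromorphic (m : ℕ) : Meromorphic (Rf m) := by
  intro z
  have h := Uf_meromorphic m z
  unfold Rf
  have h1 : MeromorphicAt (fun z => Uf m z ^ 4 - 1) z := (h.pow 4).sub (MeromorphicAt.const _ z)
  have h2 : MeromorphicAt (fun z => 2 * Uf m z ^ 6 + 1) z :=
    ((MeromorphicAt.const _ z).mul (h.pow 6)).add (MeromorphicAt.const _ z)
  exact (h.mul h1).div h2

lemma curveFun_meromorphic {m : ℕ} (i : Fin 4) : Meromorphic (curveFun m i) := by
  have e0 : (curveFun m 0) = Uf m := by funext z; simp [curveFun]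
  have e1 : (curveFun m 1) = fun z => Xf (NN m * z) := by funext z; simp [curveFun]
  have e2 : (curveFun m 2) = fun z => Wf (NN m * z) := by funext z; simp [curveFun]
  have e3 : (curveFun m 3) = Vf m := by funext z; simp [curveFun]
  fin_cases i
  · exact e0 ▸ Uf_meromorphic m
  · exact e1 ▸ comp_natMul_meromorphic Xf_meromorphic _
  · exact e2 ▸ comp_natMul_meromorphic Wf_meromorphic _
  · exact e3 ▸ fun z => (Rf_meromorphic m z).mul (comp_natMul_meromorphic Wf_meromorphic _ z)

lemma Uf_periodic (m : ℕ) {l : ℂ} (hl : l ∈ Lq.lattice) (z : ℂ) : Uf m (z + l) = Uf m z := by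
  unfold Uf
  rw [mul_add, Wf_periodic (natMul_mem hl m), Wf_periodic hl]

lemma curveFun_periodic {m : ℕ} (i : Fin 4) {l : ℂ} (hl : l ∈ Lq.lattice) (z : ℂ) :
    curveFun m i (z + l) = curveFun m i z := by
  have hU := Uf_periodic m hl z
  unfold curveFun Vf Rf
  rw [hU, mul_add, Wf_periodic (natMul_mem hl _), Xf_periodic (natMul_mem hl _)]

noncomputable def theCurve {m : ℕ} (hm : Even m) (hm2 : 2 ≤ m) : TorusCurve theSurface where
  L := Lq
  f := curveFun m
  meromorphic := curveFun_meromorphic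
  periodic := fun i _ hl z => curveFun_periodic i hl z
  mem := by
    obtain ⟨D1, hD1, h1⟩ := curve_eq1 hm hm2
    obtain ⟨D2, hD2, h2⟩ := curve_eq2 hm hm2
    refine ⟨D1 ∪ D2, hD1.union hD2, fun z hz j => ?_⟩
    rw [Set.mem_union, not_or] at hz
    have e1 := h1 z hz.1
    have e2 := h2 z hz.2
    fin_cases j
    · simp [theSurface, F1, curveFun]
      linear_combination e1
    · simp [theSurface, F2, curveFun]
      linear_combination e2
  birational := by
    obtain ⟨D, hD, h⟩ := curve_birational hm hm2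
    refine ⟨D, hD, fun z hz z' hz' heq => h z hz z' hz' ?_ ?_ ?_⟩
    · simpa [curveFun] using heq 0
    · simpa [curveFun] using heq 1
    · simpa [curveFun] using heq 2

theorem canonicalDegree_ge {m : ℕ} (hm : Even m) (hm2 : 2 ≤ m) :
    4 * (m : ℤ) - 2 ≤ (theCurve hm hm2).canonicalDegree := by
  have h1 := degree_Uf_ge hm hm2
  have h2 := degree_Vf_le hm hm2
  have e0 : (curveFun m 0) = Uf m := by funext z; simp [curveFun]
  have e2 : (curveFun m 2) = fun z => Wf (NN m * z) := by funext z; simp [curveFun]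
  have e3 : (curveFun m 3) = Vf m := by funext z; simp [curveFun]
  have : (theCurve hm hm2).canonicalDegree =
      4 * (degree Lq (Uf m) : ℤ) + (degree Lq (fun z => Wf (NN m * z)) : ℤ)
        - (degree Lq (Vf m) : ℤ) := by
    simp only [TorusCurve.canonicalDegree, CISurface.canonicalClass, theCurve, theSurface]
    rw [Fin.sum_univ_four]
    simp only [Fin.sum_univ_two, e0, e2, e3]
    simp
    ring
  rw [this]
  zify at h1 h2
  linarith

theorem genus_eq_one {c : ℕ} {X : CISurface c} (C : TorusCurve X) : C.genus = 1 :=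
  finrank_holoForms C.L

theorem main : ∃ (c : ℕ) (X : CISurface c), ∀ A B : ℝ, ∃ C : TorusCurve X,
    C.genus = 1 ∧ A * ((C.genus : ℝ) - 1) + B < (C.canonicalDegree : ℝ) := by
  refine ⟨2, theSurface, fun A B => ?_⟩
  obtain ⟨n, hn⟩ := exists_nat_gt (max B 1)
  have hm : Even (2 * n + 2) := ⟨n + 1, by ring⟩
  have hm2 : 2 ≤ 2 * n + 2 := by omega
  refine ⟨theCurve hm hm2, genus_eq_one _, ?_⟩
  have h := canonicalDegree_ge hm hm2
  have h' : (4 * ((2 * n + 2 : ℕ) : ℝ) - 2) ≤ ((theCurve hm hm2).canonicalDegree : ℝ) := by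
    exact_mod_cast h
  have hB : B < n := lt_of_le_of_lt (le_max_left _ _) hn
  have hn0 : (0 : ℝ) ≤ n := Nat.cast_nonneg n
  rw [genus_eq_one, Nat.cast_one, sub_self, mul_zero, zero_add]
  push_cast at h'
  linarith

end MP79ab39
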