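import Pool.Agent.Lib_MP_79ab39_ag.DefsTwo
import Pool.Agent.Lib_MP_79ab39_ag.Main

/-! The function defining the double cover. -/

namespace MP79ab39

/-- `ρ = (U³ + 3)/(U³ + 2)` -/
noncomputable def rhof (m : ℕ) (z : ℂ) : ℂ := (Uf m z ^ 3 + 3) / (Uf m z ^ 3 + 2)

end MP79ab39
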