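import Pool.Agent.Lib_MP_79ab39_ag.EllipticSum
import Pool.Agent.Lib_MP_79ab39_ag.Rho
import Pool.Agent.Lib_MP_79ab39_ag.Main

/-! The double cover `s² = ρ(z)` of the torus has a branch point: `ρ = (U³+3)/(U³+2)` has somewhere a
zero or pole of odd order (count the zeros and the poles of `U'`). -/

open Complex PeriodPair Filter Topology

namespace MP79ab39

namespace OddPoint

lemma zeroMult_inv (f : ℂ → ℂ) (z : ℂ) :
    zeroMult (fun w => (f w)⁻¹) z = (-(meromorphicOrderAt f z).untop₀).toNat := by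
  unfold zeroMult
  have e : (fun w => (f w)⁻¹) = f⁻¹ := rfl
  rw [e, meromorphicOrderAt_inv]
  cases h : meromorphicOrderAt f z with
  | top => simp
  | coe n => rfl

/-- the order of the derivative is non-negative where the order of the function is -/
lemma order_deriv_nonneg {f : ℂ → ℂ} {z : ℂ} (hf : MeromorphicAt f z)
    (h : 0 ≤ meromorphicOrderAt f z) : 0 ≤ meromorphicOrderAt (deriv f) z := by
  cases hn : meromorphicOrderAt f z with
  | top =>
    have h1 : f =ᶠ[𝓝[≠] z] fun _ => 0 := meromorphicOrderAt_eq_top_iff.1 hn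
    rw [meromorphicOrderAt_congr h1.nhdsNE_deriv]
    have e : deriv (fun _ : ℂ => (0 : ℂ)) = fun _ => 0 := by funext w; simp
    rw [e]
    exact AnalyticAt.meromorphicOrderAt_nonneg analyticAt_const
  | coe n =>
    rw [hn] at h
    have hn0 : 0 ≤ n := by exact_mod_cast h
    rcases hn0.eq_or_lt with h0 | h0
    · rw [← h0] at hn
      obtain ⟨g, hg, _, hfg⟩ := (meromorphicOrderAt_eq_int_iff hf).1 hn
      have h1 : f =ᶠ[𝓝[≠] z] g := by
        filter_upwards [hfg] with w hw
        simpa using hw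
      rw [meromorphicOrderAt_congr h1.nhdsNE_deriv]
      exact AnalyticAt.meromorphicOrderAt_nonneg hg.deriv
    · have hnc : (n : ℂ) ≠ 0 := by exact_mod_cast h0.ne'
      rw [meromorphicOrderAt_deriv_eq_sub_one hnc hn]
      have : 0 ≤ n - 1 := by omega
      exact_mod_cast this

/-- the two cubic expressions have no common zero, a zero of `f ^ 3 + b` of multiplicity `k` is a
zero of `f'` of multiplicity `k - 1` -/
lemma order_cube {f : ℂ → ℂ} (hf : Meromorphic f) {b : ℂ} (hb : b ≠ 0) {z : ℂ} {k : ℤ}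
    (hk : 0 < k) (h : meromorphicOrderAt (fun w => f w ^ 3 + b) z = k) :
    0 ≤ meromorphicOrderAt f z ∧ meromorphicOrderAt (deriv f) z = ((k - 1 : ℤ) : WithTop ℤ) := by
  have hfz := hf z
  have hFz : MeromorphicAt (fun w => f w ^ 3 + b) z := by fun_prop
  have hkc : (k : ℂ) ≠ 0 := by exact_mod_cast hk.ne'
  have hF' := meromorphicOrderAt_deriv_eq_sub_one hkc h
  -- the order of `f` is zero
  have hn0 : meromorphicOrderAt f z = 0 := by
    have htF : Tendsto (fun w => f w ^ 3 + b) (𝓝[≠] z) (𝓝 0) :=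
      tendsto_zero_of_meromorphicOrderAt_pos (by rw [h]; exact_mod_cast hk)
    have ht3 : Tendsto (fun w => f w ^ 3) (𝓝[≠] z) (𝓝 (-b)) := by
      have := htF.sub_const b
      simpa using this
    have h3 : meromorphicOrderAt (fun w => f w ^ 3) z = 0 :=
      (tendsto_ne_zero_iff_meromorphicOrderAt_eq_zero (by fun_prop)).1
        ⟨-b, neg_ne_zero.2 hb, ht3⟩
    rw [fun_meromorphicOrderAt_pow hfz] at h3
    cases hn : meromorphicOrderAt f z with
    | top => rw [hn] at h3; simp at h3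
    | coe n =>
      rw [hn] at h3
      have h4 : ((3 * n : ℤ) : WithTop ℤ) = ((0 : ℤ) : WithTop ℤ) := by
        rw [WithTop.coe_zero, ← h3]
        norm_cast
      have h5 : 3 * n = 0 := WithTop.coe_injective h4
      have : n = 0 := by omega
      rw [this]; rfl
  refine ⟨hn0.ge, ?_⟩
  -- the derivative of `f ^ 3 + b`
  have hd : deriv (fun w => f w ^ 3 + b) =ᶠ[𝓝[≠] z] fun w => (3 * f w ^ 2) * deriv f w := by
    filter_upwards [hfz.eventually_analyticAt] with w hw
    have h1 : HasDerivAt f (deriv f w) w := hw.differentiableAt.hasDerivAt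
    have h2 := (h1.pow 3).add_const b
    have := h2.deriv
    simp only [Nat.cast_ofNat] at this
    exact this
  rw [meromorphicOrderAt_congr hd] at hF'
  have hm1 : MeromorphicAt (fun w => 3 * f w ^ 2) z := by fun_prop
  have hm2 : MeromorphicAt (deriv f) z := hfz.deriv
  have e : (fun w => (3 * f w ^ 2) * deriv f w) = (fun w => 3 * f w ^ 2) * deriv f := rfl
  rw [e, meromorphicOrderAt_mul hm1 hm2] at hF'
  have e2 : (fun w => 3 * f w ^ 2) = (fun _ => (3 : ℂ)) * (fun w => f w ^ 2) := rfl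
  have h2 : meromorphicOrderAt (fun w => 3 * f w ^ 2) z = 0 := by
    rw [e2, meromorphicOrderAt_mul_of_ne_zero analyticAt_const (by norm_num),
      fun_meromorphicOrderAt_pow hfz, hn0]
    simp
  rw [h2, zero_add] at hF'
  exact hF'

/-- order of `f ^ 3 + b` -/
lemma order_cube_neg {f : ℂ → ℂ} (hf : Meromorphic f) (b : ℂ) {z : ℂ} {n : ℤ} (hn : n < 0)
    (h : meromorphicOrderAt f z = n) :
    meromorphicOrderAt (fun w => f w ^ 3 + b) z = ((3 * n : ℤ) : WithTop ℤ) := by
  have hfz := hf z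
  have h1 : meromorphicOrderAt (fun w => f w ^ 3) z = ((3 * n : ℤ) : WithTop ℤ) := by
    rw [fun_meromorphicOrderAt_pow hfz, h]
    norm_cast
  rw [RBound.order_add_const, h1]
  rw [h1]
  have : 3 * n < 0 := by omega
  exact_mod_cast this

lemma order_cube_nonneg {f : ℂ → ℂ} (hf : Meromorphic f) (b : ℂ) {z : ℂ}
    (h : 0 ≤ meromorphicOrderAt f z) :
    0 ≤ meromorphicOrderAt (fun w => f w ^ 3 + b) z := by
  have hfz := hf z
  obtain ⟨c, hc⟩ := tendsto_nhds_of_meromorphicOrderAt_nonneg hfz h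
  exact (tendsto_nhds_iff_meromorphicOrderAt_nonneg (by fun_prop)).1
    ⟨c ^ 3 + b, (hc.pow 3).add_const b⟩

lemma order_ne_top {f : ℂ → ℂ} (hf : Meromorphic f) (h0 : ∃ z, meromorphicOrderAt f z ≠ ⊤) (z : ℂ) :
    meromorphicOrderAt f z ≠ ⊤ := by
  obtain ⟨w, hw⟩ := h0
  have hM : MeromorphicOn f Set.univ := fun w _ => hf w
  exact hM.meromorphicOrderAt_ne_top_of_isPreconnected isPreconnected_univ
    (Set.mem_univ w) (Set.mem_univ z) hw

/-- The key statement, for every elliptic function which has a zero. -/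
theorem exists_odd_general (L : PeriodPair) {f : ℂ → ℂ} (hf : Meromorphic f)
    (hp : ∀ l ∈ L.lattice, ∀ z, f (z + l) = f z) (hpos : 0 < degree L f) :
    ∃ z, ∃ k : ℤ, meromorphicOrderAt (fun w => (f w ^ 3 + 3) / (f w ^ 3 + 2)) z = k ∧ Odd k := by
  by_contra hcon
  push Not at hcon
  -- a zero of `f`
  obtain ⟨z₀, n₀, hn₀, hz₀⟩ : ∃ z₀, ∃ n₀ : ℤ, 0 < n₀ ∧ meromorphicOrderAt f z₀ = n₀ := by
    have h1 : ∃ z₀, zeroMult f z₀ ≠ 0 := by
      by_contra h
      push Not at h
      have : degree L f = 0 := by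
        unfold degree
        simp [h]
      omega
    obtain ⟨z₀, h1⟩ := h1
    unfold zeroMult at h1
    cases hn : meromorphicOrderAt f z₀ with
    | top => rw [hn] at h1; simp at h1
    | coe n =>
      rw [hn] at h1
      refine ⟨z₀, n, ?_, hn⟩
      have h2 : (n : ℤ).toNat ≠ 0 := h1
      omega
  have hF : Meromorphic (fun w => f w ^ 3 + 3) := fun z => by
    have := hf z; fun_prop
  have hG : Meromorphic (fun w => f w ^ 3 + 2) := fun z => by
    have := hf z; fun_prop
  have hD : Meromorphic (deriv f) := fun z => (hf z).deriv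
  have ht0 : Tendsto f (𝓝[≠] z₀) (𝓝 0) :=
    tendsto_zero_of_meromorphicOrderAt_pos (by rw [hz₀]; exact_mod_cast hn₀)
  have hf0 : ∃ z, meromorphicOrderAt f z ≠ ⊤ := ⟨z₀, by rw [hz₀]; exact WithTop.coe_ne_top⟩
  have hF0 : ∃ z, meromorphicOrderAt (fun w => f w ^ 3 + 3) z ≠ ⊤ := ⟨z₀, by
    have : meromorphicOrderAt (fun w => f w ^ 3 + 3) z₀ = 0 :=
      (tendsto_ne_zero_iff_meromorphicOrderAt_eq_zero (hF z₀)).1
        ⟨0 ^ 3 + 3, by norm_num, (ht0.pow 3).add_const 3⟩
    rw [this]; exact WithTop.coe_ne_top⟩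
  have hG0 : ∃ z, meromorphicOrderAt (fun w => f w ^ 3 + 2) z ≠ ⊤ := ⟨z₀, by
    have : meromorphicOrderAt (fun w => f w ^ 3 + 2) z₀ = 0 :=
      (tendsto_ne_zero_iff_meromorphicOrderAt_eq_zero (hG z₀)).1
        ⟨0 ^ 3 + 2, by norm_num, (ht0.pow 3).add_const 2⟩
    rw [this]; exact WithTop.coe_ne_top⟩
  have hD0 : ∃ z, meromorphicOrderAt (deriv f) z ≠ ⊤ := ⟨z₀, by
    rw [meromorphicOrderAt_deriv_eq_sub_one (by exact_mod_cast hn₀.ne') hz₀]
    exact WithTop.coe_ne_top⟩
  -- periodicity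
  have hpF : ∀ l ∈ L.lattice, ∀ z, (fun w => f w ^ 3 + 3) (z + l) = (fun w => f w ^ 3 + 3) z := by
    intro l hl z; simp only [hp l hl z]
  have hpG : ∀ l ∈ L.lattice, ∀ z, (fun w => f w ^ 3 + 2) (z + l) = (fun w => f w ^ 3 + 2) z := by
    intro l hl z; simp only [hp l hl z]
  have hpD : ∀ l ∈ L.lattice, ∀ z, deriv f (z + l) = deriv f z := by
    intro l hl z
    rw [← deriv_comp_add_const]
    congr 1
    funext w
    exact hp l hl w
  -- pointwise inequalities
  have key1 : ∀ z, zeroMult (fun w => f w ^ 3 + 3) z + zeroMult (fun w => f w ^ 3 + 2) z ≤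
      2 * zeroMult (deriv f) z := by
    intro z
    have hFt := order_ne_top hF hF0 z
    have hGt := order_ne_top hG hG0 z
    obtain ⟨k, hk⟩ := WithTop.ne_top_iff_exists.1 hFt
    obtain ⟨j, hj⟩ := WithTop.ne_top_iff_exists.1 hGt
    have hρ : meromorphicOrderAt (fun w => (f w ^ 3 + 3) / (f w ^ 3 + 2)) z =
        ((k - j : ℤ) : WithTop ℤ) := by
      have e : (fun w => (f w ^ 3 + 3) / (f w ^ 3 + 2)) =
          (fun w => f w ^ 3 + 3) / (fun w => f w ^ 3 + 2) := rfl
      rw [e, meromorphicOrderAt_div (hF z) (hG z), ← hk, ← hj]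
      rfl
    have hnodd := hcon z (k - j) hρ
    have hzF : zeroMult (fun w => f w ^ 3 + 3) z = k.toNat := by
      unfold zeroMult; rw [← hk]; rfl
    have hzG : zeroMult (fun w => f w ^ 3 + 2) z = j.toNat := by
      unfold zeroMult; rw [← hj]; rfl
    rw [hzF, hzG]
    -- not both positive
    have hnb : ¬ (0 < k ∧ 0 < j) := by
      rintro ⟨h1, h2⟩
      have t1 : Tendsto (fun w => f w ^ 3 + 3) (𝓝[≠] z) (𝓝 0) :=
        tendsto_zero_of_meromorphicOrderAt_pos (by rw [← hk]; exact_mod_cast h1)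
      have t2 : Tendsto (fun w => f w ^ 3 + 2) (𝓝[≠] z) (𝓝 0) :=
        tendsto_zero_of_meromorphicOrderAt_pos (by rw [← hj]; exact_mod_cast h2)
      have t3 := t1.sub t2
      have t4 : Tendsto (fun _ : ℂ => (1 : ℂ)) (𝓝[≠] z) (𝓝 (0 - 0)) := by
        refine t3.congr ?_
        intro w; ring
      have := tendsto_nhds_unique t4 tendsto_const_nhds
      norm_num at this
    by_cases h1 : 0 < k
    · have h2 : ¬ 0 < j := fun h => hnb ⟨h1, h⟩
      obtain ⟨h3, h4⟩ := order_cube hf (by norm_num : (3 : ℂ) ≠ 0) h1 hk.symm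
      have h5 := order_cube_nonneg hf 2 h3
      rw [← hj] at h5
      have h6 : 0 ≤ j := by exact_mod_cast h5
      have hj0 : j = 0 := by omega
      subst hj0
      have h7 : zeroMult (deriv f) z = (k - 1).toNat := by
        unfold zeroMult; rw [h4]; rfl
      rw [h7]
      rw [sub_zero, Int.not_odd_iff_even] at hnodd
      obtain ⟨r, hr⟩ := hnodd
      omega
    · by_cases h2 : 0 < j
      · obtain ⟨h3, h4⟩ := order_cube hf (by norm_num : (2 : ℂ) ≠ 0) h2 hj.symm
        have h5 := order_cube_nonneg hf 3 h3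
        rw [← hk] at h5
        have h6 : 0 ≤ k := by exact_mod_cast h5
        have hk0 : k = 0 := by omega
        subst hk0
        have h7 : zeroMult (deriv f) z = (j - 1).toNat := by
          unfold zeroMult; rw [h4]; rfl
        rw [h7]
        rw [zero_sub, Int.not_odd_iff_even, even_neg] at hnodd
        obtain ⟨r, hr⟩ := hnodd
        omega
      · omega
  have key2 : ∀ b : ℂ, ∀ z, zeroMult (fun w => (f w ^ 3 + b)⁻¹) z =
      3 * zeroMult (fun w => (f w)⁻¹) z := by
    intro b z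
    rw [zeroMult_inv (fun w => f w ^ 3 + b), zeroMult_inv f]
    obtain ⟨n, hn⟩ := WithTop.ne_top_iff_exists.1 (order_ne_top hf hf0 z)
    by_cases h : n < 0
    · rw [order_cube_neg hf b h hn.symm, ← hn]
      have e1 : (((3 * n : ℤ) : WithTop ℤ)).untop₀ = 3 * n := rfl
      have e2 : ((n : WithTop ℤ)).untop₀ = n := rfl
      rw [e1, e2]
      omega
    · have h1 : 0 ≤ meromorphicOrderAt f z := by
        rw [← hn]; exact_mod_cast (not_lt.1 h)
      have h2 := order_cube_nonneg hf b h1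
      rw [← hn]
      have e2 : ((n : WithTop ℤ)).untop₀ = n := rfl
      rw [e2]
      have h3 : 0 ≤ (meromorphicOrderAt (fun w => f w ^ 3 + b) z).untop₀ := by
        cases hq : meromorphicOrderAt (fun w => f w ^ 3 + b) z with
        | top => simp
        | coe q =>
          rw [hq] at h2
          have : 0 ≤ q := by exact_mod_cast h2
          exact this
      omega
  have key3 : ∀ z, zeroMult (fun w => (deriv f w)⁻¹) z ≤ 2 * zeroMult (fun w => (f w)⁻¹) z := by
    intro z
    rw [zeroMult_inv (deriv f), zeroMult_inv f]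
    obtain ⟨n, hn⟩ := WithTop.ne_top_iff_exists.1 (order_ne_top hf hf0 z)
    by_cases h : n < 0
    · rw [meromorphicOrderAt_deriv_eq_sub_one (by exact_mod_cast h.ne) hn.symm, ← hn]
      have e1 : (((n - 1 : ℤ) : WithTop ℤ)).untop₀ = n - 1 := rfl
      have e2 : ((n : WithTop ℤ)).untop₀ = n := rfl
      rw [e1, e2]
      omega
    · have h1 : 0 ≤ meromorphicOrderAt f z := by
        rw [← hn]; exact_mod_cast (not_lt.1 h)
      have h2 := order_deriv_nonneg (hf z) h1
      have h3 : 0 ≤ (meromorphicOrderAt (deriv f) z).untop₀ := by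
        cases hq : meromorphicOrderAt (deriv f) z with
        | top => simp
        | coe q =>
          rw [hq] at h2
          have : 0 ≤ q := by exact_mod_cast h2
          exact this
      omega
  -- a common finite set
  classical
  set T : Finset ℂ := (finite_orders L hf hf0).toFinset ∪ (finite_orders L hF hF0).toFinset ∪
    (finite_orders L hG hG0).toFinset ∪ (finite_orders L hD hD0).toFinset with hT
  have hT' : ∀ z ∈ T, z ∈ parallelogram L := by
    intro z hz
    simp only [hT, Finset.mem_union, Set.Finite.mem_toFinset, Set.mem_ofPred_eq] at hz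
    rcases hz with ((h | h) | h) | h <;> exact h.1
  have hz1 : ∀ {g : ℂ → ℂ} {z : ℂ}, zeroMult g z ≠ 0 → meromorphicOrderAt g z ≠ 0 := by
    intro g z h h'
    apply h
    unfold zeroMult
    rw [h']; rfl
  have hz2 : ∀ {g : ℂ → ℂ} {z : ℂ}, zeroMult (fun w => (g w)⁻¹) z ≠ 0 →
      meromorphicOrderAt g z ≠ 0 := by
    intro g z h h'
    apply h
    rw [zeroMult_inv, h']; rfl
  have mf : ∀ z ∈ parallelogram L, meromorphicOrderAt f z ≠ 0 → z ∈ T := by
    intro z hz h
    simp only [hT, Finset.mem_union, Set.Finite.mem_toFinset, Set.mem_ofPred_eq]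
    exact Or.inl (Or.inl (Or.inl ⟨hz, h⟩))
  have mF : ∀ z ∈ parallelogram L, meromorphicOrderAt (fun w => f w ^ 3 + 3) z ≠ 0 → z ∈ T := by
    intro z hz h
    simp only [hT, Finset.mem_union, Set.Finite.mem_toFinset, Set.mem_ofPred_eq]
    exact Or.inl (Or.inl (Or.inr ⟨hz, h⟩))
  have mG : ∀ z ∈ parallelogram L, meromorphicOrderAt (fun w => f w ^ 3 + 2) z ≠ 0 → z ∈ T := by
    intro z hz h
    simp only [hT, Finset.mem_union, Set.Finite.mem_toFinset, Set.mem_ofPred_eq]
    exact Or.inl (Or.inr ⟨hz, h⟩)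
  have mD : ∀ z ∈ parallelogram L, meromorphicOrderAt (deriv f) z ≠ 0 → z ∈ T := by
    intro z hz h
    simp only [hT, Finset.mem_union, Set.Finite.mem_toFinset, Set.mem_ofPred_eq]
    exact Or.inr ⟨hz, h⟩
  have s1 : degree L (fun w => f w ^ 3 + 3) = ∑ z ∈ T, zeroMult (fun w => f w ^ 3 + 3) z :=
    degree_eq_sum T (fun z hz h => mF z hz (hz1 h)) hT'
  have s2 : degree L (fun w => f w ^ 3 + 2) = ∑ z ∈ T, zeroMult (fun w => f w ^ 3 + 2) z :=
    degree_eq_sum T (fun z hz h => mG z hz (hz1 h)) hT'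
  have s3 : degree L (deriv f) = ∑ z ∈ T, zeroMult (deriv f) z :=
    degree_eq_sum T (fun z hz h => mD z hz (hz1 h)) hT'
  have s4 : degree L (fun w => (f w)⁻¹) = ∑ z ∈ T, zeroMult (fun w => (f w)⁻¹) z :=
    degree_eq_sum T (fun z hz h => mf z hz (hz2 h)) hT'
  have s5 : degree L (fun w => (f w ^ 3 + 3)⁻¹) = ∑ z ∈ T, zeroMult (fun w => (f w ^ 3 + 3)⁻¹) z :=
    degree_eq_sum T (fun z hz h => mF z hz (hz2 (g := fun w => f w ^ 3 + 3) h)) hT'
  have s6 : degree L (fun w => (f w ^ 3 + 2)⁻¹) = ∑ z ∈ T, zeroMult (fun w => (f w ^ 3 + 2)⁻¹) z :=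
    degree_eq_sum T (fun z hz h => mG z hz (hz2 (g := fun w => f w ^ 3 + 2) h)) hT'
  have s7 : degree L (fun w => (deriv f w)⁻¹) = ∑ z ∈ T, zeroMult (fun w => (deriv f w)⁻¹) z :=
    degree_eq_sum T (fun z hz h => mD z hz (hz2 (g := deriv f) h)) hT'
  have d1 := degree_inv L hf hp hf0
  have d2 := degree_inv L hF hpF hF0
  have d3 := degree_inv L hG hpG hG0
  have d4 := degree_inv L hD hpD hD0
  have q1 : ∑ z ∈ T, zeroMult (fun w => (f w ^ 3 + 3)⁻¹) z =
      3 * ∑ z ∈ T, zeroMult (fun w => (f w)⁻¹) z := by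
    rw [Finset.mul_sum]
    exact Finset.sum_congr rfl fun z _ => key2 3 z
  have q2 : ∑ z ∈ T, zeroMult (fun w => (f w ^ 3 + 2)⁻¹) z =
      3 * ∑ z ∈ T, zeroMult (fun w => (f w)⁻¹) z := by
    rw [Finset.mul_sum]
    exact Finset.sum_congr rfl fun z _ => key2 2 z
  have q3 : ∑ z ∈ T, zeroMult (fun w => f w ^ 3 + 3) z + ∑ z ∈ T, zeroMult (fun w => f w ^ 3 + 2) z ≤
      2 * ∑ z ∈ T, zeroMult (deriv f) z := by
    rw [Finset.mul_sum, ← Finset.sum_add_distrib]
    exact Finset.sum_le_sum fun z _ => key1 z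
  have q4 : ∑ z ∈ T, zeroMult (fun w => (deriv f w)⁻¹) z ≤
      2 * ∑ z ∈ T, zeroMult (fun w => (f w)⁻¹) z := by
    rw [Finset.mul_sum]
    exact Finset.sum_le_sum fun z _ => key3 z
  omega

end OddPoint

theorem exists_odd {m : ℕ} (hm : Even m) (hm2 : 2 ≤ m) :
    ∃ z, ∃ k : ℤ, meromorphicOrderAt (rhof m) z = k ∧ Odd k := by
  have h := degree_Uf_ge hm hm2
  exact OddPoint.exists_odd_general Lq (RBound.Uf_meromorphic m)
    (fun l hl z => Uf_periodic m hl z) (by omega)

end MP79ab39
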