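import Pool.Agent.Lib_MP_79ab39_ag.Surface2
import Pool.Agent.Lib_MP_79ab39_ag.Branch
import Pool.Agent.Lib_MP_79ab39_ag.OddPoint
import Pool.Agent.Lib_MP_79ab39_ag.Main

/-! The curves on the second surface and their canonical degrees. -/

open MvPolynomial Complex PeriodPair Filter Topology

namespace MP79ab39

/-- the elliptic parts of the coordinate functions -/
noncomputable def curveFun2 (m : ℕ) (i : Fin 5) (z : ℂ) : ℂ :=
  if i = 0 then Uf m z else if i = 1 then 1 else if i = 2 then Xf (NN m * z)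
  else if i = 3 then Wf (NN m * z) else Vf m z

lemma rhof_meromorphic (m : ℕ) : Meromorphic (rhof m) := by
  intro z
  have h := Uf_meromorphic m z
  exact ((h.pow 3).add (MeromorphicAt.const _ z)).div ((h.pow 3).add (MeromorphicAt.const _ z))

lemma rhof_periodic (m : ℕ) {l : ℂ} (hl : l ∈ Lq.lattice) (z : ℂ) : rhof m (z + l) = rhof m z := by
  unfold rhof
  rw [Uf_periodic m hl z]

lemma curveFun2_meromorphic {m : ℕ} (i : Fin 5) : Meromorphic (curveFun2 m i) := by
  have e0 : (curveFun2 m 0) = Uf m := by funext z; simp [curveFun2]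
  have e1 : (curveFun2 m 1) = fun z => 1 := by funext z; simp [curveFun2]
  have e2 : (curveFun2 m 2) = fun z => Xf (NN m * z) := by funext z; simp [curveFun2]
  have e3 : (curveFun2 m 3) = fun z => Wf (NN m * z) := by funext z; simp [curveFun2]
  have e4 : (curveFun2 m 4) = Vf m := by funext z; simp [curveFun2]
  fin_cases i
  · exact e0 ▸ Uf_meromorphic m
  · exact e1 ▸ fun z => MeromorphicAt.const _ z
  · exact e2 ▸ comp_natMul_meromorphic Xf_meromorphic _
  · exact e3 ▸ comp_natMul_meromorphic Wf_meromorphic _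
  · exact e4 ▸ fun z => (Rf_meromorphic m z).mul (comp_natMul_meromorphic Wf_meromorphic _ z)

lemma curveFun2_periodic {m : ℕ} (i : Fin 5) {l : ℂ} (hl : l ∈ Lq.lattice) (z : ℂ) :
    curveFun2 m i (z + l) = curveFun2 m i z := by
  have hU := Uf_periodic m hl z
  unfold curveFun2 Vf Rf
  rw [hU, mul_add, Wf_periodic (natMul_mem hl _), Xf_periodic (natMul_mem hl _)]

/-- `U³ + b` vanishes at countably many points only -/
lemma countable_cube {m : ℕ} (hm : Even m) (hm2 : 2 ≤ m) (b : ℂ) :
    {z | Uf m z ^ 3 + b = 0}.Countable := by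
  have hU := Uf_meromorphic m
  have h1 : Meromorphic (fun z => Uf m z ^ 3 + b) := fun z =>
    ((hU z).pow 3).add (MeromorphicAt.const _ z)
  refine countable_zeros h1 (z₀ := 1 / 2) ?_
  have ho : meromorphicOrderAt (Uf m) (1 / 2) = ((-2 : ℤ) : WithTop ℤ) := by
    have a1 : meromorphicOrderAt Wf ((m : ℂ) * (1 / 2)) = -1 := by
      refine order_Wf_pole (Or.inl ?_)
      obtain ⟨n, hn⟩ := hm
      rw [mem_Lq]
      exact ⟨n, 0, by rw [hn]; push_cast; ring⟩
    have a2 : meromorphicOrderAt Wf (1 / 2) = 1 := order_Wf_zero (Or.inl (by simp))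
    rw [order_Uf m (by omega), a1, a2]
    decide
  have h3 : meromorphicOrderAt (fun z => Uf m z ^ 3) (1 / 2) = ((-6 : ℤ) : WithTop ℤ) := by
    have := meromorphicOrderAt_pow (n := 3) (hU (1 / 2))
    have e : (fun z => Uf m z ^ 3) = Uf m ^ 3 := rfl
    rw [e, this, ho]
    rfl
  have h4 : meromorphicOrderAt (fun z => Uf m z ^ 3 + b) (1 / 2) = ((-6 : ℤ) : WithTop ℤ) := by
    rw [← h3]
    refine meromorphicOrderAt_add_eq_left_of_lt (f₁ := fun z => Uf m z ^ 3) (f₂ := fun _ => b)
      (MeromorphicAt.const _ _) ?_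
    rw [h3]
    refine lt_of_lt_of_le ?_ (AnalyticAt.meromorphicOrderAt_nonneg analyticAt_const)
    exact_mod_cast (by norm_num : (-6 : ℤ) < 0)
  rw [h4]
  exact WithTop.coe_ne_top

noncomputable def theCurve2 {m : ℕ} (hm : Even m) (hm2 : 2 ≤ m) :
    DoubleTorusCurve theSurface2 where
  L := Lq
  ρ := rhof m
  f := curveFun2 m
  t := ![0, 1, 0, 0, 0]
  meromorphic_ρ := rhof_meromorphic m
  meromorphic := curveFun2_meromorphic
  periodic_ρ := fun _ hl z => rhof_periodic m hl z
  periodic := fun i _ hl z => curveFun2_periodic i hl z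
  odd := exists_odd hm hm2
  mem := by
    obtain ⟨D1, hD1, h1⟩ := curve_eq1 hm hm2
    obtain ⟨D2, hD2, h2⟩ := curve_eq2 hm hm2
    refine ⟨D1 ∪ D2 ∪ {z | Uf m z ^ 3 + 2 = 0}, (hD1.union hD2).union (countable_cube hm hm2 2),
      fun z hz s hs j => ?_⟩
    simp only [Set.mem_union, not_or, Set.mem_ofPred_eq] at hz
    have e1 := h1 z hz.1.1
    have e2 := h2 z hz.1.2
    have e0 : s ^ 2 * (Uf m z ^ 3 + 2) = Uf m z ^ 3 + 3 := by
      rw [hs, rhof, div_mul_cancel₀ _ hz.2]
    fin_cases j
    · simp [theSurface2, G0, curveFun2]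
      linear_combination e0
    · simp [theSurface2, G1, curveFun2]
      linear_combination e1
    · simp [theSurface2, G2, curveFun2]
      linear_combination e2
  birational := by
    obtain ⟨D, hD, h⟩ := curve_birational hm hm2
    refine ⟨D, hD, fun z hz z' hz' s s' _ _ heq => ⟨h z hz z' hz' ?_ ?_ ?_, ?_⟩⟩
    · simpa [curveFun2] using heq 0
    · simpa [curveFun2] using heq 2
    · simpa [curveFun2] using heq 3
    · simpa [curveFun2] using heq 1

theorem canonicalDegree2 {m : ℕ} (hm : Even m) (hm2 : 2 ≤ m) :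
    14 * (degree Lq (Uf m) : ℤ) - 4 ≤ (theCurve2 hm hm2).canonicalDegree := by
  have h2 := degree_Vf_le hm hm2
  have e0 : (curveFun2 m 0) = Uf m := by funext z; simp [curveFun2]
  have e3 : (curveFun2 m 3) = fun z => Wf (NN m * z) := by funext z; simp [curveFun2]
  have e4 : (curveFun2 m 4) = Vf m := by funext z; simp [curveFun2]
  have : (theCurve2 hm hm2).canonicalDegree =
      7 * (2 * (degree Lq (Uf m) : ℤ)) + (2 * (degree Lq (fun z => Wf (NN m * z)) : ℤ))
        - 2 * (degree Lq (Vf m) : ℤ) := by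
    simp only [DoubleTorusCurve.canonicalDegree]
    rw [canonicalClass2, Fin.sum_univ_five]
    simp [theCurve2, e0, e3, e4]
    ring
  rw [this]
  zify at h2
  linarith


end MP79ab39
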