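import Mathlib

/-!
# Smooth complete intersection surfaces in `(P¹)^(c+2)` and their curves of genus one

Everything is over `ℂ`.  A point of `(P¹)^(c+2)` is given by `c + 2` non-zero pairs of
homogeneous coordinates.
-/

open MvPolynomial

namespace MP79ab39

/-- The homogeneous coordinates of `(P¹)^(c+2)`: those of the `i`-th factor are `(i, 0)`
and `(i, 1)`. -/
abbrev Coord (c : ℕ) : Type := Fin (c + 2) × Fin 2

/-- `x` is a vector of homogeneous coordinates of a point of `(P¹)^(c+2)`: each of the `c + 2`
pairs is non-zero. -/
def IsPoint {c : ℕ} (x : Coord c → ℂ) : Prop := ∀ i, x (i, 0) ≠ 0 ∨ x (i, 1) ≠ 0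

/-- `F` is multihomogeneous of multidegree `d`: each of its monomials has degree `d i` in the
pair of variables `(i, 0), (i, 1)`. -/
def IsMultihomogeneous {c : ℕ} (F : MvPolynomial (Coord c) ℂ) (d : Fin (c + 2) → ℕ) : Prop :=
  ∀ m ∈ F.support, ∀ i, m (i, 0) + m (i, 1) = d i

/-- A smooth projective surface, presented as a smooth connected complete intersection of `c`
hypersurfaces `F j = 0` of multidegrees `d j` in `(P¹)^(c+2)`: at every common zero the
differentials of the `c` equations are linearly independent, and the set of the homogeneous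
coordinate vectors of its points (a torus bundle over the surface) is connected. -/
structure CISurface (c : ℕ) where
  /-- the equations -/
  F : Fin c → MvPolynomial (Coord c) ℂ
  /-- their multidegrees -/
  d : Fin c → Fin (c + 2) → ℕ
  homogeneous : ∀ j, IsMultihomogeneous (F j) (d j)
  smooth : ∀ x : Coord c → ℂ, IsPoint x → (∀ j, eval x (F j) = 0) →
    LinearIndependent ℂ (fun (j : Fin c) (p : Coord c) => eval x (pderiv p (F j)))
  connected : IsConnected {x : Coord c → ℂ | IsPoint x ∧ ∀ j, eval x (F j) = 0}

/-- The canonical class of the surface.  By the adjunction formula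
`K_X = (K_P + Σ_j [F j = 0])|_X` (with `P = (P¹)^(c+2)`, `K_P = O(-2, ..., -2)`), so `K_X` is the
restriction to `X` of `O(k_0, ..., k_(c+1))` with `k_i = Σ_j d_j(i) - 2`. -/
def CISurface.canonicalClass {c : ℕ} (X : CISurface c) (i : Fin (c + 2)) : ℤ :=
  (∑ j, (X.d j i : ℤ)) - 2

/-- The half open period parallelogram, which has exactly one point in every class of
`ℂ / L.lattice`. -/
def parallelogram (L : PeriodPair) : Set ℂ :=
  {z | ∃ a b : ℝ, 0 ≤ a ∧ a < 1 ∧ 0 ≤ b ∧ b < 1 ∧ z = a * L.ω₁ + b * L.ω₂}

/-- The multiplicity of the zero of a meromorphic function `f` at `z` (`0` if `f` has no zero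
at `z`, or if `f` vanishes identically near `z`). -/
noncomputable def zeroMult (f : ℂ → ℂ) (z : ℂ) : ℕ := (meromorphicOrderAt f z).untop₀.toNat

/-- The degree of an elliptic function `f` as a map `ℂ / L.lattice → P¹`: the number of its zeros
in the period parallelogram, counted with multiplicities. -/
noncomputable def degree (L : PeriodPair) (f : ℂ → ℂ) : ℕ :=
  ∑ᶠ z ∈ parallelogram L, zeroMult f z

/-- The holomorphic 1-forms `g dz` on the compact Riemann surface `ℂ / L.lattice`: `g` is an
entire function with the periods `L.lattice`. -/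
def holoForms (L : PeriodPair) : Submodule ℂ (ℂ → ℂ) where
  carrier := {g | Differentiable ℂ g ∧ ∀ l ∈ L.lattice, ∀ z, g (z + l) = g z}
  add_mem' := by
    rintro f g ⟨hf, hf'⟩ ⟨hg, hg'⟩
    refine ⟨hf.add hg, fun l hl z => ?_⟩
    simp only [Pi.add_apply, hf' l hl z, hg' l hl z]
  zero_mem' := ⟨differentiable_const 0, fun _ _ _ => rfl⟩
  smul_mem' := by
    rintro c f ⟨hf, hf'⟩
    refine ⟨hf.const_smul c, fun l hl z => ?_⟩
    simp only [Pi.smul_apply, hf' l hl z]

/-- A curve on the surface `X` whose normalisation is a complex torus `ℂ / L.lattice`, presented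
by the normalisation map `ν : ℂ / L.lattice → X ⊆ (P¹)^(c+2)`,
`ν = ([f 0 : 1], ..., [f (c+1) : 1])`, where the `f i` are elliptic functions.  The values of the
`f i` are disregarded on countable sets (a meromorphic function is determined by its values off a
countable set, and the value which Lean gives to it at a pole has no meaning).  The condition
`birational` says that `ν` is injective up to countably many points, that is, birational onto its
image (in particular it is not constant); so the image is an irreducible algebraic curve in `X`
with normalisation `ν`. -/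
structure TorusCurve {c : ℕ} (X : CISurface c) where
  /-- the lattice of the normalisation -/
  L : PeriodPair
  /-- the coordinate functions -/
  f : Fin (c + 2) → ℂ → ℂ
  meromorphic : ∀ i, Meromorphic (f i)
  periodic : ∀ i, ∀ ω ∈ L.lattice, ∀ z, f i (z + ω) = f i z
  mem : ∃ D : Set ℂ, D.Countable ∧ ∀ z ∉ D, ∀ j,
    eval (fun p : Coord c => if p.2 = 0 then f p.1 z else 1) (X.F j) = 0
  birational : ∃ D : Set ℂ, D.Countable ∧ ∀ z ∉ D, ∀ z' ∉ D,
    (∀ i, f i z = f i z') → z - z' ∈ L.lattice

/-- The geometric genus of the curve: the genus of its normalisation `ℂ / L.lattice`, that is the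
dimension of its space of holomorphic 1-forms. -/
noncomputable def TorusCurve.genus {c : ℕ} {X : CISurface c} (C : TorusCurve X) : ℕ :=
  Module.finrank ℂ (holoForms C.L)

/-- The canonical degree `K_X · C = deg ν^* K_X` (projection formula): the pullback by `ν` of the
`i`-th hyperplane class has degree `degree C.L (C.f i)`. -/
noncomputable def TorusCurve.canonicalDegree {c : ℕ} {X : CISurface c}
    (C : TorusCurve X) : ℤ :=
  ∑ i, X.canonicalClass i * (degree C.L (C.f i) : ℤ)

end MP79ab39
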