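import Pool.Agent.Lib_MP_79ab39_ag.Defs

/-!
# Canonical sections of a surface, and curves which are double covers of complex tori
-/

open MvPolynomial

namespace MP79ab39

/-- The set of the homogeneous coordinate vectors of the points of the surface. -/
def CISurface.cone {c : ℕ} (X : CISurface c) : Set (Coord c → ℂ) :=
  {x | IsPoint x ∧ ∀ j, eval x (X.F j) = 0}

/-- `s` is a holomorphic section of the line bundle `O(k)|_X`: a function on the cone of `X` which
is multihomogeneous of multidegree `k` and which is locally the restriction of an analytic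
function. -/
def CISurface.IsSection {c : ℕ} (X : CISurface c) (k : Fin (c + 2) → ℤ)
    (s : (Coord c → ℂ) → ℂ) : Prop :=
  (∀ x ∈ X.cone, ∀ t : Fin (c + 2) → ℂ, (∀ i, t i ≠ 0) →
    s (fun p => t p.1 * x p) = (∏ i, t i ^ k i) * s x) ∧
  (∀ x ∈ X.cone, ∃ g : (Coord c → ℂ) → ℂ, AnalyticAt ℂ g x ∧
    ∀ᶠ y in nhdsWithin x X.cone, s y = g y)

/-- The geometric genus `h^0(X, K_X)` of the surface is at least two: there are two linearly
independent holomorphic sections of the canonical bundle.  In particular the Kodaira dimension of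
`X` is at least one. -/
def CISurface.TwoCanonicalSections {c : ℕ} (X : CISurface c) : Prop :=
  ∃ s₁ s₂ : (Coord c → ℂ) → ℂ, X.IsSection X.canonicalClass s₁ ∧ X.IsSection X.canonicalClass s₂ ∧
    ∀ a b : ℂ, (∀ x ∈ X.cone, a * s₁ x + b * s₂ x = 0) → a = 0 ∧ b = 0

/-- A curve on the surface `X` whose normalisation `D` is a double cover of a complex torus
`ℂ / L.lattice`: `D` is the compact Riemann surface of `s² = ρ(z)`, where `ρ` is an elliptic
function which has somewhere a zero or pole of odd order (so `D` is connected), and the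
normalisation map is `ν = ([f 0 * s ^ t 0 : 1], ..., [f (c+1) * s ^ t (c+1) : 1])` with elliptic
functions `f i` and exponents `t i ∈ {0, 1}`.  As in `TorusCurve`, countable sets are disregarded;
`birational` says that `ν` is injective up to countably many points. -/
structure DoubleTorusCurve {c : ℕ} (X : CISurface c) where
  /-- the lattice of the torus -/
  L : PeriodPair
  /-- the square of the function generating the double cover -/
  ρ : ℂ → ℂ
  /-- the elliptic parts of the coordinate functions -/
  f : Fin (c + 2) → ℂ → ℂ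
  /-- the exponents of `s` in the coordinate functions -/
  t : Fin (c + 2) → Fin 2
  meromorphic_ρ : Meromorphic ρ
  meromorphic : ∀ i, Meromorphic (f i)
  periodic_ρ : ∀ ω ∈ L.lattice, ∀ z, ρ (z + ω) = ρ z
  periodic : ∀ i, ∀ ω ∈ L.lattice, ∀ z, f i (z + ω) = f i z
  odd : ∃ z, ∃ k : ℤ, meromorphicOrderAt ρ z = k ∧ Odd k
  mem : ∃ D : Set ℂ, D.Countable ∧ ∀ z ∉ D, ∀ s, s ^ 2 = ρ z → ∀ j,
    eval (fun p : Coord c => if p.2 = 0 then f p.1 z * s ^ (t p.1 : ℕ) else 1) (X.F j) = 0
  birational : ∃ D : Set ℂ, D.Countable ∧ ∀ z ∉ D, ∀ z' ∉ D, ∀ s s', s ^ 2 = ρ z → s' ^ 2 = ρ z' →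
    (∀ i, f i z * s ^ (t i : ℕ) = f i z' * s' ^ (t i : ℕ)) → z - z' ∈ L.lattice ∧ s = s'

/-- The number of the branch points of the double cover `s² = ρ(z)` of `ℂ / L.lattice`: the points
of the period parallelogram at which `ρ` has odd order. -/
noncomputable def branchNumber (L : PeriodPair) (ρ : ℂ → ℂ) : ℕ :=
  Set.ncard {z | z ∈ parallelogram L ∧ Odd (meromorphicOrderAt ρ z).untop₀}

/-- The geometric genus of the curve, by the Riemann-Hurwitz formula
`2 g - 2 = 2 (2 · 1 - 2) + branchNumber` for the double cover of the torus (`branchNumber` is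
always even). -/
noncomputable def DoubleTorusCurve.genus {c : ℕ} {X : CISurface c} (C : DoubleTorusCurve X) : ℕ :=
  1 + branchNumber C.L C.ρ / 2

/-- The canonical degree `K_X · C = deg ν^* K_X`.  The elliptic function `f i` has degree
`2 * degree C.L (f i)` on the double cover, and the degree of `f i * s` is that of the elliptic
function `f i ^ 2 * ρ` on the torus. -/
noncomputable def DoubleTorusCurve.canonicalDegree {c : ℕ} {X : CISurface c}
    (C : DoubleTorusCurve X) : ℤ :=
  ∑ i, X.canonicalClass i *
    (if C.t i = 0 then 2 * (degree C.L (C.f i) : ℤ)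
      else (degree C.L (fun z => C.f i z ^ 2 * C.ρ z) : ℤ))

end MP79ab39
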