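import Pool.Agent.Lib_MP_79ab39_ag.Defs

/-!
# The genus of a complex torus of dimension one

The holomorphic 1-forms on `ℂ / L.lattice` are the forms `f(z) dz` with `f` entire and
`L.lattice`-periodic; they are the constant multiples of `dz`.
-/

namespace MP79ab39

theorem finrank_holoForms (L : PeriodPair) : Module.finrank ℂ (holoForms L) = 1 := by
  have h1 : (fun _ => (1 : ℂ)) ∈ holoForms L :=
    ⟨differentiable_const 1, fun _ _ _ => rfl⟩
  refine finrank_eq_one (⟨fun _ => (1 : ℂ), h1⟩ : holoForms L) ?_ ?_
  · intro h
    have h2 := congrArg (fun f : holoForms L => (f : ℂ → ℂ) 0) h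
    simp at h2
  · rintro ⟨f, hf, hf'⟩
    refine ⟨f 0, ?_⟩
    apply Subtype.ext
    funext z
    have h2 : f z = f 0 :=
      hf.apply_eq_apply_of_bounded
        (IsZLattice.isCompact_range_of_periodic L.lattice f hf.continuous
          (fun z w hw => hf' w hw z)).isBounded z 0
    simp [h2]

end MP79ab39
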