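import Pool.Agent.Lib_MP_79ab39_ag.Surface2

/-!
# Two canonical sections of the surface of Kodaira dimension one
-/

open MvPolynomial Topology

namespace MP79ab39

/-- `u (u⁴ - 1)` -/
noncomputable def pp (x : Coord 3 → ℂ) : ℂ :=
  x (0, 0) * x (0, 1) * (x (0, 0) ^ 4 - x (0, 1) ^ 4)

/-- `2 u⁶ + 1` -/
noncomputable def qq (x : Coord 3 → ℂ) : ℂ := 2 * x (0, 0) ^ 6 + x (0, 1) ^ 6

/-- the section `u (u⁴ - 1) w₀ / v₀ = (2 u⁶ + 1) w₁ / v₁` of `O(6, 0, 0, 1, -1)` -/
noncomputable def sig (x : Coord 3 → ℂ) : ℂ :=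
  if x (4, 0) = 0 then qq x * x (3, 1) / x (4, 1) else pp x * x (3, 0) / x (4, 0)

lemma cone2_iff (x : Coord 3 → ℂ) : x ∈ theSurface2.cone ↔ IsPoint x ∧
    (x (1, 0) ^ 2 * (x (0, 0) ^ 3 + 2 * x (0, 1) ^ 3) -
      x (1, 1) ^ 2 * (x (0, 0) ^ 3 + 3 * x (0, 1) ^ 3) = 0) ∧
    (x (3, 0) ^ 2 * x (2, 0) * x (2, 1) - x (3, 1) ^ 2 * (x (2, 0) ^ 2 - x (2, 1) ^ 2) = 0) ∧
    (x (4, 0) * qq x * x (3, 1) - x (4, 1) * pp x * x (3, 0) = 0) := by
  simp only [CISurface.cone, theSurface2, Set.mem_ofPred_eq, Fin.forall_fin_succ, IsEmpty.forall_iff,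
    Matrix.cons_val_zero, Matrix.cons_val_succ, and_true, G0, G1, G2, map_sub, map_mul, map_pow,
    map_add, eval_X, map_ofNat, qq, pp]

lemma sig_eq_of_ne {x : Coord 3 → ℂ} (hx : x ∈ theSurface2.cone) (h1 : x (4, 1) ≠ 0) :
    sig x = qq x * x (3, 1) / x (4, 1) := by
  unfold sig
  split_ifs with h0
  · rfl
  · have := ((cone2_iff x).1 hx).2.2.2
    field_simp
    linear_combination -this

lemma analyticAt_coord (x : Coord 3 → ℂ) (p : Coord 3) :
    AnalyticAt ℂ (fun y : Coord 3 → ℂ => y p) x :=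
  (ContinuousLinearMap.proj (R := ℂ) (φ := fun _ : Coord 3 => ℂ) p).analyticAt x

lemma analyticAt_pp (x : Coord 3 → ℂ) : AnalyticAt ℂ pp x := by
  unfold pp
  exact ((analyticAt_coord x _).mul (analyticAt_coord x _)).mul
    (((analyticAt_coord x _).pow 4).sub ((analyticAt_coord x _).pow 4))

lemma analyticAt_qq (x : Coord 3 → ℂ) : AnalyticAt ℂ qq x := by
  unfold qq
  exact (analyticAt_const.mul ((analyticAt_coord x _).pow 6)).add ((analyticAt_coord x _).pow 6)

lemma isSection_sig (e : Fin 2) :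
    theSurface2.IsSection ![7, 0, 0, 1, -1] (fun x => x (0, e) * sig x) := by
  constructor
  · intro x hx t ht
    have h : (∏ i, t i ^ (![7, 0, 0, 1, -1] : Fin 5 → ℤ) i) = t 0 ^ 7 * t 3 * (t 4)⁻¹ := by
      simp [Fin.prod_univ_succ]
      ring_nf
    rw [h]
    have h4 := ht 4
    have e1 : qq (fun p => t p.1 * x p) = t 0 ^ 6 * qq x := by unfold qq; ring
    have e2 : pp (fun p => t p.1 * x p) = t 0 ^ 6 * pp x := by unfold pp; ring
    have e3 : sig (fun p => t p.1 * x p) = t 0 ^ 6 * t 3 * (t 4)⁻¹ * sig x := by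
      unfold sig
      rw [e1, e2]
      by_cases h0 : x (4, 0) = 0
      · simp only [h0, mul_zero, if_true]
        by_cases h1 : x (4, 1) = 0
        · simp [h1]
        · field_simp
      · have : t 4 * x (4, 0) ≠ 0 := mul_ne_zero h4 h0
        simp only [h0, this, if_false]
        field_simp
    simp only [e3]
    ring
  · intro x hx
    by_cases h0 : x (4, 0) = 0
    · have h1 : x (4, 1) ≠ 0 := by
        rcases ((cone2_iff x).1 hx).1 4 with h | h
        · exact absurd h0 h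
        · exact h
      refine ⟨fun y => y (0, e) * (qq y * y (3, 1) / y (4, 1)), ?_, ?_⟩
      · exact (analyticAt_coord x _).mul (((analyticAt_qq x).mul (analyticAt_coord x _)).div
          (analyticAt_coord x _) h1)
      · have hc : ∀ᶠ y in nhdsWithin x theSurface2.cone, y (4, 1) ≠ 0 :=
          nhdsWithin_le_nhds ((analyticAt_coord x (4, 1)).continuousAt.eventually_ne h1)
        filter_upwards [hc, self_mem_nhdsWithin] with y hy hy'
        rw [sig_eq_of_ne hy' hy]
    · refine ⟨fun y => y (0, e) * (pp y * y (3, 0) / y (4, 0)), ?_, ?_⟩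
      · exact (analyticAt_coord x _).mul (((analyticAt_pp x).mul (analyticAt_coord x _)).div
          (analyticAt_coord x _) h0)
      · have hc : ∀ᶠ y in nhdsWithin x theSurface2.cone, y (4, 0) ≠ 0 :=
          nhdsWithin_le_nhds ((analyticAt_coord x (4, 0)).continuousAt.eventually_ne h0)
        filter_upwards [hc] with y hy
        simp [sig, hy]

theorem twoCanonicalSections : theSurface2.TwoCanonicalSections := by
  refine ⟨fun x => x (0, 0) * sig x, fun x => x (0, 1) * sig x, ?_, ?_, ?_⟩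
  · rw [canonicalClass2]; exact isSection_sig 0
  · rw [canonicalClass2]; exact isSection_sig 1
  · intro a b hab
    obtain ⟨r, hr⟩ := IsAlgClosed.exists_pow_nat_eq (3 : ℂ) (n := 2) (by norm_num)
    obtain ⟨s, hs⟩ := IsAlgClosed.exists_pow_nat_eq (2 : ℂ) (n := 2) (by norm_num)
    have hr0 : r ≠ 0 := by rintro rfl; norm_num at hr
    -- the two points
    let P : Fin 5 → Fin 2 → ℂ := ![![1, 0], ![1, 1], ![1, 1], ![0, 1], ![0, 1]]
    let Q : Fin 5 → Fin 2 → ℂ := ![![0, 1], ![r, s], ![1, 1], ![0, 1], ![0, 1]]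
    have hP : (fun p : Coord 3 => P p.1 p.2) ∈ theSurface2.cone := by
      rw [cone2_iff]
      refine ⟨?_, ?_, ?_, ?_⟩
      · intro i; fin_cases i <;> simp [P]
      · simp [P]
      · simp [P]
      · simp [P, pp, qq]
    have hQ : (fun p : Coord 3 => Q p.1 p.2) ∈ theSurface2.cone := by
      rw [cone2_iff]
      refine ⟨?_, ?_, ?_, ?_⟩
      · intro i; fin_cases i <;> simp [Q, hr0]
      · simp [Q, hr, hs]; norm_num
      · simp [Q]
      · simp [Q, pp, qq]
    have h1 := hab _ hP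
    have h2 := hab _ hQ
    constructor
    · simpa [P, sig, qq, pp] using h1
    · simpa [Q, sig, qq, pp] using h2

end MP79ab39
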