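import Pool.Agent.Lib_MP_79ab39_ag.Curve2
import Pool.Agent.Lib_MP_79ab39_ag.Sections

/-! The companion theorem: Kodaira dimension one. -/

open MvPolynomial Complex PeriodPair Filter Topology

namespace MP79ab39

theorem main2 : ∃ (c : ℕ) (X : CISurface c), X.TwoCanonicalSections ∧
    ∀ A B : ℝ, A < 14 / 3 → ∃ C : DoubleTorusCurve X,
      A * ((C.genus : ℝ) - 1) + B < (C.canonicalDegree : ℝ) := by
  refine ⟨3, theSurface2, twoCanonicalSections, fun A B hA => ?_⟩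
  have hA' : 0 < 14 - 3 * max A 0 := by
    rcases max_cases A 0 with ⟨h, _⟩ | ⟨h, _⟩ <;> rw [h] <;> linarith
  obtain ⟨n, hn⟩ := exists_nat_gt ((|B| + 4) / (14 - 3 * max A 0))
  have hm : Even (2 * n + 2) := ⟨n + 1, by ring⟩
  have hm2 : 2 ≤ 2 * n + 2 := by omega
  refine ⟨theCurve2 hm hm2, ?_⟩
  have h1 := canonicalDegree2 hm hm2
  have h2 := degree_Uf_ge hm hm2
  have h3 := branch_le hm hm2
  set a : ℝ := (degree Lq (Uf (2 * n + 2)) : ℝ) with ha
  have h1' : (14 * a - 4) ≤ ((theCurve2 hm hm2).canonicalDegree : ℝ) := by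
    rw [ha]
    exact_mod_cast h1
  have h2' : (2 * (n : ℝ) + 2) ≤ a := by
    rw [ha]
    exact_mod_cast h2
  have hg : (theCurve2 hm hm2).genus = 1 + branchNumber Lq (rhof (2 * n + 2)) / 2 := rfl
  have h4 : (((theCurve2 hm hm2).genus : ℕ) : ℝ) - 1 ≤ 3 * a := by
    have : (theCurve2 hm hm2).genus ≤ 1 + 3 * degree Lq (Uf (2 * n + 2)) := by
      rw [hg]
      omega
    have h5 : (((theCurve2 hm hm2).genus : ℕ) : ℝ) ≤ 1 + 3 * a := by
      rw [ha]
      exact_mod_cast this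
    linarith
  have h6 : (0 : ℝ) ≤ (((theCurve2 hm hm2).genus : ℕ) : ℝ) - 1 := by
    have : 1 ≤ (theCurve2 hm hm2).genus := by rw [hg]; omega
    have h5 : (1 : ℝ) ≤ (((theCurve2 hm hm2).genus : ℕ) : ℝ) := by exact_mod_cast this
    linarith
  have h7 : A * ((((theCurve2 hm hm2).genus : ℕ) : ℝ) - 1) ≤ max A 0 * (3 * a) :=
    (mul_le_mul_of_nonneg_right (le_max_left A 0) h6).trans
      (mul_le_mul_of_nonneg_left h4 (le_max_right A 0))
  have h8 : |B| + 4 < (14 - 3 * max A 0) * n := by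
    rwa [div_lt_iff₀ hA', mul_comm] at hn
  have hn0 : (0 : ℝ) ≤ n := Nat.cast_nonneg n
  have h9 : (14 - 3 * max A 0) * n ≤ (14 - 3 * max A 0) * a :=
    mul_le_mul_of_nonneg_left (by linarith) hA'.le
  have h10 := le_abs_self B
  nlinarith

end MP79ab39
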